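import Pool.Agent.SR2.G.Defs

/-!
# SR2 G Asy: `x / log (2 + x)` against powers
-/

set_option autoImplicit false

open Topology Filter Metric Asymptotics

noncomputable section

namespace Pool.Agent.SR2.G

theorem tendsto_div_log : Tendsto (fun x : ℝ => x / Real.log (2 + x)) atTop atTop := by
  have h0 : Tendsto (fun x : ℝ => 2 + x) atTop atTop := tendsto_atTop_add_const_left _ _ tendsto_id
  have h1 : Tendsto (fun y : ℝ => Real.log y / y) atTop (𝓝 0) := by
    simpa using Real.isLittleO_log_id_atTop.tendsto_div_nhds_zero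
  have h2 : Tendsto (fun x : ℝ => Real.log (2 + x) / (2 + x)) atTop (𝓝[>] 0) := by
    refine tendsto_nhdsWithin_iff.2 ⟨h1.comp h0, ?_⟩
    filter_upwards [eventually_ge_atTop 0] with x hx
    exact div_pos (Real.log_pos (by linarith)) (by linarith)
  have h3 : Tendsto (fun x : ℝ => (2 + x) / Real.log (2 + x)) atTop atTop := by
    have h4 := h2.inv_tendsto_nhdsGT_zero
    refine h4.congr fun x => ?_
    simp [inv_div]
  have h5 : Tendsto (fun x : ℝ => (2 + x) / Real.log (2 + x) + -(2 / Real.log 2)) atTop atTop := tendsto_atTop_add_const_right _ _ h3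
  refine tendsto_atTop_mono' _ ?_ h5
  filter_upwards [eventually_ge_atTop 0] with x hx
  have h6 : 0 < Real.log 2 := Real.log_pos (by norm_num)
  have h7 : Real.log 2 ≤ Real.log (2 + x) := Real.log_le_log (by norm_num) (by linarith)
  have h8 : (2 + x) / Real.log (2 + x) = 2 / Real.log (2 + x) + x / Real.log (2 + x) := add_div _ _ _
  have h9 : 2 / Real.log (2 + x) ≤ 2 / Real.log 2 := div_le_div_of_nonneg_left (by norm_num) h6 h7
  rw [h8]
  linarith

theorem eventually_pw_le {γ ε : ℝ} (hγ : γ < 1) (hε : 0 < ε) : ∀ᶠ x : ℝ in atTop, pw γ x ≤ ε * (x / Real.log (2 + x)) := by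
  have h0 : Tendsto (fun x : ℝ => 2 + x) atTop atTop := tendsto_atTop_add_const_left _ _ tendsto_id
  have h1 : (fun y : ℝ => Real.log y) =o[atTop] fun y : ℝ => y ^ (1 - γ) := isLittleO_log_rpow_atTop (by linarith)
  have h2 := h0.eventually (h1.bound (half_pos hε))
  filter_upwards [h2, eventually_ge_atTop 2] with x hx hx2
  have h3 : 0 < Real.log (2 + x) := Real.log_pos (by linarith)
  have h4 : 0 < 2 + x := by linarith
  rw [Real.norm_of_nonneg h3.le, Real.norm_of_nonneg (Real.rpow_nonneg h4.le _)] at hx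
  rw [mul_div_assoc', le_div_iff₀ h3]
  have h5 : pw γ x * (2 + x) ^ (1 - γ) = 2 + x := by
    unfold pw
    rw [← Real.rpow_add h4]
    simp
  have h6 : 0 ≤ pw γ x := Real.rpow_nonneg h4.le _
  calc pw γ x * Real.log (2 + x) ≤ pw γ x * (ε / 2 * (2 + x) ^ (1 - γ)) := mul_le_mul_of_nonneg_left hx h6
    _ = ε / 2 * (pw γ x * (2 + x) ^ (1 - γ)) := by ring
    _ = ε / 2 * (2 + x) := by rw [h5]
    _ ≤ ε * x := by nlinarith

end Pool.Agent.SR2.G
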