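import Pool.Agent.SR2.G.Defs

/-!
# SR2 G Chain: chains of good points (helper92)
-/

set_option autoImplicit false
set_option linter.unusedSectionVars false

open Topology Filter Metric

noncomputable section

namespace Pool.Agent.SR2.G

variable {V : Type} [NormedAddCommGroup V] [NormedSpace ℂ V] {KK : Set (ℂ → V)} {M γ L : ℝ}

private theorem one_le_pw (hγ : 0 < γ) {t : ℝ} (ht : 0 ≤ t) : 1 ≤ pw γ t := Real.one_le_rpow (by linarith) hγ.le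

private theorem pw_mono (hγ : 0 < γ) {t t' : ℝ} (ht : 0 ≤ t) (h : t ≤ t') : pw γ t ≤ pw γ t' :=
  Real.rpow_le_rpow (by linarith) (by linarith) hγ.le

/-- `t ≤ a + C (2 + t) ^ γ` bounds `t` -/
private theorem exists_T (hγ : 0 < γ) (hγ1 : γ < 1) (a C : ℝ) : ∃ T : ℝ, 1 ≤ T ∧ ∀ t : ℝ, 0 ≤ t → t ≤ a + C * pw γ t → t ≤ T := by
  have h1 : Tendsto (fun s : ℝ => C * s ^ (-(1 - γ))) atTop (𝓝 (C * 0)) := (tendsto_rpow_neg_atTop (by linarith : 0 < 1 - γ)).const_mul C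
  rw [mul_zero] at h1
  obtain ⟨S, hS⟩ := (eventually_atTop.1 (h1.eventually_lt_const (by norm_num : (0 : ℝ) < 1 / 4)))
  refine ⟨max 1 (max S (2 * a + 2)), le_max_left _ _, fun t ht h2 => ?_⟩
  by_contra hlt
  push Not at hlt
  have h3 : 1 < t := (le_max_left _ _).trans_lt hlt
  have h4 : S < t := ((le_max_left _ _).trans (le_max_right _ _)).trans_lt hlt
  have h5 : 2 * a + 2 < t := ((le_max_right _ _).trans (le_max_right _ _)).trans_lt hlt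
  have h6 := hS (2 + t) (by linarith)
  have h7 : C * pw γ t = (2 + t) * (C * (2 + t) ^ (-(1 - γ))) := by
    unfold pw
    have h8 : (2 + t) ^ γ = (2 + t) * (2 + t) ^ (-(1 - γ)) := by
      conv_rhs => rw [← Real.rpow_one (2 + t)]
      rw [Real.rpow_one, ← Real.rpow_one_add' (by linarith) (by linarith)]
      congr 1
      ring
    rw [h8]
    ring
  have h9 : (2 + t) * (C * (2 + t) ^ (-(1 - γ))) ≤ (2 + t) * (1 / 4) := mul_le_mul_of_nonneg_left h6.le (by linarith)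
  rw [h7] at h2
  linarith

/-- the next good points to the right and to the left -/
private theorem exists_next (h : Sys KK M γ) : ∃ L : ℝ, 1 ≤ L ∧ ∀ F ∈ KK, ‖F 0‖ ≤ M →
    (∃ z : ℂ, ‖F z‖ ≤ M ∧ 1 ≤ z.re ∧ ‖z‖ ≤ L) ∧ ∃ z : ℂ, ‖F z‖ ≤ M ∧ z.re ≤ -1 ∧ ‖z‖ ≤ L := by
  obtain ⟨l, hl⟩ := h.dense
  obtain ⟨C, hC⟩ := h.thin M
  obtain ⟨T, hT1, hT⟩ := exists_T h.γ_pos h.γ_lt (2 * l + 1) C
  refine ⟨T, hT1, fun F hF hF0 => ⟨?_, ?_⟩⟩
  · obtain ⟨z, hz, hzM⟩ := hl F hF hF0 (l + 1)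
    have h1 := abs_le.1 hz
    have h2 := hC F hF hF0 z hzM
    refine ⟨z, hzM, by linarith, hT _ (norm_nonneg z) ?_⟩
    have h3 : |z.re| ≤ 2 * l + 1 := abs_le.2 ⟨by linarith, by linarith⟩
    exact (Complex.norm_le_abs_re_add_abs_im z).trans (add_le_add h3 h2)
  · obtain ⟨z, hz, hzM⟩ := hl F hF hF0 (-(l + 1))
    have h1 := abs_le.1 hz
    have h2 := hC F hF hF0 z hzM
    refine ⟨z, hzM, by linarith, hT _ (norm_nonneg z) ?_⟩
    have h3 : |z.re| ≤ 2 * l + 1 := abs_le.2 ⟨by linarith, by linarith⟩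
    exact (Complex.norm_le_abs_re_add_abs_im z).trans (add_le_add h3 h2)

theorem exists_chain (h : Sys KK M γ) : ∃ L : ℝ, 1 ≤ L ∧ ∀ F ∈ KK, ‖F 0‖ ≤ M → ∃ z, IsChain M L F z := by
  obtain ⟨L, hL1, hL⟩ := exists_next h
  refine ⟨L, hL1, fun F hF hF0 => ?_⟩
  have hright : ∀ a : {a : ℂ // ‖F a‖ ≤ M}, ∃ b : {a : ℂ // ‖F a‖ ≤ M}, 1 ≤ (b : ℂ).re - (a : ℂ).re ∧ ‖(b : ℂ) - a‖ ≤ L := by
    rintro ⟨a, ha⟩
    obtain ⟨⟨z, h1, h2, h3⟩, -⟩ := hL (sh a F) (h.shift F hF a) (by show ‖F (0 + a)‖ ≤ M; rwa [zero_add])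
    refine ⟨⟨z + a, h1⟩, ?_, ?_⟩
    · show 1 ≤ (z + a).re - a.re
      rw [Complex.add_re]
      linarith
    · show ‖z + a - a‖ ≤ L
      rwa [add_sub_cancel_right]
  have hleft : ∀ a : {a : ℂ // ‖F a‖ ≤ M}, ∃ b : {a : ℂ // ‖F a‖ ≤ M}, 1 ≤ (a : ℂ).re - (b : ℂ).re ∧ ‖(a : ℂ) - b‖ ≤ L := by
    rintro ⟨a, ha⟩
    obtain ⟨-, z, h1, h2, h3⟩ := hL (sh a F) (h.shift F hF a) (by show ‖F (0 + a)‖ ≤ M; rwa [zero_add])
    refine ⟨⟨z + a, h1⟩, ?_, ?_⟩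
    · show 1 ≤ a.re - (z + a).re
      rw [Complex.add_re]
      linarith
    · show ‖a - (z + a)‖ ≤ L
      rw [← norm_neg, neg_sub, add_sub_cancel_right]
      exact h3
  choose R hR using hright
  choose S hS using hleft
  obtain ⟨p, hp0, hp⟩ : ∃ p : ℕ → {a : ℂ // ‖F a‖ ≤ M}, p 0 = ⟨0, hF0⟩ ∧ ∀ n, p (n + 1) = R (p n) :=
    ⟨fun n => Nat.rec ⟨0, hF0⟩ (fun _ a => R a) n, rfl, fun _ => rfl⟩
  obtain ⟨q, hq0, hq⟩ : ∃ q : ℕ → {a : ℂ // ‖F a‖ ≤ M}, q 0 = ⟨0, hF0⟩ ∧ ∀ n, q (n + 1) = S (q n) :=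
    ⟨fun n => Nat.rec ⟨0, hF0⟩ (fun _ a => S a) n, rfl, fun _ => rfl⟩
  obtain ⟨z, hz⟩ : ∃ z : ℤ → {a : ℂ // ‖F a‖ ≤ M}, z = fun k => if 0 ≤ k then p k.toNat else q (-k).toNat := ⟨_, rfl⟩
  have hzp : ∀ n : ℕ, z n = p n := by
    intro n
    rw [hz]
    simp
  have hzq : ∀ n : ℕ, z (-n) = q n := by
    intro n
    rw [hz]
    rcases Nat.eq_zero_or_pos n with hn | hn
    · subst hn
      simp [hp0, hq0]
    · have h1 : ¬ (0 : ℤ) ≤ -(n : ℤ) := by omega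
      simp only [h1, if_false, neg_neg, Int.toNat_natCast]
  have hstep : ∀ k : ℤ, 1 ≤ (z (k + 1) : ℂ).re - (z k : ℂ).re ∧ ‖(z (k + 1) : ℂ) - z k‖ ≤ L := by
    intro k
    rcases le_or_gt 0 k with hk | hk
    · obtain ⟨n, rfl⟩ := Int.eq_ofNat_of_zero_le hk
      have h1 : ((n : ℤ) + 1) = ((n + 1 : ℕ) : ℤ) := by push_cast; ring
      rw [h1, hzp, hzp, hp]
      exact hR (p n)
    · obtain ⟨n, hn⟩ : ∃ n : ℕ, k = -((n + 1 : ℕ) : ℤ) := ⟨(-k - 1).toNat, by omega⟩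
      have h1 : k + 1 = -(n : ℤ) := by omega
      rw [h1, hn, hzq, hzq, hq]
      exact hS (q n)
  refine ⟨fun k => z k, ?_, fun k => (z k).2, fun k => (hstep k).1, fun k => (hstep k).2⟩
  have h1 := hzp 0
  rw [Nat.cast_zero] at h1
  show ((z 0 : {a : ℂ // ‖F a‖ ≤ M}) : ℂ) = 0
  rw [h1, hp0]

theorem IsChain.shift {F : ℂ → V} {z : ℤ → ℂ} (h : IsChain M L F z) (n : ℤ) : IsChain M L (sh (z n) F) fun k => z (k + n) - z n where
  zero := by rw [zero_add, sub_self]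
  good k := by
    show ‖F (z (k + n) - z n + z n)‖ ≤ M
    rw [sub_add_cancel]
    exact h.good _
  re k := by
    have h1 := h.re (k + n)
    rw [show k + 1 + n = k + n + 1 by ring, Complex.sub_re, Complex.sub_re]
    linarith
  norm k := by
    have h1 := h.norm (k + n)
    rw [show k + 1 + n = k + n + 1 by ring, sub_sub_sub_cancel_right]
    exact h1

private theorem IsChain.re_nat {F : ℂ → V} {z : ℤ → ℂ} (h : IsChain M L F z) (n : ℕ) : (n : ℝ) ≤ (z n).re ∧ (z (-n)).re ≤ -n := by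
  induction n with
  | zero => simp [h.zero]
  | succ n ih =>
    obtain ⟨h1, h2⟩ := ih
    have h3 := h.re n
    have h4 := h.re (-((n + 1 : ℕ) : ℤ))
    have h5 : (-((n + 1 : ℕ) : ℤ) + 1) = -(n : ℤ) := by push_cast; ring
    rw [h5] at h4
    push_cast at h3 h4 ⊢
    constructor <;> linarith

theorem IsChain.le_norm {F : ℂ → V} {z : ℤ → ℂ} (h : IsChain M L F z) (k : ℤ) : |(k : ℝ)| ≤ ‖z k‖ := by
  refine le_trans ?_ (Complex.abs_re_le_norm (z k))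
  rcases le_total 0 k with hk | hk
  · obtain ⟨n, rfl⟩ := Int.eq_ofNat_of_zero_le hk
    have h1 := (h.re_nat n).1
    rw [Int.cast_natCast, abs_of_nonneg (Nat.cast_nonneg n)]
    exact h1.trans (le_abs_self _)
  · obtain ⟨n, hn⟩ : ∃ n : ℕ, k = -(n : ℤ) := ⟨(-k).toNat, by omega⟩
    have h1 := (h.re_nat n).2
    rw [hn, Int.cast_neg, Int.cast_natCast, abs_neg, abs_of_nonneg (Nat.cast_nonneg n)]
    have h2 := neg_abs_le (z (-n)).re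
    linarith

private theorem IsChain.norm_nat {F : ℂ → V} {z : ℤ → ℂ} (h : IsChain M L F z) (n : ℕ) : ‖z n‖ ≤ L * n ∧ ‖z (-n)‖ ≤ L * n := by
  induction n with
  | zero => simp [h.zero]
  | succ n ih =>
    obtain ⟨h1, h2⟩ := ih
    have h3 := h.norm n
    have h4 := h.norm (-((n + 1 : ℕ) : ℤ))
    have h5 : (-((n + 1 : ℕ) : ℤ) + 1) = -(n : ℤ) := by push_cast; ring
    rw [h5] at h4
    have h6 : ‖z ((n + 1 : ℕ) : ℤ)‖ ≤ ‖z n‖ + ‖z (n + 1) - z n‖ := by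
      have h7 : z ((n + 1 : ℕ) : ℤ) = z n + (z (n + 1) - z n) := by
        push_cast
        ring
      rw [h7]
      exact norm_add_le _ _
    have h8 : ‖z (-((n + 1 : ℕ) : ℤ))‖ ≤ ‖z (-(n : ℤ))‖ + ‖z (-(n : ℤ)) - z (-((n + 1 : ℕ) : ℤ))‖ := by
      have h9 : z (-((n + 1 : ℕ) : ℤ)) = z (-(n : ℤ)) - (z (-(n : ℤ)) - z (-((n + 1 : ℕ) : ℤ))) := by ring
      conv_lhs => rw [h9]
      exact norm_sub_le _ _
    have h10 : L * ((n + 1 : ℕ) : ℝ) = L * n + L := by push_cast; ring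
    rw [h10]
    constructor <;> linarith

theorem IsChain.norm_le {F : ℂ → V} {z : ℤ → ℂ} (h : IsChain M L F z) (k : ℤ) : ‖z k‖ ≤ L * |(k : ℝ)| := by
  rcases le_total 0 k with hk | hk
  · obtain ⟨n, rfl⟩ := Int.eq_ofNat_of_zero_le hk
    rw [Int.cast_natCast, abs_of_nonneg (Nat.cast_nonneg n)]
    exact (h.norm_nat n).1
  · obtain ⟨n, hn⟩ : ∃ n : ℕ, k = -(n : ℤ) := ⟨(-k).toNat, by omega⟩
    rw [hn, Int.cast_neg, Int.cast_natCast, abs_neg, abs_of_nonneg (Nat.cast_nonneg n)]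
    exact (h.norm_nat n).2

/-- the growth of another member of the family along the chain -/
theorem chain_grow (h : Sys KK M γ) (L r B : ℝ) :
    ∃ A : ℝ, 0 ≤ A ∧ ∀ F ∈ KK, ∀ H ∈ KK, ∀ z, IsChain M L F z → ‖H 0‖ ≤ B → ∀ (k : ℤ) (w : ℂ), ‖w‖ ≤ r → ‖H (z k + w)‖ ≤ Real.exp (A * pw γ |(k : ℝ)|) := by
  obtain ⟨C₁, hC₁⟩ := h.thin M
  obtain ⟨C₂, hC₂⟩ := h.grow B
  obtain ⟨D, hD⟩ : ∃ D : ℝ, D = (1 + |L| + |r|) ^ γ := ⟨_, rfl⟩
  have hD0 : 0 ≤ D := by rw [hD]; positivity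
  refine ⟨|C₂| * (|C₁| * D + |r| + D), by positivity, fun F hF H hH z hz hH0 k w hw => ?_⟩
  refine (hC₂ H hH hH0 (z k + w)).trans (Real.exp_le_exp.2 ?_)
  have hk0 : (0 : ℝ) ≤ |(k : ℝ)| := abs_nonneg _
  have h1 : ‖z k‖ ≤ |L| * |(k : ℝ)| := (hz.norm_le k).trans (mul_le_mul_of_nonneg_right (le_abs_self L) hk0)
  have h2 : ∀ t : ℝ, 0 ≤ t → t ≤ |L| * |(k : ℝ)| + |r| → pw γ t ≤ D * pw γ |(k : ℝ)| := by
    intro t ht h3
    have h4 : pw γ t ≤ ((1 + |L| + |r|) * (2 + |(k : ℝ)|)) ^ γ := by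
      refine Real.rpow_le_rpow (by linarith) ?_ h.γ_pos.le
      have h5 : 0 ≤ |L| := abs_nonneg L
      have h6 : 0 ≤ |r| := abs_nonneg r
      nlinarith [mul_nonneg h6 hk0]
    rw [Real.mul_rpow (by positivity) (by positivity), ← hD] at h4
    exact h4
  have hF0 : ‖F 0‖ ≤ M := by
    have := hz.good 0
    rwa [hz.zero] at this
  have h3 : |(z k).im| ≤ |C₁| * (D * pw γ |(k : ℝ)|) := by
    refine (hC₁ F hF hF0 (z k) (hz.good k)).trans ?_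
    have h4 : 0 ≤ pw γ ‖z k‖ := by
      unfold pw
      positivity
    calc C₁ * pw γ ‖z k‖ ≤ |C₁| * pw γ ‖z k‖ := mul_le_mul_of_nonneg_right (le_abs_self C₁) h4
      _ ≤ |C₁| * (D * pw γ |(k : ℝ)|) := mul_le_mul_of_nonneg_left (h2 _ (norm_nonneg _) (by linarith [abs_nonneg r])) (abs_nonneg _)
  have hwr : ‖w‖ ≤ |r| := hw.trans (le_abs_self r)
  have h5 : |(z k + w).im| ≤ |C₁| * (D * pw γ |(k : ℝ)|) + |r| * pw γ |(k : ℝ)| := by
    rw [Complex.add_im]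
    refine (abs_add_le _ _).trans (add_le_add h3 ?_)
    have h6 : |w.im| ≤ |r| := (Complex.abs_im_le_norm w).trans hwr
    have h7 := one_le_pw h.γ_pos hk0
    nlinarith [abs_nonneg r]
  have h8 : pw γ ‖z k + w‖ ≤ D * pw γ |(k : ℝ)| := h2 _ (norm_nonneg _) ((norm_add_le _ _).trans (add_le_add h1 hwr))
  have h9 : 0 ≤ |(z k + w).im| + pw γ ‖z k + w‖ := by
    have : 0 ≤ pw γ ‖z k + w‖ := by
      unfold pw
      positivity
    positivity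
  calc C₂ * (|(z k + w).im| + pw γ ‖z k + w‖) ≤ |C₂| * (|(z k + w).im| + pw γ ‖z k + w‖) := mul_le_mul_of_nonneg_right (le_abs_self C₂) h9
    _ ≤ |C₂| * ((|C₁| * (D * pw γ |(k : ℝ)|) + |r| * pw γ |(k : ℝ)|) + D * pw γ |(k : ℝ)|) :=
        mul_le_mul_of_nonneg_left (add_le_add h5 h8) (abs_nonneg _)
    _ = |C₂| * (|C₁| * D + |r| + D) * pw γ |(k : ℝ)| := by ring

end Pool.Agent.SR2.G
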