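import Pool.Agent.SR2.G.DQ
import Pool.Agent.SR2.G.Chain

/-!
# SR2 G Ret: two close translates of one curve
-/

set_option autoImplicit false
set_option linter.unusedSectionVars false

open Topology Filter Metric

noncomputable section

namespace Pool.Agent.SR2.G


variable {V : Type} [NormedAddCommGroup V] [NormedSpace ℂ V] [CompleteSpace V] {KK : Set (ℂ → V)} {M γ L r b₀ c₁ C₂ ε₀ : ℝ}

theorem chain_re {F : ℂ → V} {z : ℤ → ℂ} (h : IsChain M L F z) (k : ℤ) (n : ℕ) : (n : ℝ) ≤ (z (k + n)).re - (z k).re := by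
  induction n with
  | zero => simp
  | succ n ih =>
    have h1 := h.re (k + n)
    have h2 : k + (n : ℤ) + 1 = k + ((n + 1 : ℕ) : ℤ) := by push_cast; ring
    rw [h2] at h1
    push_cast at h1 ⊢
    linarith

/-- two close translates of one curve, at points which are far apart -/
theorem exists_return (h : Sys KK M γ) (hc : Cst KK M L r b₀ c₁ C₂) {δ : ℝ} (hδ : 0 < δ) :
    ∃ (F : ℂ → V) (z : ℤ → ℂ) (ζ : ℂ), F ∈ KK ∧ IsChain M L F z ∧ 1 ≤ ζ.re ∧ ‖F ζ‖ ≤ M ∧ dQ r F (sh ζ F) ≤ δ := by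
  have hr : 0 ≤ r := by linarith [hc.L1, hc.rL]
  obtain ⟨F₁, hF₁, h0⟩ := h.nonempty
  obtain ⟨z, hz⟩ := hc.chain F₁ hF₁ h0
  set G : ℕ → ℂ → V := fun k => sh (z k) F₁ with hG
  have hGm : ∀ k, G k ∈ KK := fun k => h.shift F₁ hF₁ _
  have hG0 : ∀ k, ‖G k 0‖ ≤ M := fun k => by
    show ‖F₁ (0 + z k)‖ ≤ M
    rw [zero_add]
    exact hz.good k
  obtain ⟨H, hH, hlim⟩ := h.cpt (hyperfilter ℕ) Nat.hyperfilter_le_atTop M G hGm hG0
  have hGc : ∀ k, Continuous (G k) := fun k => (h.diff _ (hGm k)).continuous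
  have hHc : Continuous H := (h.diff _ hH).continuous
  have h1 : Tendsto (fun k => dQ r (G k) H) (hyperfilter ℕ) (𝓝 (dQ r H H)) :=
    tendsto_dQ hr hGc (fun _ => hHc) hHc hHc hlim fun u hu x _ => ⟨Set.univ, univ_mem, Eventually.of_forall fun _ _ _ => refl_mem_uniformity hu⟩
  have h2 : dQ r H H = 0 := le_antisymm (dQ_le hr fun w _ => by simp) (dQ_nonneg _ _)
  rw [h2] at h1
  have h3 : ∀ᶠ k in (hyperfilter ℕ : Filter ℕ), dQ r (G k) H < δ / 2 := h1.eventually (gt_mem_nhds (by linarith))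
  have h4 : ∃ᶠ k in (atTop : Filter ℕ), dQ r (G k) H < δ / 2 := h3.frequently.filter_mono Nat.hyperfilter_le_atTop
  obtain ⟨k, -, hk⟩ := frequently_atTop.1 h4 0
  obtain ⟨k', hkk, hk'⟩ := frequently_atTop.1 h4 (k + 1)
  refine ⟨G k, fun j => z (j + k) - z k, z k' - z k, hGm k, ?_, ?_, ?_, ?_⟩
  · exact hz.shift k
  · have h6 := chain_re hz k (k' - k)
    have h7 : (k : ℤ) + ((k' - k : ℕ) : ℤ) = k' := by omega
    rw [h7] at h6
    rw [Complex.sub_re]
    have h8 : (1 : ℝ) ≤ ((k' - k : ℕ) : ℝ) := by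
      have : 1 ≤ k' - k := by omega
      exact_mod_cast this
    linarith
  · show ‖F₁ (z k' - z k + z k)‖ ≤ M
    rw [sub_add_cancel]
    exact hz.good k'
  · have h6 : sh (z k' - z k) (G k) = G k' := by
      funext w
      show F₁ (w + (z k' - z k) + z k) = F₁ (w + z k')
      congr 1
      ring
    rw [h6]
    have h7 := dQ_tri (r := r) hr (hGc k) hHc (hGc k')
    rw [dQ_comm H (G k')] at h7
    linarith

end Pool.Agent.SR2.G
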