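import Pool.Agent.SR2.G.ODefs

/-!
# SR2 G FitU: the direction and the rates are the same at all good points
-/

set_option autoImplicit false

open Topology Filter Metric

noncomputable section

namespace Pool.Agent.SR2.G

open Pool.Agent.H36.BP (EN)
open Pool.Agent.SR2 (Geo)
open Pool.Agent.SR2.Geo (Gd)

variable {N : ℕ} {G : Geo N} {T : Set (EN N)} {rho : EN N → ℝ} {δ γ A' B : ℝ} {β β' : G.ι → ℝ} {q : G.J → ℂ} {F : ℂ → EN N}

/-- `(2 + r) ^ γ` is small compared with `r` -/
private theorem fu_small {γ η : ℝ} (hγ : γ < 1) (hη : 0 < η) : ∀ᶠ s : ℝ in atTop, s ^ γ ≤ η * s := by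
  have h1 : Tendsto (fun s : ℝ => s ^ (-(1 - γ))) atTop (𝓝 0) := tendsto_rpow_neg_atTop (by linarith)
  filter_upwards [h1.eventually (gt_mem_nhds hη), eventually_gt_atTop 0] with s hs hs0
  have h2 : s ^ γ = s ^ (-(1 - γ)) * s := by
    conv_rhs => rw [← Real.rpow_one s, ← Real.rpow_mul hs0.le, one_mul, ← Real.rpow_add hs0]
    congr 1
    ring
  rw [h2]
  exact mul_le_mul_of_nonneg_right hs.le hs0.le

private theorem fu_zero {γ B D K c : ℝ} (hγ : γ < 1) (hB : 0 < B) (h : ∀ t : ℝ, 0 ≤ t → t * |D| ≤ K + 2 * B * Pool.Agent.SR2.pw γ (t + c)) :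
    D = 0 := by
  by_contra hD
  have hD0 : 0 < |D| := abs_pos.2 hD
  have h1 := fu_small hγ (η := |D| / (8 * B)) (by positivity)
  have h2 : Tendsto (fun t : ℝ => 2 + (t + c)) atTop atTop :=
    tendsto_atTop_add_const_left _ _ (tendsto_atTop_add_const_right _ _ tendsto_id)
  have h3 := (h2.eventually h1).and ((eventually_ge_atTop (0 : ℝ)).and (eventually_gt_atTop ((K + |D| * (2 + c) / 4) * 4 / (3 * |D|))))
  obtain ⟨t, ht1, ht0, ht2⟩ := h3.exists
  have h4 := h t ht0
  unfold Pool.Agent.SR2.pw at h4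
  have h5 : 2 * B * (2 + (t + c)) ^ γ ≤ |D| / 4 * (2 + (t + c)) := by
    have h6 : 2 * B * (2 + (t + c)) ^ γ ≤ 2 * B * (|D| / (8 * B) * (2 + (t + c))) := mul_le_mul_of_nonneg_left ht1 (by positivity)
    refine h6.trans (le_of_eq ?_)
    field_simp
    ring
  rw [div_lt_iff₀ (by positivity)] at ht2
  nlinarith

private theorem fu_max (x y : ℝ) : |max (x + y) 0 - max x 0| ≤ |y| := by
  have h := abs_max_sub_max_le_abs (x + y) x 0
  rwa [add_sub_cancel_left] at h

/-- the comparison of the two asymptotics in the direction `v` -/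
private theorem fu_dir {a₀ a u : ℂ} {b b' : G.ι → ℝ} (hγ : γ < 1) (hγ0 : 0 < γ) (hB : 0 < B)
    (h₀ : G.Fits F a₀ Complex.I β β' (fun z => B * Pool.Agent.SR2.pw γ ‖z - a₀‖) Set.univ)
    (h : G.Fits F a u b b' (fun z => B * Pool.Agent.SR2.pw γ ‖z - a‖) Set.univ) {v : ℂ} (hv : ‖v‖ = 1) (i : G.ι) :
    b i * max (star u * v).re 0 + b' i * max (-(star u * v).re) 0 = β i * max v.im 0 + β' i * max (-v.im) 0 := by
  obtain ⟨-, hβ, hf₀⟩ := h₀
  obtain ⟨-, hb, hf⟩ := h
  rw [← sub_eq_zero]
  refine fu_zero (K := (β i + β' i) * |(a - a₀).im|) (c := ‖a - a₀‖) hγ hB fun t ht => ?_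
  have h1 := hf₀ (a + t * v) (Set.mem_univ _) i
  have h2 := hf (a + t * v) (Set.mem_univ _) i
  have e1 : Pool.Agent.SR2.yy u a (a + t * v) = t * (star u * v).re := by
    unfold Pool.Agent.SR2.yy
    rw [add_sub_cancel_left]
    have : star u * ((t : ℂ) * v) = (t : ℂ) * (star u * v) := by ring
    rw [this, Complex.re_ofReal_mul]
  have e2 : Pool.Agent.SR2.yy Complex.I a₀ (a + t * v) = t * v.im + (a - a₀).im := by
    unfold Pool.Agent.SR2.yy
    have : star Complex.I = -Complex.I := Complex.conj_I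
    rw [this]
    simp
    ring
  have e3 : Pool.Agent.SR2.lin u a (b i) (b' i) (a + t * v) = t * (b i * max (star u * v).re 0 + b' i * max (-(star u * v).re) 0) := by
    unfold Pool.Agent.SR2.lin
    rw [e1, mul_add]
    have h3 : max (t * (star u * v).re) 0 = t * max (star u * v).re 0 := by
      rw [mul_max_of_nonneg _ _ ht, mul_zero]
    have h4 : max (-(t * (star u * v).re)) 0 = t * max (-(star u * v).re) 0 := by
      rw [mul_max_of_nonneg _ _ ht, mul_zero, mul_neg]
    rw [h3, h4]
    ring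
  have e4 : |Pool.Agent.SR2.lin Complex.I a₀ (β i) (β' i) (a + t * v) - t * (β i * max v.im 0 + β' i * max (-v.im) 0)| ≤
      (β i + β' i) * |(a - a₀).im| := by
    unfold Pool.Agent.SR2.lin
    rw [e2]
    have h3 : t * (β i * max v.im 0 + β' i * max (-v.im) 0) = β i * max (t * v.im) 0 + β' i * max (-(t * v.im)) 0 := by
      have h4 : max (t * v.im) 0 = t * max v.im 0 := by rw [mul_max_of_nonneg _ _ ht, mul_zero]
      have h5 : max (-(t * v.im)) 0 = t * max (-v.im) 0 := by rw [mul_max_of_nonneg _ _ ht, mul_zero, mul_neg]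
      rw [h4, h5]
      ring
    rw [h3]
    have h6 := fu_max (t * v.im) (a - a₀).im
    have h7 := fu_max (-(t * v.im)) (-(a - a₀).im)
    rw [abs_neg] at h7
    have h8 : -(t * v.im) + -(a - a₀).im = -(t * v.im + (a - a₀).im) := by ring
    rw [h8] at h7
    have h9 : β i * max (t * v.im + (a - a₀).im) 0 + β' i * max (-(t * v.im + (a - a₀).im)) 0 - (β i * max (t * v.im) 0 + β' i * max (-(t * v.im)) 0) =
      β i * (max (t * v.im + (a - a₀).im) 0 - max (t * v.im) 0) + β' i * (max (-(t * v.im + (a - a₀).im)) 0 - max (-(t * v.im)) 0) := by ring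
    rw [h9]
    refine (abs_add_le _ _).trans ?_
    rw [abs_mul, abs_mul, abs_of_nonneg (hβ i).1, abs_of_nonneg (hβ i).2, add_mul]
    exact add_le_add (mul_le_mul_of_nonneg_left h6 (hβ i).1) (mul_le_mul_of_nonneg_left h7 (hβ i).2)
  have e5 : Pool.Agent.SR2.pw γ ‖a + t * v - a‖ ≤ Pool.Agent.SR2.pw γ (t + ‖a - a₀‖) := by
    unfold Pool.Agent.SR2.pw
    refine Real.rpow_le_rpow (by positivity) ?_ hγ0.le
    rw [add_sub_cancel_left, norm_mul, hv, mul_one, Complex.norm_real, Real.norm_of_nonneg ht]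
    linarith [norm_nonneg (a - a₀)]
  have e6 : Pool.Agent.SR2.pw γ ‖a + t * v - a₀‖ ≤ Pool.Agent.SR2.pw γ (t + ‖a - a₀‖) := by
    unfold Pool.Agent.SR2.pw
    refine Real.rpow_le_rpow (by positivity) ?_ hγ0.le
    have h3 : a + t * v - a₀ = t * v + (a - a₀) := by ring
    have h4 : ‖(t : ℂ) * v‖ = t := by rw [norm_mul, hv, mul_one, Complex.norm_real, Real.norm_of_nonneg ht]
    rw [h3]
    have h5 := norm_add_le ((t : ℂ) * v) (a - a₀)
    rw [h4] at h5
    linarith
  have h3 : t * |b i * max (star u * v).re 0 + b' i * max (-(star u * v).re) 0 - (β i * max v.im 0 + β' i * max (-v.im) 0)| =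
      |t * (b i * max (star u * v).re 0 + b' i * max (-(star u * v).re) 0) - t * (β i * max v.im 0 + β' i * max (-v.im) 0)| := by
    rw [← mul_sub, abs_mul, abs_of_nonneg ht]
  rw [h3, ← e3]
  have h4 : Pool.Agent.SR2.lin u a (b i) (b' i) (a + t * v) - t * (β i * max v.im 0 + β' i * max (-v.im) 0) =
      -(G.lam i (F (a + t * v)) - Pool.Agent.SR2.lin u a (b i) (b' i) (a + t * v)) +
      ((G.lam i (F (a + t * v)) - Pool.Agent.SR2.lin Complex.I a₀ (β i) (β' i) (a + t * v)) +
      (Pool.Agent.SR2.lin Complex.I a₀ (β i) (β' i) (a + t * v) - t * (β i * max v.im 0 + β' i * max (-v.im) 0))) := by ring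
  rw [h4]
  refine (abs_add_le _ _).trans ?_
  rw [abs_neg]
  have h5 := abs_add_le (G.lam i (F (a + t * v)) - Pool.Agent.SR2.lin Complex.I a₀ (β i) (β' i) (a + t * v))
    (Pool.Agent.SR2.lin Complex.I a₀ (β i) (β' i) (a + t * v) - t * (β i * max v.im 0 + β' i * max (-v.im) 0))
  have h6 : B * Pool.Agent.SR2.pw γ ‖a + t * v - a‖ ≤ B * Pool.Agent.SR2.pw γ (t + ‖a - a₀‖) := mul_le_mul_of_nonneg_left e5 hB.le
  have h7 : B * Pool.Agent.SR2.pw γ ‖a + t * v - a₀‖ ≤ B * Pool.Agent.SR2.pw γ (t + ‖a - a₀‖) := mul_le_mul_of_nonneg_left e6 hB.le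
  have h8 : |G.lam i (F (a + t * v)) - Pool.Agent.SR2.lin u a (b i) (b' i) (a + t * v)| ≤ B * Pool.Agent.SR2.pw γ ‖a + t * v - a‖ := h2
  have h9 : |G.lam i (F (a + t * v)) - Pool.Agent.SR2.lin Complex.I a₀ (β i) (β' i) (a + t * v)| ≤ B * Pool.Agent.SR2.pw γ ‖a + t * v - a₀‖ := h1
  linarith

/-- The direction and the rates are the same at all good points: compare the two asymptotics at `a + t v`, `t → ∞`, `v = ± 1`, `v = ± I`. -/
theorem fits_all (hs : Str G T rho δ γ A' B) (hm : Mem G T rho δ γ A' B β β' q F) {a : ℂ} (ha : a ∈ Gd rho δ F) :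
    G.Fits F a Complex.I β β' (fun z => B * Pool.Agent.SR2.pw γ ‖z - a‖) Set.univ := by
  obtain ⟨a₀, -, h₀⟩ := hm.fits
  obtain ⟨u, b, b', h, hA, hA'⟩ := hs.fits q F hm.cl a ha
  have key := fun {v : ℂ} (hv : ‖v‖ = 1) (i : G.ι) => fu_dir hs.γ_lt hs.γ_pos hs.B_pos h₀ h hv i
  have hu : ‖u‖ = 1 := h.1
  -- the direction is horizontal
  have h1 : ∀ i, b i * max (star u).re 0 + b' i * max (-(star u).re) 0 = 0 := by
    intro i
    have := key (v := 1) norm_one i
    simpa using this
  have hre : u.re = 0 := by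
    have h2 : (∑ i, b i) * max (star u).re 0 + (∑ i, b' i) * max (-(star u).re) 0 = 0 := by
      rw [Finset.sum_mul, Finset.sum_mul, ← Finset.sum_add_distrib]
      exact Finset.sum_eq_zero fun i _ => h1 i
    have h3 : (star u).re = u.re := Complex.conj_re u
    rw [h3] at h2
    have hp := hs.A'_pos
    have h4 : 0 ≤ (∑ i, b i) * max u.re 0 := mul_nonneg (by linarith) (le_max_right _ _)
    have h5 : 0 ≤ (∑ i, b' i) * max (-u.re) 0 := mul_nonneg (by linarith) (le_max_right _ _)
    have h6 : (∑ i, b i) * max u.re 0 = 0 := by linarith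
    have h7 : (∑ i, b' i) * max (-u.re) 0 = 0 := by linarith
    have h8 : max u.re 0 = 0 := by
      rcases mul_eq_zero.1 h6 with h | h
      · linarith
      · exact h
    have h9 : max (-u.re) 0 = 0 := by
      rcases mul_eq_zero.1 h7 with h | h
      · linarith
      · exact h
    have h10 := le_max_left u.re 0
    have h11 := le_max_left (-u.re) 0
    linarith
  have hu2 : u.im = 1 ∨ u.im = -1 := by
    have h2 : ‖u‖ ^ 2 = 1 := by rw [hu]; norm_num
    rw [← Complex.normSq_eq_norm_sq, Complex.normSq_apply, hre] at h2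
    have h3 : (u.im - 1) * (u.im + 1) = 0 := by linarith
    rcases mul_eq_zero.1 h3 with h | h
    · exact Or.inl (by linarith)
    · exact Or.inr (by linarith)
  have hI : ∀ i, b i * max (star u * Complex.I).re 0 + b' i * max (-(star u * Complex.I).re) 0 = β i := by
    intro i
    have := key (v := Complex.I) Complex.norm_I i
    simpa using this
  have hI' : ∀ i, b i * max (star u * -Complex.I).re 0 + b' i * max (-(star u * -Complex.I).re) 0 = β' i := by
    intro i
    have := key (v := -Complex.I) (by rw [norm_neg, Complex.norm_I]) i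
    simpa using this
  have e1 : (star u * Complex.I).re = u.im := by
    have : star u = ⟨u.re, -u.im⟩ := rfl
    rw [this]
    simp
  have e2 : (star u * -Complex.I).re = -u.im := by
    rw [mul_neg, Complex.neg_re, e1]
  rcases hu2 with h2 | h2
  · have hbb : b = β := by
      funext i
      have := hI i
      rw [e1, h2] at this
      norm_num at this
      exact this
    have hbb' : b' = β' := by
      funext i
      have := hI' i
      rw [e2, h2] at this
      norm_num at this
      exact this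
    have huI : u = Complex.I := Complex.ext (by simp [hre]) (by simp [h2])
    rw [← hbb, ← hbb', ← huI]
    exact h
  · have hbb : b' = β := by
      funext i
      have := hI i
      rw [e1, h2] at this
      norm_num at this
      exact this
    have hbb' : b = β' := by
      funext i
      have := hI' i
      rw [e2, h2] at this
      norm_num at this
      exact this
    have huI : u = -Complex.I := Complex.ext (by simp [hre]) (by simp [h2])
    obtain ⟨-, h3, h4⟩ := h
    refine ⟨Complex.norm_I, fun i => ?_, fun z hz i => ?_⟩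
    · rw [← hbb, ← hbb']
      exact ⟨(h3 i).2, (h3 i).1⟩
    · have h5 := h4 z hz i
      have h6 : Pool.Agent.SR2.lin u a (b i) (b' i) z = Pool.Agent.SR2.lin Complex.I a (β i) (β' i) z := by
        have h7 : Pool.Agent.SR2.yy u a z = -Pool.Agent.SR2.yy Complex.I a z := by
          unfold Pool.Agent.SR2.yy
          rw [huI, star_neg, neg_mul, Complex.neg_re]
        unfold Pool.Agent.SR2.lin
        rw [h7, hbb, hbb', neg_neg]
        ring
      rw [h6] at h5
      exact h5

end Pool.Agent.SR2.G
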