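import Pool.Agent.SR2.G.ODefs
import Pool.Agent.SR2.G.Chain
import Pool.Agent.SR2.G.FitU

/-!
# SR2 G TubC: a neighbourhood of the good set is in the tube around a chain
-/

set_option autoImplicit false

open Topology Filter Metric

noncomputable section

namespace Pool.Agent.SR2.G

open Pool.Agent.H36.BP (EN)
open Pool.Agent.SR2 (Geo)
open Pool.Agent.SR2.Geo (Gd)

variable {N : ℕ} {G : Geo N} {T : Set (EN N)} {rho : EN N → ℝ} {δ γ A' B : ℝ} {β β' : G.ι → ℝ} {q : G.J → ℂ} {F : ℂ → EN N}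

private theorem pwS_mono (hγ : 0 < γ) {t t' : ℝ} (ht : 0 ≤ t) (h : t ≤ t') : Pool.Agent.SR2.pw γ t ≤ Pool.Agent.SR2.pw γ t' :=
  Real.rpow_le_rpow (by linarith) (by linarith) hγ.le

/-- `t ≤ a + C (2 + t) ^ γ` bounds `t` -/
private theorem exists_T' (hγ1 : γ < 1) (a C : ℝ) : ∃ T : ℝ, 1 ≤ T ∧ ∀ t : ℝ, 0 ≤ t → t ≤ a + C * Pool.Agent.SR2.pw γ t → t ≤ T := by
  have h1 : Tendsto (fun s : ℝ => C * s ^ (-(1 - γ))) atTop (𝓝 (C * 0)) := (tendsto_rpow_neg_atTop (by linarith : 0 < 1 - γ)).const_mul C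
  rw [mul_zero] at h1
  obtain ⟨S, hS⟩ := (eventually_atTop.1 (h1.eventually_lt_const (by norm_num : (0 : ℝ) < 1 / 4)))
  refine ⟨max 1 (max S (2 * a + 2)), le_max_left _ _, fun t ht h2 => ?_⟩
  by_contra hc
  push Not at hc
  have h3 : 1 < t := lt_of_le_of_lt (le_max_left _ _) hc
  have h4 : S < t := lt_of_le_of_lt ((le_max_left _ _).trans (le_max_right _ _)) hc
  have h5 : 2 * a + 2 < t := lt_of_le_of_lt ((le_max_right _ _).trans (le_max_right _ _)) hc
  have h6 := hS (2 + t) (by linarith)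
  have h7 : C * Pool.Agent.SR2.pw γ t = C * (2 + t) ^ (-(1 - γ)) * (2 + t) := by
    rw [Pool.Agent.SR2.pw, mul_assoc, ← Real.rpow_add_one (by linarith)]
    congr 2
    ring
  have h8 : C * (2 + t) ^ (-(1 - γ)) * (2 + t) ≤ 1 / 4 * (2 + t) := mul_le_mul_of_nonneg_right h6.le (by linarith)
  rw [h7] at h2
  linarith

private theorem re_step {M L : ℝ} {F : ℂ → EN N} {z : ℤ → ℂ} (h : IsChain M L F z) (k : ℤ) (n : ℕ) : (n : ℝ) ≤ (z (k + n)).re - (z k).re := by
  induction n with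
  | zero => simp
  | succ n ih =>
    have h1 := h.re (k + n)
    push_cast
    rw [← add_assoc]
    linarith

/-- a point of the chain near a vertical line -/
private theorem exists_re {M L : ℝ} {F : ℂ → EN N} {z : ℤ → ℂ} (h : IsChain M L F z) (x : ℝ) : ∃ k : ℤ, |(z k).re - x| ≤ L := by
  have hb : ∃ b : ℤ, ∀ k : ℤ, (z k).re ≤ x → k ≤ b := by
    obtain ⟨n, hn⟩ := exists_nat_gt x
    refine ⟨n, fun k hk => ?_⟩
    by_contra hc
    push Not at hc
    obtain ⟨m, hm⟩ := Int.eq_ofNat_of_zero_le (by omega : 0 ≤ k - n)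
    have h1 := re_step h 0 (n + m)
    rw [h.zero] at h1
    have h2 : (0 : ℤ) + ((n + m : ℕ) : ℤ) = k := by push_cast; omega
    rw [h2] at h1
    simp only [Complex.zero_re, sub_zero] at h1
    push_cast at h1
    have h3 : (0 : ℝ) ≤ m := Nat.cast_nonneg m
    linarith
  have hi : ∃ k : ℤ, (z k).re ≤ x := by
    obtain ⟨n, hn⟩ := exists_nat_gt (-x)
    refine ⟨-n, ?_⟩
    have h1 := re_step h (-n) n
    rw [neg_add_cancel, h.zero] at h1
    simp only [Complex.zero_re, zero_sub] at h1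
    linarith
  obtain ⟨k, hk, hk'⟩ := Int.exists_greatest_of_bdd hb hi
  refine ⟨k, ?_⟩
  have h1 : x < (z (k + 1)).re := by
    by_contra hc
    push Not at hc
    have := hk' _ hc
    omega
  have h2 := h.norm k
  have h3 := Complex.abs_re_le_norm (z (k + 1) - z k)
  rw [Complex.sub_re] at h3
  have h4 := le_abs_self ((z (k + 1)).re - (z k).re)
  rw [abs_le]
  constructor <;> linarith

private theorem yy_I (a z : ℂ) : yy Complex.I a z = (z - a).im := by
  rw [yy, Complex.star_def, Complex.conj_I]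
  simp

/-- the vertical distance of two good points is at most `C` if their horizontal distance is at most `D` -/
private theorem good_im (hs : Str G T rho δ γ A' B) (β β' : G.ι → ℝ) (D : ℝ) : ∃ C : ℝ, 0 ≤ C ∧
    ∀ (q : G.J → ℂ) (F : ℂ → EN N), Mem G T rho δ γ A' B β β' q F → ∀ a ∈ Gd rho δ F, ∀ a' ∈ Gd rho δ F, |(a' - a).re| ≤ D → ‖a' - a‖ ≤ C := by
  obtain ⟨n, hn⟩ : ∃ n : ℝ, n = Fintype.card G.ι := ⟨_, rfl⟩
  have hn0 : 0 ≤ n := by rw [hn]; exact Nat.cast_nonneg _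
  obtain ⟨T₀, hT1, hT⟩ := exists_T' hs.γ_lt (D + n * (B * Pool.Agent.SR2.pw γ 0) / A') (n * B / A')
  refine ⟨T₀, by linarith, fun q F hm a ha a' ha' hD => hT _ (norm_nonneg _) ?_⟩
  have h1 := (fits_all hs hm ha).2.2
  have h2 := (fits_all hs hm ha').2.2
  have h0 := (fits_all hs hm ha).2.1
  -- one component
  have h3 : ∀ i, lin Complex.I a (β i) (β' i) a' ≤ B * Pool.Agent.SR2.pw γ ‖a' - a‖ + B * Pool.Agent.SR2.pw γ 0 := fun i => by
    have h4 := abs_le.1 (h1 a' (Set.mem_univ _) i)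
    have h5 := abs_le.1 (h2 a' (Set.mem_univ _) i)
    have h6 : lin Complex.I a' (β i) (β' i) a' = 0 := by simp [lin, yy]
    simp only [sub_self, norm_zero] at h5
    rw [h6] at h5
    linarith [h4.1, h4.2, h5.1, h5.2]
  have h4 : ∑ i, lin Complex.I a (β i) (β' i) a' ≤ n * (B * Pool.Agent.SR2.pw γ ‖a' - a‖ + B * Pool.Agent.SR2.pw γ 0) := by
    refine (Finset.sum_le_sum fun i _ => h3 i).trans ?_
    rw [Finset.sum_const, Finset.card_univ, nsmul_eq_mul, hn]
  have h5 : A' * |(a' - a).im| ≤ ∑ i, lin Complex.I a (β i) (β' i) a' := by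
    have h6 : ∑ i, lin Complex.I a (β i) (β' i) a' = (∑ i, β i) * max (a' - a).im 0 + (∑ i, β' i) * max (-(a' - a).im) 0 := by
      simp only [lin, yy_I]
      rw [Finset.sum_add_distrib, Finset.sum_mul, Finset.sum_mul]
    rw [h6]
    have h7 : |(a' - a).im| = max (a' - a).im 0 + max (-(a' - a).im) 0 := by
      rcases le_total 0 (a' - a).im with h | h
      · rw [abs_of_nonneg h, max_eq_left h, max_eq_right (by linarith), add_zero]
      · rw [abs_of_nonpos h, max_eq_right h, max_eq_left (by linarith), zero_add]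
    rw [h7, mul_add]
    exact add_le_add (mul_le_mul_of_nonneg_right hm.sum (le_max_right _ _)) (mul_le_mul_of_nonneg_right hm.sum' (le_max_right _ _))
  have h6 : |(a' - a).im| ≤ n * (B * Pool.Agent.SR2.pw γ ‖a' - a‖ + B * Pool.Agent.SR2.pw γ 0) / A' := by
    rw [le_div_iff₀ hs.A'_pos]
    linarith
  have h7 := Complex.norm_le_abs_re_add_abs_im (a' - a)
  calc ‖a' - a‖ ≤ D + n * (B * Pool.Agent.SR2.pw γ ‖a' - a‖ + B * Pool.Agent.SR2.pw γ 0) / A' := by linarith
    _ = D + n * (B * Pool.Agent.SR2.pw γ 0) / A' + n * B / A' * Pool.Agent.SR2.pw γ ‖a' - a‖ := by ring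

/-- the neighbourhood of the good set is in the tube around a chain -/
theorem tube_cover (_hG : G.Ok) (hf : Facts G T rho δ γ A' B) (β β' : G.ι → ℝ) (M₀ L κ : ℝ) :
    ∃ r₀ C : ℝ, 0 ≤ C ∧ ∀ (q : G.J → ℂ) (F : ℂ → EN N) (z : ℤ → ℂ), Mem G T rho δ γ A' B β β' q F → IsChain M₀ L F z → ∀ y : ℂ,
      infDist y (Gd rho δ F) ≤ κ → ∃ (k : ℤ) (w : ℂ), ‖w‖ ≤ r₀ ∧ y = z k + w ∧ |(k : ℝ)| ≤ ‖y‖ + C ∧ ‖y‖ ≤ C * (1 + |(k : ℝ)|) := by
  obtain ⟨R, hR⟩ := hf.gapD (Real.log (max M₀ 1))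
  obtain ⟨C₁, hC₁, hC⟩ := good_im hf.str β β' (L + (R + 1))
  obtain ⟨r₀, hr₀⟩ : ∃ r₀ : ℝ, r₀ = (κ + 1) + (C₁ + (R + 1)) := ⟨_, rfl⟩
  refine ⟨r₀, |r₀| + |L|, by positivity, fun q F z hm hz y hy => ?_⟩
  have hne := hf.good q F hm.cl
  -- a good point near `y`
  obtain ⟨a, ha, hya⟩ := (infDist_lt_iff hne).1 (lt_of_le_of_lt hy (lt_add_one κ))
  -- a point of the chain with almost the same real part, and a good point near it
  obtain ⟨k, hk⟩ := exists_re hz a.re
  have h1 : Real.log ‖F (z k)‖ ≤ Real.log (max M₀ 1) := by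
    rcases (norm_nonneg (F (z k))).eq_or_lt with h | h
    · rw [← h, Real.log_zero]
      exact Real.log_nonneg (le_max_right _ _)
    · exact Real.log_le_log h ((hz.good k).trans (le_max_left _ _))
  obtain ⟨a', ha', hza⟩ := (infDist_lt_iff hne).1 (lt_of_le_of_lt (hR q F hm.cl (z k) h1) (lt_add_one R))
  rw [dist_eq_norm] at hya hza
  have h2 : ‖a' - a‖ ≤ C₁ := by
    refine hC q F hm a ha a' ha' ?_
    have h3 : (a' - a).re = -(z k - a').re + ((z k).re - a.re) := by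
      simp only [Complex.sub_re]
      ring
    rw [h3]
    refine (abs_add_le _ _).trans ?_
    rw [abs_neg]
    have h4 := Complex.abs_re_le_norm (z k - a')
    linarith
  have h3 : ‖y - z k‖ ≤ r₀ := by
    have h4 : y - z k = (y - a) + (-(a' - a) + -(z k - a')) := by ring
    rw [h4, hr₀]
    refine (norm_add_le _ _).trans (add_le_add hya.le ((norm_add_le _ _).trans ?_))
    rw [norm_neg, norm_neg]
    exact add_le_add h2 hza.le
  refine ⟨k, y - z k, h3, by ring, ?_, ?_⟩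
  · have h4 := hz.le_norm k
    have h5 : ‖z k‖ ≤ ‖y‖ + ‖y - z k‖ := by
      have h6 : z k = y - (y - z k) := by ring
      calc ‖z k‖ = ‖y - (y - z k)‖ := by rw [← h6]
        _ ≤ _ := norm_sub_le _ _
    have h6 := le_abs_self r₀
    have h7 := abs_nonneg L
    linarith
  · have h4 := hz.norm_le k
    have h5 : ‖y‖ ≤ ‖z k‖ + ‖y - z k‖ := by
      have h6 : y = z k + (y - z k) := by ring
      calc ‖y‖ = ‖z k + (y - z k)‖ := by rw [← h6]
        _ ≤ _ := norm_add_le _ _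
    have h6 := le_abs_self r₀
    have h7 : L * |(k : ℝ)| ≤ |L| * |(k : ℝ)| := mul_le_mul_of_nonneg_right (le_abs_self L) (abs_nonneg _)
    have h8 : 0 ≤ |r₀| * |(k : ℝ)| := by positivity
    have h9 := abs_nonneg L
    nlinarith

end Pool.Agent.SR2.G
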