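import Pool.Agent.SR2.G.MemC
import Pool.Agent.SR2.ABas

/-!
# SR2 G Cov: one form for the whole class, by compactness
-/

set_option autoImplicit false

open Topology Filter Metric

noncomputable section

namespace Pool.Agent.SR2.G

open Pool.Agent.H36.BP (EN)
open Pool.Agent.SR2 (Geo)
open Pool.Agent.SR2.Geo (Gd)

variable {N : ℕ} {G : Geo N} {T : Set (EN N)} {rho : EN N → ℝ} {δ γ A' B : ℝ} {𝒬 : Set (EN N → ℂ)}

theorem finite_cover (hG : G.Ok) (hf : Facts G T rho δ γ A' B) (hq : HFacts G T rho δ 𝒬) (hne : 𝒬.Nonempty)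
    (hmul : ∀ Q ∈ 𝒬, ∀ Q' ∈ 𝒬, (fun x => Q x * Q' x) ∈ 𝒬)
    (hcov : ∀ (q : G.J → ℂ) (F : ℂ → EN N), G.Cl T q F → ∃ Q ∈ 𝒬, ∀ z, Q (F z) = 0) :
    ∃ Q ∈ 𝒬, ∀ (q : G.J → ℂ) (F : ℂ → EN N), G.Cl T q F → ∀ z, Q (F z) = 0 := by
  set K : Set C(ℂ, EN N) := {f | ∃ q, G.Cl T q f ∧ δ ≤ rho (f 0)} with hK
  have h𝒰 : ((hyperfilter ℕ : Ultrafilter ℕ) : Filter ℕ) ≤ atTop := Nat.hyperfilter_le_atTop
  -- compactness
  have hseq : IsSeqCompact K := by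
    intro f hfK
    choose q hq1 hq2 using hfK
    obtain ⟨q', H, h1, -, h3, h4⟩ := hf.cpt (hyperfilter ℕ) h𝒰 q (fun n => f n) hq1 hq2
    set H' : C(ℂ, EN N) := ⟨H, h1.ent.diff.continuous⟩ with hH'
    have h5 : Tendsto f (hyperfilter ℕ : Filter ℕ) (𝓝 H') :=
      ContinuousMap.tendsto_iff_tendstoLocallyUniformly.2 (tendstoLocallyUniformlyOn_univ.1 h4)
    have h6 : MapClusterPt H' atTop f := h5.mapClusterPt.mono h𝒰
    obtain ⟨ψ, hψ, h7⟩ := h6.tendsto_subseq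
    exact ⟨H', ⟨q', h1, h3⟩, ψ, hψ, h7⟩
  have hcpt : IsCompact K := hseq.isCompact
  have hp : ∃ Q ∈ 𝒬, ∀ f ∈ K, ∀ z, Q (f z) = 0 := by
    refine hcpt.induction_on (p := fun s => ∃ Q ∈ 𝒬, ∀ f ∈ s, ∀ z, Q (f z) = 0) ?_ ?_ ?_ ?_
    · obtain ⟨Q, hQ⟩ := hne
      exact ⟨Q, hQ, fun f hf => absurd hf (Set.notMem_empty f)⟩
    · rintro s t hst ⟨Q, hQ, h⟩
      exact ⟨Q, hQ, fun f hf => h f (hst hf)⟩
    · rintro s t ⟨Q, hQ, h⟩ ⟨Q', hQ', h'⟩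
      refine ⟨fun x => Q x * Q' x, hmul Q hQ Q' hQ', fun f hf z => ?_⟩
      rcases hf with hf | hf
      · simp only [h f hf z, zero_mul]
      · simp only [h' f hf z, mul_zero]
    · rintro H ⟨q₀, hH, -⟩
      obtain ⟨R, hR, hRH⟩ := hcov q₀ H hH
      obtain ⟨Q, hQ, hRQ, -, rho', δ', h'⟩ := hq R hR
      refine ⟨{f | f ∈ K ∧ ∀ z, Q (f z) = 0}, ?_, Q, hQ, fun f hf => hf.2⟩
      by_contra hcon
      have h1 : ∃ᶠ f in 𝓝[K] H, f ∉ {f : C(ℂ, EN N) | f ∈ K ∧ ∀ z, Q (f z) = 0} := fun h => hcon (h.mono fun f hf => not_not.1 hf)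
      have h2 : ∃ᶠ f in 𝓝[K] H, f ∈ K ∧ ∃ z, Q (f z) ≠ 0 := by
        refine (h1.and_eventually self_mem_nhdsWithin).mono fun f hf => ⟨hf.2, ?_⟩
        by_contra h3
        push Not at h3
        exact hf.1 ⟨hf.2, h3⟩
      obtain ⟨f, hf1, hf2⟩ := exists_seq_forall_of_frequently h2
      have hf3 : Tendsto f atTop (𝓝 H) := hf1.mono_right nhdsWithin_le_nhds
      choose hfK hfz using hf2
      choose q hq1 hq2 using hfK
      have h4 : TendstoLocallyUniformly (fun n => (f n : ℂ → EN N)) H atTop := ContinuousMap.tendsto_iff_tendstoLocallyUniformly.1 hf3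
      have h5 : TendstoLocallyUniformlyOn (fun n => (f n : ℂ → EN N)) H (hyperfilter ℕ : Filter ℕ) Set.univ := by
        have h6 : TendstoLocallyUniformlyOn (fun n => (f n : ℂ → EN N)) H atTop Set.univ := tendstoLocallyUniformlyOn_univ.2 h4
        intro u hu x hx
        obtain ⟨t, ht, h7⟩ := h6 u hu x hx
        exact ⟨t, ht, h7.filter_mono h𝒰⟩
      have h6 : Tendsto (fun n => f n 0) atTop (𝓝 (H 0)) := ((continuous_eval_const (0 : ℂ)).tendsto H).comp hf3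
      obtain ⟨B₁, hB₁⟩ := (isBounded_range_of_tendsto _ h6).exists_norm_le
      have h7 := cl_out (𝒰 := hyperfilter ℕ) hf h' h𝒰 (B₁ := B₁) hq1 (fun k => by
        obtain ⟨z, hz⟩ := hfz k
        exact ⟨z, fun h8 => hz h8.2⟩) (fun k => hB₁ _ ⟨k, rfl⟩) h5
      obtain ⟨z, hz⟩ := h7
      exact hz ⟨KX hG (hH.ent.mem z), hRQ _ (hRH z)⟩
  obtain ⟨Q, hQ, hQK⟩ := hp
  refine ⟨Q, hQ, fun q F hF z => ?_⟩
  obtain ⟨a, ha⟩ := hf.good q F hF
  have h1 := cl_trans hG hF a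
  have h2 := hQK ⟨fun z => F (z + a), h1.ent.diff.continuous⟩ ⟨q, h1, by
    show δ ≤ rho (F (0 + a))
    rw [zero_add]
    exact ha⟩ (z - a)
  have h3 : Q (F (z - a + a)) = 0 := h2
  rwa [sub_add_cancel] at h3

end Pool.Agent.SR2.G
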