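import Pool.Agent.SR2.G.MemG
import Pool.Agent.SR2.G.HPU

/-!
# SR2 G LogF: the log integral for the members of the family
-/

set_option autoImplicit false
set_option linter.unusedSectionVars false

open Topology Filter Metric

noncomputable section

namespace Pool.Agent.SR2.G

open Pool.Agent.H36.BP (EN)
open Pool.Agent.SR2 (Geo)
open Pool.Agent.SR2.Geo (Gd)

variable {N : ℕ} {G : Geo N} {T : Set (EN N)} {rho : EN N → ℝ} {δ γ A' B : ℝ} {β β' : G.ι → ℝ} {q : G.J → ℂ} {F : ℂ → EN N} {𝒬 : Set (EN N → ℂ)}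

theorem KF_logI (hG : G.Ok) (hf : Facts G T rho δ γ A' B) (hp : FirstP G T rho δ γ A' B) (M₀ L : ℝ) :
    ∃ r₀ : ℝ, ∀ r ≥ r₀, LogI (KF G T rho δ γ A' B β β' q 𝒬) M₀ L r := by
  obtain ⟨r₀, h0⟩ := hp q β β' M₀ L
  refine ⟨r₀, fun r hr F hF H hH z hz c C hc hb => ?_⟩
  obtain ⟨c', C', hc', hx⟩ := h0 r hr F H z c C hF.1 hH.1 hz hc hb
  obtain ⟨c₂, C₂, -, hC₂, hlog⟩ := mem_log hG hf β β' (max ‖F 0‖ ‖H 0‖)
  have hF1 := hlog q F hF.1 (le_max_left _ _)
  have hH1 := hlog q H hH.1 (le_max_right _ _)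
  have hFd : Differentiable ℂ F := hF.1.cl.ent.diff
  have hHd : Differentiable ℂ H := hH.1.cl.ent.diff
  have hγ := hf.str.γ_pos
  have hγ1 := hf.str.γ_lt
  have hle : ∀ x : ℝ, x ≤ Real.exp (Real.log x) := Real.le_exp_log
  have hi : ∀ i, (fun w => (H w - F w) i) = 0 := by
    intro i
    have hD : Differentiable ℂ (fun w => (H w - F w) i) :=
      (EuclideanSpace.proj (𝕜 := ℂ) i : EN N →L[ℂ] ℂ).differentiable.comp (hHd.sub hFd)
    have hn : ∀ w, ‖(H w - F w) i‖ ≤ ‖H w - F w‖ := fun w => PiLp.norm_apply_le _ _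
    refine eq_zero_of_halfplane (D := fun w => (H w - F w) i) hD (b := C₂) (c := c') (C := max C' (C₂ + 1)) (ga := γ) hc' hγ hγ1
      (fun x hx0 => ?_) fun w hw => ?_
    · refine (hn _).trans ((hx x hx0).trans (Real.exp_le_exp.2 ?_))
      linarith [le_max_left C' (C₂ + 1)]
    · have hp1 : (1 : ℝ) ≤ (2 + ‖w‖) ^ γ := Real.one_le_rpow (by linarith [norm_nonneg w]) hγ.le
      have h1 : ‖H w‖ ≤ Real.exp (C₂ * (|w.im| + pw γ ‖w‖)) := (hle _).trans (Real.exp_le_exp.2 (hH1 w).2)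
      have h2 : ‖F w‖ ≤ Real.exp (C₂ * (|w.im| + pw γ ‖w‖)) := (hle _).trans (Real.exp_le_exp.2 (hF1 w).2)
      have h3 : (2 : ℝ) ≤ Real.exp 1 := by
        have := Real.add_one_le_exp (1 : ℝ)
        linarith
      calc ‖(H w - F w) i‖ ≤ ‖H w - F w‖ := hn w
        _ ≤ ‖H w‖ + ‖F w‖ := norm_sub_le _ _
        _ ≤ 2 * Real.exp (C₂ * (|w.im| + pw γ ‖w‖)) := by linarith
        _ ≤ Real.exp 1 * Real.exp (C₂ * (|w.im| + pw γ ‖w‖)) := mul_le_mul_of_nonneg_right h3 (Real.exp_pos _).le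
        _ = Real.exp (1 + C₂ * (|w.im| + pw γ ‖w‖)) := (Real.exp_add _ _).symm
        _ ≤ Real.exp (C₂ * w.im + max C' (C₂ + 1) * (2 + ‖w‖) ^ γ) := by
          refine Real.exp_le_exp.2 ?_
          rw [abs_of_nonneg hw]
          unfold pw
          have h4 : (C₂ + 1) * (2 + ‖w‖) ^ γ ≤ max C' (C₂ + 1) * (2 + ‖w‖) ^ γ := mul_le_mul_of_nonneg_right (le_max_right _ _) (by linarith)
          nlinarith
  funext w
  have h5 : H w - F w = 0 := by
    ext i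
    exact congrFun (hi i) w
  exact sub_eq_zero.1 h5

end Pool.Agent.SR2.G
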