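import Pool.Agent.SR2.G.Defs

/-!
# SR2 G DQ: the distance of two curves on a disc
-/

set_option autoImplicit false

open Topology Filter Metric

noncomputable section

namespace Pool.Agent.SR2.G

variable {V : Type} [NormedAddCommGroup V] [NormedSpace ℂ V] {r : ℝ}

theorem dq_bdd {F H : ℂ → V} (hF : Continuous F) (hH : Continuous H) : BddAbove ((fun w => ‖H w - F w‖) '' closedBall 0 r) :=
  (isCompact_closedBall (0 : ℂ) r).bddAbove_image (hH.sub hF).norm.continuousOn

theorem le_dQ {F H : ℂ → V} (hF : Continuous F) (hH : Continuous H) {w : ℂ} (hw : ‖w‖ ≤ r) : ‖H w - F w‖ ≤ dQ r F H :=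
  le_csSup (dq_bdd hF hH) ⟨w, by simpa using hw, rfl⟩

theorem dQ_le {F H : ℂ → V} (hr : 0 ≤ r) {δ : ℝ} (h : ∀ w : ℂ, ‖w‖ ≤ r → ‖H w - F w‖ ≤ δ) : dQ r F H ≤ δ := by
  refine csSup_le ⟨_, 0, mem_closedBall_self hr, rfl⟩ ?_
  rintro _ ⟨w, hw, rfl⟩
  exact h w (by simpa using hw)

theorem dQ_nonneg (F H : ℂ → V) : 0 ≤ dQ r F H := by
  refine Real.sSup_nonneg ?_
  rintro _ ⟨w, -, rfl⟩
  exact norm_nonneg _

theorem dQ_tri {F G H : ℂ → V} (hr : 0 ≤ r) (hF : Continuous F) (hG : Continuous G) (hH : Continuous H) : dQ r F H ≤ dQ r F G + dQ r G H := by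
  refine dQ_le hr fun w hw => ?_
  calc ‖H w - F w‖ = ‖(G w - F w) + (H w - G w)‖ := by congr 1; abel
    _ ≤ ‖G w - F w‖ + ‖H w - G w‖ := norm_add_le _ _
    _ ≤ dQ r F G + dQ r G H := add_le_add (le_dQ hF hG hw) (le_dQ hG hH hw)

theorem dQ_comm (F H : ℂ → V) : dQ r F H = dQ r H F := by
  unfold dQ
  congr 1
  refine Set.image_congr fun w _ => ?_
  exact norm_sub_rev _ _

/-- the distance to the limit tends to `0` -/
theorem dq_tendsto_zero {l : Filter ℕ} {F : ℕ → ℂ → V} {F₀ : ℂ → V} (hr : 0 ≤ r) (hF : TendstoLocallyUniformlyOn F F₀ l Set.univ) :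
    Tendsto (fun n => dQ r (F n) F₀) l (𝓝 0) := by
  have h1 : TendstoUniformlyOn F F₀ l (closedBall (0 : ℂ) r) :=
    (tendstoLocallyUniformlyOn_iff_forall_isCompact isOpen_univ).1 hF _ (Set.subset_univ _) (isCompact_closedBall _ _)
  rw [Metric.tendstoUniformlyOn_iff] at h1
  rw [Metric.tendsto_nhds]
  intro ε hε
  filter_upwards [h1 (ε / 2) (by positivity)] with n hn
  rw [Real.dist_eq, sub_zero, abs_of_nonneg (dQ_nonneg _ _)]
  refine lt_of_le_of_lt (dQ_le hr fun w hw => ?_) (half_lt_self hε)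
  have := hn w (by simpa using hw)
  rw [dist_eq_norm] at this
  exact this.le

/-- the distance converges if the functions do -/
theorem tendsto_dQ {l : Filter ℕ} {F H : ℕ → ℂ → V} {F₀ H₀ : ℂ → V} (hr : 0 ≤ r) (hFc : ∀ n, Continuous (F n)) (hHc : ∀ n, Continuous (H n))
    (hF₀ : Continuous F₀) (hH₀ : Continuous H₀) (hF : TendstoLocallyUniformlyOn F F₀ l Set.univ) (hH : TendstoLocallyUniformlyOn H H₀ l Set.univ) :
    Tendsto (fun n => dQ r (F n) (H n)) l (𝓝 (dQ r F₀ H₀)) := by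
  have h1 := dq_tendsto_zero (r := r) hr hF
  have h2 := dq_tendsto_zero (r := r) hr hH
  have h3 := h1.add h2
  rw [add_zero] at h3
  rw [tendsto_iff_dist_tendsto_zero]
  refine squeeze_zero (fun n => dist_nonneg) (fun n => ?_) h3
  rw [Real.dist_eq, abs_le]
  have e1 : dQ r F₀ (F n) = dQ r (F n) F₀ := dQ_comm _ _
  have e2 : dQ r H₀ (H n) = dQ r (H n) H₀ := dQ_comm _ _
  have t1 := dQ_tri hr (hFc n) hF₀ (hHc n)
  have t2 := dQ_tri hr hF₀ hH₀ (hHc n)
  have t3 := dQ_tri hr hF₀ (hFc n) hH₀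
  have t4 := dQ_tri hr (hFc n) (hHc n) hH₀
  constructor <;> linarith

theorem sh_cont {F : ℂ → V} (hF : Continuous F) (a : ℂ) : Continuous (sh a F) := hF.comp (continuous_id.add continuous_const)

/-- translates with converging shifts -/
theorem tlu_sh {l : Filter ℕ} [l.NeBot] {F : ℕ → ℂ → V} {F₀ : ℂ → V} (hF₀ : Continuous F₀) (hF : TendstoLocallyUniformlyOn F F₀ l Set.univ) {a : ℕ → ℂ}
    {a₀ : ℂ} (ha : Tendsto a l (𝓝 a₀)) : TendstoLocallyUniformlyOn (fun n => sh (a n) (F n)) (sh a₀ F₀) l Set.univ := by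
  rw [tendstoLocallyUniformlyOn_iff_forall_isCompact isOpen_univ]
  intro K _ hK
  obtain ⟨R, hR⟩ := hK.isBounded.subset_closedBall 0
  have hS : IsCompact (closedBall (0 : ℂ) (R + ‖a₀‖ + 1)) := isCompact_closedBall _ _
  have h1 : TendstoUniformlyOn F F₀ l (closedBall (0 : ℂ) (R + ‖a₀‖ + 1)) :=
    (tendstoLocallyUniformlyOn_iff_forall_isCompact isOpen_univ).1 hF _ (Set.subset_univ _) hS
  have h2 := hS.uniformContinuousOn_of_continuous hF₀.continuousOn
  rw [Metric.tendstoUniformlyOn_iff] at h1 ⊢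
  rw [Metric.uniformContinuousOn_iff] at h2
  intro ε hε
  obtain ⟨δ, hδ, h2⟩ := h2 (ε / 2) (by positivity)
  rw [Metric.tendsto_nhds] at ha
  filter_upwards [h1 (ε / 2) (by positivity), ha (min δ 1) (by positivity)] with n hn han z hz
  have hz' := hR hz
  rw [mem_closedBall_zero_iff] at hz'
  rw [dist_eq_norm] at han
  have hmem0 : z + a₀ ∈ closedBall (0 : ℂ) (R + ‖a₀‖ + 1) := by
    rw [mem_closedBall_zero_iff]
    have := norm_add_le z a₀
    linarith
  have hmem : z + a n ∈ closedBall (0 : ℂ) (R + ‖a₀‖ + 1) := by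
    rw [mem_closedBall_zero_iff]
    have h3 : ‖a n‖ ≤ ‖a₀‖ + 1 := by
      have h4 : ‖a n‖ ≤ ‖a₀‖ + ‖a n - a₀‖ := by
        calc ‖a n‖ = ‖a₀ + (a n - a₀)‖ := by congr 1; ring
          _ ≤ _ := norm_add_le _ _
      have h5 := han.trans_le (min_le_right δ 1)
      linarith
    have := norm_add_le z (a n)
    linarith
  have h3 := h2 _ hmem0 _ hmem (by
    rw [dist_eq_norm, show z + a₀ - (z + a n) = -(a n - a₀) by ring, norm_neg]
    exact han.trans_le (min_le_left _ _))
  have h4 := hn _ hmem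
  calc dist (sh a₀ F₀ z) (sh (a n) (F n) z) ≤ dist (F₀ (z + a₀)) (F₀ (z + a n)) + dist (F₀ (z + a n)) (F n (z + a n)) := dist_triangle _ _ _
    _ < ε / 2 + ε / 2 := add_lt_add h3 h4
    _ = ε := by ring

theorem continuous_dev {F H : ℂ → V} (hr : 0 ≤ r) (hF : Continuous F) (hH : Continuous H) (a : ℂ) : Continuous fun b => dev r F H a b := by
  rw [continuous_iff_seqContinuous]
  intro b b₀ hb
  have h1 : TendstoLocallyUniformlyOn (fun _ : ℕ => sh a F) (sh a F) atTop Set.univ := by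
    rw [Metric.tendstoLocallyUniformlyOn_iff]
    intro ε hε z _
    exact ⟨Set.univ, univ_mem, Eventually.of_forall fun n y _ => by simpa using hε⟩
  have h0 : TendstoLocallyUniformlyOn (fun _ : ℕ => H) H atTop Set.univ := by
    rw [Metric.tendstoLocallyUniformlyOn_iff]
    intro ε hε z _
    exact ⟨Set.univ, univ_mem, Eventually.of_forall fun n y _ => by simpa using hε⟩
  have h2 : TendstoLocallyUniformlyOn (fun n => sh (a + b n) H) (sh (a + b₀) H) atTop Set.univ := tlu_sh hH h0 (hb.const_add a)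
  exact tendsto_dQ hr (fun _ => sh_cont hF a) (fun n => sh_cont hH _) (sh_cont hF a) (sh_cont hH _) h1 h2

theorem eq_of_dQ [CompleteSpace V] {F H : ℂ → V} (hF : Differentiable ℂ F) (hH : Differentiable ℂ H) (hr : 0 < r) (h : dQ r F H ≤ 0) : H = F := by
  have h1 : H =ᶠ[𝓝 (0 : ℂ)] F := by
    filter_upwards [ball_mem_nhds (0 : ℂ) hr] with w hw
    have h2 : ‖w‖ ≤ r := by
      have : ‖w‖ < r := by simpa using hw
      exact this.le
    have h3 := (le_dQ hF.continuous hH.continuous h2).trans h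
    exact sub_eq_zero.1 (norm_le_zero_iff.1 h3)
  exact AnalyticOnNhd.eq_of_eventuallyEq (fun z _ => hH.analyticAt z) (fun z _ => hF.analyticAt z) h1

theorem dev_sh (F H : ℂ → V) (a b a' : ℂ) : dev r (sh a' F) (sh a' H) a b = dev r F H (a + a') b := by
  unfold dev
  congr 1
  · funext z
    simp only [sh]
    congr 1
    ring
  · funext z
    simp only [sh]
    congr 1
    ring

/-- change of the base point, with a shift of `H` -/
theorem dev_sh' (F H : ℂ → V) (a b a' b' : ℂ) : dev r (sh a' F) (sh (a' + b') H) a b = dev r F H (a + a') (b + b') := by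
  unfold dev
  congr 1
  · funext z
    simp only [sh]
    congr 1
    ring
  · funext z
    simp only [sh]
    congr 1
    ring

end Pool.Agent.SR2.G
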