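import Pool.Agent.SR2.G.DQ

/-!
# SR2 G Lim: limits of followed pairs
-/

set_option autoImplicit false

open Topology Filter Metric

noncomputable section

namespace Pool.Agent.SR2.G

variable {V : Type} [NormedAddCommGroup V] [NormedSpace ℂ V] [CompleteSpace V] {KK : Set (ℂ → V)} {M γ L r b₀ c₁ C₂ ε₀ : ℝ}

/-- bounded sequences converge along an ultrafilter -/
theorem lim_exists {𝒰 : Ultrafilter ℕ} {f : ℕ → ℂ} {R : ℝ} (h : ∀ᶠ n in (𝒰 : Filter ℕ), ‖f n‖ ≤ R) : ∃ β : ℂ, Tendsto f 𝒰 (𝓝 β) := by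
  have h1 : ((𝒰.map f : Ultrafilter ℂ) : Filter ℂ) ≤ 𝓟 (closedBall 0 R) := by
    rw [le_principal_iff]
    show f ⁻¹' closedBall 0 R ∈ (𝒰 : Filter ℕ)
    filter_upwards [h] with n hn
    simpa using hn
  obtain ⟨β, _, h2⟩ := (isCompact_closedBall (0 : ℂ) R).ultrafilter_le_nhds _ h1
  exact ⟨β, h2⟩

omit [NormedSpace ℂ V] [CompleteSpace V] in
/-- values at converging points -/
theorem lim_apply {l : Filter ℕ} {F : ℕ → ℂ → V} {F₀ : ℂ → V} (hc : Continuous F₀) (hF : TendstoLocallyUniformlyOn F F₀ l Set.univ) {a : ℕ → ℂ} {a₀ : ℂ}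
    (ha : Tendsto a l (𝓝 a₀)) : Tendsto (fun n => F n (a n)) l (𝓝 (F₀ a₀)) := by
  rw [tendstoLocallyUniformlyOn_univ] at hF
  exact hF.tendsto_comp hc.continuousAt ha

omit [NormedSpace ℂ V] [CompleteSpace V] in
theorem lim_norm_le {F : ℂ → V} {z : ℤ → ℂ} (hz : IsChain M L F z) (k : ℤ) : ‖z k‖ ≤ L * |(k : ℝ)| := by
  induction k using Int.induction_on with
  | zero => simp [hz.zero]
  | succ k ih =>
    have h1 := hz.norm k
    have h2 : ‖z (k + 1)‖ ≤ ‖z (k + 1) - z k‖ + ‖z k‖ := by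
      calc ‖z (k + 1)‖ = ‖(z (k + 1) - z k) + z k‖ := by rw [sub_add_cancel]
        _ ≤ _ := norm_add_le _ _
    push_cast at ih ⊢
    rw [abs_of_nonneg (by positivity)] at ih ⊢
    nlinarith
  | pred k ih =>
    have h1 := hz.norm (-(k : ℤ) - 1)
    rw [sub_add_cancel] at h1
    have h2 : ‖z (-(k : ℤ) - 1)‖ ≤ ‖z (-(k : ℤ)) - z (-(k : ℤ) - 1)‖ + ‖z (-(k : ℤ))‖ := by
      calc ‖z (-(k : ℤ) - 1)‖ = ‖z (-(k : ℤ)) - (z (-(k : ℤ)) - z (-(k : ℤ) - 1))‖ := by rw [sub_sub_cancel]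
        _ ≤ _ := by
          rw [add_comm]
          exact norm_sub_le _ _
    push_cast at ih ⊢
    have h3 : |-(k : ℝ)| = k := by rw [abs_neg, abs_of_nonneg (by positivity)]
    have h4 : |-(k : ℝ) - 1| = k + 1 := by
      rw [show -(k : ℝ) - 1 = -(k + 1) by ring, abs_neg, abs_of_nonneg (by positivity)]
    rw [h3] at ih
    rw [h4]
    nlinarith

/-- limits of followed pairs -/
theorem exists_lim (h : Sys KK M γ) (hc : Cst KK M L r b₀ c₁ C₂) (𝒰 : Ultrafilter ℕ) (h𝒰 : (𝒰 : Filter ℕ) ≤ atTop) {ε : ℝ} (hε : ε ≤ 1)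
    {F H : ℕ → ℂ → V} {z b : ℕ → ℤ → ℂ} {J : ℕ → Set ℤ} {I : Set ℤ} (hF : ∀ n, F n ∈ KK) (hH : ∀ n, H n ∈ KK) (hz : ∀ n, IsChain M L (F n) (z n))
    (hb : ∀ n, b n 0 = 0) (hJ : ∀ n, Track r b₀ ε (F n) (H n) (z n) (b n) (J n)) (hJ0 : ∀ n, (0 : ℤ) ∈ J n) (hI0 : (0 : ℤ) ∈ I) (hI : I.OrdConnected)
    (hIJ : ∀ k ∈ I, ∀ᶠ n in (𝒰 : Filter ℕ), k ∈ J n) :
    ∃ (F₀ H₀ : ℂ → V) (z₀ b' : ℤ → ℂ), F₀ ∈ KK ∧ H₀ ∈ KK ∧ IsChain M L F₀ z₀ ∧ b' 0 = 0 ∧ Track r b₀ ε F₀ H₀ z₀ b' I ∧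
      ∀ k ∈ I, Tendsto (fun n => dev r (F n) (H n) (z n k) (b n k)) 𝒰 (𝓝 (dev r F₀ H₀ (z₀ k) (b' k))) := by
  have hL : 0 ≤ L := zero_le_one.trans hc.L1
  have hr : 0 ≤ r := (add_nonneg hL zero_le_one).trans hc.rL
  have hFc : ∀ n, Continuous (F n) := fun n => (h.diff _ (hF n)).continuous
  have hHc : ∀ n, Continuous (H n) := fun n => (h.diff _ (hH n)).continuous
  have hshc : ∀ (a : ℂ) (G : ℂ → V), Continuous G → Continuous (sh a G) := fun a G hG => hG.comp (by fun_prop)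
  have hF0 : ∀ n, ‖F n 0‖ ≤ M := fun n => by
    have h1 := (hz n).good 0
    rwa [(hz n).zero] at h1
  have hH0 : ∀ n, ‖H n 0‖ ≤ M + 1 := fun n => by
    have h1 := (hJ n).le 0 (hJ0 n)
    rw [(hz n).zero, hb n] at h1
    have h2 : ‖sh (0 + 0) (H n) 0 - sh 0 (F n) 0‖ ≤ dQ r (sh 0 (F n)) (sh (0 + 0) (H n)) :=
      le_dQ (hshc _ _ (hFc n)) (hshc _ _ (hHc n)) (by simpa using hr)
    have h3 : ‖H n 0 - F n 0‖ ≤ 1 := by
      have h4 := h2.trans (h1.trans hε)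
      simpa [sh] using h4
    calc ‖H n 0‖ = ‖(H n 0 - F n 0) + F n 0‖ := by rw [sub_add_cancel]
      _ ≤ ‖H n 0 - F n 0‖ + ‖F n 0‖ := norm_add_le _ _
      _ ≤ M + 1 := by linarith [hF0 n]
  obtain ⟨F₀, hF₀, hFl⟩ := h.cpt 𝒰 h𝒰 M F hF hF0
  obtain ⟨H₀, hH₀, hHl⟩ := h.cpt 𝒰 h𝒰 (M + 1) H hH hH0
  have hF₀c : Continuous F₀ := (h.diff _ hF₀).continuous
  have hH₀c : Continuous H₀ := (h.diff _ hH₀).continuous
  have hzl : ∀ k, ∃ β : ℂ, Tendsto (fun n => z n k) 𝒰 (𝓝 β) := fun k =>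
    lim_exists (R := L * |(k : ℝ)|) (Eventually.of_forall fun n => lim_norm_le (hz n) k)
  have hbl : ∀ k, k ∈ I → ∃ β : ℂ, Tendsto (fun n => b n k) 𝒰 (𝓝 β) := by
    intro k
    induction k using Int.induction_on with
    | zero =>
      intro _
      refine ⟨0, ?_⟩
      simp only [hb]
      exact tendsto_const_nhds
    | succ k ih =>
      intro hk
      have h1 : (k : ℤ) ∈ I := hI.out hI0 hk ⟨by positivity, by linarith⟩
      obtain ⟨β, hβ⟩ := ih h1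
      have h2 : ∀ᶠ n in (𝒰 : Filter ℕ), ‖b n k‖ ≤ ‖β‖ + 1 := by
        have h3 := hβ.norm.eventually (Iic_mem_nhds (lt_add_one ‖β‖))
        exact h3
      refine lim_exists (R := b₀ + (‖β‖ + 1)) ?_
      filter_upwards [h2, hIJ k h1, hIJ _ hk] with n h3 h4 h5
      have h6 := (hJ n).near k h4 h5
      calc ‖b n (k + 1)‖ = ‖(b n (k + 1) - b n k) + b n k‖ := by rw [sub_add_cancel]
        _ ≤ ‖b n (k + 1) - b n k‖ + ‖b n k‖ := norm_add_le _ _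
        _ ≤ _ := by linarith
    | pred k ih =>
      intro hk
      have h1 : (-(k : ℤ)) ∈ I := hI.out hk hI0 ⟨by linarith, by simp⟩
      obtain ⟨β, hβ⟩ := ih h1
      have h2 : ∀ᶠ n in (𝒰 : Filter ℕ), ‖b n (-(k : ℤ))‖ ≤ ‖β‖ + 1 := by
        have h3 := hβ.norm.eventually (Iic_mem_nhds (lt_add_one ‖β‖))
        exact h3
      refine lim_exists (R := b₀ + (‖β‖ + 1)) ?_
      filter_upwards [h2, hIJ _ h1, hIJ _ hk] with n h3 h4 h5
      have h6 := (hJ n).near _ h5 (by rwa [sub_add_cancel])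
      rw [sub_add_cancel] at h6
      calc ‖b n (-(k : ℤ) - 1)‖ = ‖b n (-(k : ℤ)) - (b n (-(k : ℤ)) - b n (-(k : ℤ) - 1))‖ := by rw [sub_sub_cancel]
        _ ≤ ‖b n (-(k : ℤ))‖ + ‖b n (-(k : ℤ)) - b n (-(k : ℤ) - 1)‖ := norm_sub_le _ _
        _ ≤ _ := by linarith
  choose z₀ hz₀ using hzl
  choose! b' hb' using hbl
  have hshF : ∀ k, TendstoLocallyUniformlyOn (fun n => sh (z n k) (F n)) (sh (z₀ k) F₀) 𝒰 Set.univ := fun k => tlu_sh hF₀c hFl (hz₀ k)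
  have hdev : ∀ (k : ℤ) (β : ℕ → ℂ) (β₀ : ℂ), Tendsto β 𝒰 (𝓝 β₀) →
      Tendsto (fun n => dev r (F n) (H n) (z n k) (β n)) 𝒰 (𝓝 (dev r F₀ H₀ (z₀ k) β₀)) := by
    intro k β β₀ hβ
    exact tendsto_dQ hr (fun n => hshc _ _ (hFc n)) (fun n => hshc _ _ (hHc n)) (hshc _ _ hF₀c) (hshc _ _ hH₀c) (hshF k)
      (tlu_sh hH₀c hHl ((hz₀ k).add hβ))
  refine ⟨F₀, H₀, z₀, b', hF₀, hH₀, ⟨?_, fun k => ?_, fun k => ?_, fun k => ?_⟩, ?_, ⟨fun k hk => ?_, fun k hk b'' hb'' => ?_, fun k hk hk1 => ?_⟩,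
    fun k hk => hdev k _ _ (hb' k hk)⟩
  · have h1 := hz₀ 0
    simp only [(hz _).zero] at h1
    exact tendsto_nhds_unique h1 tendsto_const_nhds
  · exact le_of_tendsto (lim_apply hF₀c hFl (hz₀ k)).norm (Eventually.of_forall fun n => (hz n).good k)
  · have h1 : Tendsto (fun n => (z n (k + 1)).re - (z n k).re) 𝒰 (𝓝 ((z₀ (k + 1)).re - (z₀ k).re)) :=
      ((Complex.continuous_re.tendsto _).comp (hz₀ (k + 1))).sub ((Complex.continuous_re.tendsto _).comp (hz₀ k))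
    exact ge_of_tendsto h1 (Eventually.of_forall fun n => (hz n).re k)
  · exact le_of_tendsto ((hz₀ (k + 1)).sub (hz₀ k)).norm (Eventually.of_forall fun n => (hz n).norm k)
  · have h1 := hb' 0 hI0
    simp only [hb] at h1
    exact tendsto_nhds_unique h1 tendsto_const_nhds
  · refine le_of_tendsto (hdev k _ _ (hb' k hk)) ?_
    filter_upwards [hIJ k hk] with n hn
    exact (hJ n).le k hn
  · have h1 : Tendsto (fun n => b n k + (b'' - b' k)) 𝒰 (𝓝 b'') := by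
      have h2 := (hb' k hk).add_const (b'' - b' k)
      rwa [add_sub_cancel] at h2
    refine le_of_tendsto_of_tendsto (hdev k _ _ (hb' k hk)) (hdev k _ _ h1) ?_
    filter_upwards [hIJ k hk] with n hn
    refine (hJ n).min k hn _ ?_
    rwa [add_sub_cancel_left]
  · refine le_of_tendsto ((hb' (k + 1) hk1).sub (hb' k hk)).norm ?_
    filter_upwards [hIJ k hk, hIJ _ hk1] with n h3 h4
    exact (hJ n).near k h3 h4

end Pool.Agent.SR2.G
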