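import Pool.Agent.SR2.G.Ext
import Pool.Agent.SR2.G.DQ
import Pool.Agent.SR2.G.Chain
import Pool.Agent.SR2.G.Neg
import Pool.Agent.SR2.G.Lim
import Pool.Agent.SR2.G.Ret

/-!
# SR2 G Exit: an asymptotic pair exists, in one of the two directions

PROOF.  Take two close translates of one curve (`exists_return`) and follow them to the right (`exists_fwd`).  If they can be followed for ever, this is an asymptotic
pair: the deviation is never `0`, because otherwise it is `0` at all smaller indices, and then the curve is periodic.  Otherwise, for closer and closer translates, there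
are exits at the indices `T n → ∞`; translate to `T n` and pass to the limit (`exists_lim`): a pair which is followed along the negative half, with a positive deviation
at `0`.
-/

set_option autoImplicit false
set_option linter.unusedSectionVars false

open Topology Filter Metric

noncomputable section

namespace Pool.Agent.SR2.G

variable {V : Type} [NormedAddCommGroup V] [NormedSpace ℂ V] [CompleteSpace V] {KK : Set (ℂ → V)} {M γ L r b₀ c₁ C₂ ε₀ : ℝ}

theorem eq_of_dev {F H : ℂ → V} (hF : Differentiable ℂ F) (hH : Differentiable ℂ H) (hr : 0 < r) {a b : ℂ} (h : dev r F H a b ≤ 0) (z : ℂ) :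
    H (z + b) = F z := by
  have h1 : sh (a + b) H = sh a F :=
    eq_of_dQ (hF.comp (differentiable_id.add_const a)) (hH.comp (differentiable_id.add_const (a + b))) hr h
  have h2 := congrFun h1 (z - a)
  simp only [sh] at h2
  rw [sub_add_cancel, show z - a + (a + b) = z + b by ring] at h2
  exact h2

theorem dev_of_eq {F H : ℂ → V} (hr : 0 ≤ r) {b : ℂ} (h : ∀ z, H (z + b) = F z) (a : ℂ) : dev r F H a b = 0 := by
  have h1 : sh (a + b) H = sh a F := by
    funext z
    show H (z + (a + b)) = F (z + a)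
    rw [← add_assoc]
    exact h _
  unfold dev
  rw [h1]
  exact le_antisymm (dQ_le hr fun w _ => by simp) (dQ_nonneg _ _)

/-- if the deviation is `0` at one index, it is `0` at the neighbours -/
theorem dev_prop (h : Sys KK M γ) (hr : 0 < r) {F H : ℂ → V} (hF : F ∈ KK) (hH : H ∈ KK) {a a' b b' : ℂ} (h0 : dev r F H a b ≤ 0)
    (hmin : ∀ b'' : ℂ, ‖b'' - b'‖ ≤ b₀ → dev r F H a' b' ≤ dev r F H a' b'') (hb : ‖b - b'‖ ≤ b₀) : dev r F H a' b' ≤ 0 := by
  have h1 := eq_of_dev (h.diff F hF) (h.diff H hH) hr h0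
  have h2 := dev_of_eq hr.le h1 a'
  exact (hmin b hb).trans h2.le

/-- an asymptotic pair exists, in one of the two directions -/
theorem exists_asym (h : Sys KK M γ) (hc : Cst KK M L r b₀ c₁ C₂) (he : Expa KK M L r b₀ c₁ ε₀) (hp : NoPer KK) :
    (∃ (F H : ℂ → V) (z b : ℤ → ℂ), Asym KK M L r b₀ ε₀ F H z b) ∨ ∃ (F H : ℂ → V) (z b : ℤ → ℂ), Asym (ng '' KK) M L r b₀ ε₀ F H z b := by
  have hr : 0 < r := by linarith [hc.L1, hc.rL]
  obtain ⟨ε₃, h3, h3', hfwd⟩ := exists_fwd h hc he.pos he.le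
  choose δ hδ hfw using hfwd
  have hret := fun n => exists_return h hc (hδ n)
  choose F z ζ hF hz hζ hFζ hdQ using hret
  have hH : ∀ n, sh (ζ n) (F n) ∈ KK := fun n => h.shift _ (hF n) _
  have hfw' := fun n => hfw n (F n) (hF n) (sh (ζ n) (F n)) (hH n) (z n) (hz n) (hdQ n)
  choose b hb0 hb1 hb2 hb3 using hfw'
  have hε : ε₀ ≤ 1 := by
    have h1 := he.le
    have h2 : c₁ * b₀ ≤ 1 * (1 / 8) := mul_le_mul hc.c₁_le hc.b₀_le hc.b₀_pos.le zero_le_one
    linarith
  by_cases hev : ∃ n, ∀ k : ℕ, dev r (F n) (sh (ζ n) (F n)) (z n k) (b n k) ≤ ε₃ ∧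
      (∀ b' : ℂ, ‖b' - b n k‖ ≤ b₀ → dev r (F n) (sh (ζ n) (F n)) (z n k) (b n k) ≤ dev r (F n) (sh (ζ n) (F n)) (z n k) b') ∧ ‖b n (k + 1) - b n k‖ ≤ b₀
  · left
    obtain ⟨n, hn⟩ := hev
    have hcast : ∀ k : ℤ, 0 ≤ k → ∃ m : ℕ, k = m := fun k hk => ⟨k.toNat, (Int.toNat_of_nonneg hk).symm⟩
    refine ⟨F n, sh (ζ n) (F n), z n, fun k => b n k.toNat, hF n, hH n, hz n, ⟨fun k hk => ?_, fun k hk b' hb' => ?_, fun k hk hk1 => ?_⟩, fun k hk => ?_⟩
    · obtain ⟨m, rfl⟩ := hcast k hk
      rw [Int.toNat_natCast]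
      exact (hn m).1.trans h3'
    · obtain ⟨m, rfl⟩ := hcast k hk
      rw [Int.toNat_natCast] at hb' ⊢
      exact (hn m).2.1 b' hb'
    · obtain ⟨m, rfl⟩ := hcast k hk
      rw [Int.toNat_natCast, show ((m : ℤ) + 1).toNat = m + 1 by omega]
      exact (hn m).2.2
    · obtain ⟨m, rfl⟩ := hcast k hk
      rw [Int.toNat_natCast]
      by_contra hneg
      push Not at hneg
      have hall : ∀ j : ℕ, j ≤ m → dev r (F n) (sh (ζ n) (F n)) (z n ((m - j : ℕ) : ℤ)) (b n (m - j)) ≤ 0 := by
        intro j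
        induction j with
        | zero => intro _; simpa using hneg
        | succ j ih =>
          intro hj
          have h4 := ih (by omega)
          have h5 : m - j = (m - (j + 1)) + 1 := by omega
          rw [h5] at h4
          exact dev_prop h hr (hF n) (hH n) h4 (hn (m - (j + 1))).2.1 (hn (m - (j + 1))).2.2
      have h6 := hall m le_rfl
      rw [Nat.sub_self] at h6
      have h7 := eq_of_dev (h.diff _ (hF n)) (h.diff _ (hH n)) hr h6
      have h8 := hp (F n) (hF n) (b n 0 + ζ n) fun w => by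
        have := h7 w
        simp only [sh] at this
        rw [← add_assoc]
        exact this
      have h9 : (b n 0 + ζ n).re = 0 := by rw [h8]; rfl
      have h10 : |(b n 0).re| ≤ 1 / 8 := (Complex.abs_re_le_norm _).trans ((hb0 n).trans hc.b₀_le)
      rw [Complex.add_re] at h9
      have h11 := abs_le.1 h10
      linarith [hζ n, h11.1]
  · right
    have hex : ∀ n, ∃ T : ℕ, n < T ∧ ε₃ < dev r (F n) (sh (ζ n) (F n)) (z n T) (b n T) ∧ ∀ k ≤ T, dev r (F n) (sh (ζ n) (F n)) (z n k) (b n k) ≤ ε₀ ∧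
        (∀ b' : ℂ, ‖b' - b n k‖ ≤ b₀ → dev r (F n) (sh (ζ n) (F n)) (z n k) (b n k) ≤ dev r (F n) (sh (ζ n) (F n)) (z n k) b') ∧
        (k < T → ‖b n (k + 1) - b n k‖ ≤ b₀) := fun n => (hb3 n).resolve_left fun h4 => hev ⟨n, h4⟩
    choose T hT hT1 hT2 using hex
    set F' : ℕ → ℂ → V := fun n => sh (z n (T n)) (F n) with hF'
    set H' : ℕ → ℂ → V := fun n => sh (z n (T n) + b n (T n)) (sh (ζ n) (F n)) with hH'
    set z' : ℕ → ℤ → ℂ := fun n k => z n (k + T n) - z n (T n) with hz'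
    set b' : ℕ → ℤ → ℂ := fun n k => b n (k + T n).toNat - b n (T n) with hb'
    have hdev : ∀ n k (β : ℂ), dev r (F' n) (H' n) (z' n k) β = dev r (F n) (sh (ζ n) (F n)) (z n (k + T n)) (β + b n (T n)) := by
      intro n k β
      simp only [hF', hH', hz', dev_sh', sub_add_cancel]
    have hcast : ∀ n, ∀ k ∈ Set.Icc (-(T n : ℤ)) 0, ∃ m : ℕ, m ≤ T n ∧ k + T n = m := fun n k hk => by
      obtain ⟨h4, h5⟩ := hk
      exact ⟨(k + T n).toNat, by omega, by omega⟩
    have htr : ∀ n, Track r b₀ ε₀ (F' n) (H' n) (z' n) (b' n) (Set.Icc (-(T n : ℤ)) 0) := by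
      intro n
      refine ⟨fun k hk => ?_, fun k hk β hβ => ?_, fun k hk hk1 => ?_⟩
      · obtain ⟨m, hm, hkm⟩ := hcast n k hk
        rw [hdev, hkm]
        simp only [hb', hkm, Int.toNat_natCast, sub_add_cancel]
        exact (hT2 n m hm).1
      · obtain ⟨m, hm, hkm⟩ := hcast n k hk
        rw [hdev, hdev, hkm]
        simp only [hb', hkm, Int.toNat_natCast, sub_add_cancel] at hβ ⊢
        refine (hT2 n m hm).2.1 _ ?_
        rw [show β + b n (T n) - b n m = β - (b n m - b n (T n)) by ring]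
        exact hβ
      · obtain ⟨m, hm, hkm⟩ := hcast n k hk
        have hkm1 : k + 1 + T n = ((m + 1 : ℕ) : ℤ) := by push_cast; omega
        simp only [hb', hkm, hkm1, Int.toNat_natCast]
        rw [show b n (m + 1) - b n (T n) - (b n m - b n (T n)) = b n (m + 1) - b n m by ring]
        have h5 := hk1.2
        exact (hT2 n m hm).2.2 (by omega)
    have hF'm : ∀ n, F' n ∈ KK := fun n => h.shift _ (hF n) _
    have hH'm : ∀ n, H' n ∈ KK := fun n => h.shift _ (hH n) _
    have hz'c : ∀ n, IsChain M L (F' n) (z' n) := fun n => (hz n).shift (T n)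
    have hb'0 : ∀ n, b' n 0 = 0 := fun n => by simp [hb']
    obtain ⟨F₀, H₀, z₀, β, hF₀, hH₀, hz₀, hβ0, htr₀, hlim⟩ := exists_lim h hc (hyperfilter ℕ) Nat.hyperfilter_le_atTop hε hF'm hH'm hz'c hb'0 htr
      (fun n => ⟨by simp, le_rfl⟩) (Set.mem_Iic.2 le_rfl : (0 : ℤ) ∈ Set.Iic 0) Set.ordConnected_Iic
      (fun k hk => Nat.hyperfilter_le_atTop (by
        filter_upwards [eventually_ge_atTop k.natAbs] with n hn
        have h4 := hT n
        have h5 : k ≤ 0 := hk
        exact ⟨by omega, h5⟩))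
    have hpos0 : 0 < dev r F₀ H₀ (z₀ 0) (β 0) := by
      refine lt_of_lt_of_le h3 (ge_of_tendsto' (hlim 0 (Set.mem_Iic.2 le_rfl)) fun n => ?_)
      rw [hdev]
      simp only [hb', zero_add, Int.toNat_natCast, sub_add_cancel]
      exact (hT1 n).le
    refine ⟨ng F₀, ng H₀, fun k => -z₀ (-k), fun k => -β (-k), ng_mem hF₀, ng_mem hH₀, hz₀.neg, ?_, fun k hk => ?_⟩
    · have h4 := htr₀.neg
      have h5 : Neg.neg ⁻¹' Set.Iic (0 : ℤ) = Set.Ici 0 := by
        ext k
        simp
      rw [h5] at h4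
      exact h4
    · rw [dev_neg]
      by_contra hneg
      push Not at hneg
      obtain ⟨m, rfl⟩ : ∃ m : ℕ, k = m := ⟨k.toNat, (Int.toNat_of_nonneg hk).symm⟩
      have hall : ∀ j : ℕ, j ≤ m → dev r F₀ H₀ (z₀ (-(m : ℤ) + j)) (β (-(m : ℤ) + j)) ≤ 0 := by
        intro j
        induction j with
        | zero => intro _; simpa using hneg
        | succ j ih =>
          intro hj
          have h4 := ih (by omega)
          have h5 : -(m : ℤ) + ((j + 1 : ℕ) : ℤ) = (-(m : ℤ) + j) + 1 := by push_cast; ring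
          rw [h5]
          have h6 : (-(m : ℤ) + j) ∈ Set.Iic (0 : ℤ) := Set.mem_Iic.2 (by omega)
          have h7 : (-(m : ℤ) + j) + 1 ∈ Set.Iic (0 : ℤ) := Set.mem_Iic.2 (by omega)
          refine dev_prop h hr hF₀ hH₀ h4 (htr₀.min _ h7) ?_
          rw [norm_sub_rev]
          exact htr₀.near _ h6 h7
      have h8 := hall m le_rfl
      rw [neg_add_cancel] at h8
      exact absurd hpos0 (not_lt.2 h8)

end Pool.Agent.SR2.G
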