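import Pool.Agent.SR2.G.Defs

/-!
# SR2 G Rig: no rescaled limit at a best shift
-/

set_option autoImplicit false

open Topology Filter Metric

noncomputable section

namespace Pool.Agent.SR2.G

variable {V : Type} [NormedAddCommGroup V] [NormedSpace ℂ V]

theorem Rig.dQ_le {F H : ℂ → V} {r : ℝ} (hr : 0 ≤ r) {δ : ℝ} (h : ∀ w : ℂ, ‖w‖ ≤ r → ‖H w - F w‖ ≤ δ) : dQ r F H ≤ δ := by
  unfold dQ
  apply csSup_le
  · exact ⟨_, 0, mem_closedBall_self hr, rfl⟩
  · rintro _ ⟨w, hw, rfl⟩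
    exact h w (by simpa using hw)

/-- `F n + s n • V n → F₀` -/
theorem Rig.lim_add {l : Filter ℕ} {F H : ℕ → ℂ → V} {F₀ V₀ : ℂ → V} {s : ℕ → ℝ} (hs : ∀ n, 0 < s n) (hs0 : Tendsto s l (𝓝 0)) (hV₀ : Continuous V₀)
    (hF : TendstoLocallyUniformlyOn F F₀ l Set.univ)
    (hV : TendstoLocallyUniformlyOn (fun n z => ((s n : ℂ)⁻¹) • (H n z - F n z)) V₀ l Set.univ) :
    TendstoLocallyUniformlyOn H F₀ l Set.univ := by
  rw [tendstoLocallyUniformlyOn_iff_forall_isCompact isOpen_univ] at hF hV ⊢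
  intro K hK1 hK
  obtain ⟨B, hB⟩ := hK.exists_bound_of_continuousOn hV₀.continuousOn
  have hB1 : 0 ≤ max B 0 := le_max_right _ _
  rw [Metric.tendstoUniformlyOn_iff]
  intro ε hε
  have h1 := Metric.tendstoUniformlyOn_iff.1 (hF K hK1 hK) (ε / 2) (by positivity)
  have h2 := Metric.tendstoUniformlyOn_iff.1 (hV K hK1 hK) 1 one_pos
  have h3 := hs0.eventually (gt_mem_nhds (show (0 : ℝ) < ε / (2 * (max B 0 + 1)) by positivity))
  filter_upwards [h1, h2, h3] with n hn1 hn2 hn3 z hz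
  have e1 := hn1 z hz
  have e2 := hn2 z hz
  have e3 := hB z hz
  rw [dist_eq_norm] at e1 e2 ⊢
  have hsn := hs n
  have hsn' : (s n : ℂ) ≠ 0 := by exact_mod_cast hsn.ne'
  have e4 : ‖((s n : ℂ)⁻¹) • (H n z - F n z)‖ ≤ max B 0 + 1 := by
    have h4 : ‖((s n : ℂ)⁻¹) • (H n z - F n z)‖ ≤ ‖V₀ z‖ + ‖V₀ z - ((s n : ℂ)⁻¹) • (H n z - F n z)‖ := by
      have := norm_sub_le (V₀ z) (V₀ z - ((s n : ℂ)⁻¹) • (H n z - F n z))
      rwa [sub_sub_cancel] at this
    linarith [le_max_left B 0]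
  have e5 : ‖H n z - F n z‖ ≤ s n * (max B 0 + 1) := by
    have h5 : H n z - F n z = (s n : ℂ) • (((s n : ℂ)⁻¹) • (H n z - F n z)) := by
      rw [smul_smul, mul_inv_cancel₀ hsn', one_smul]
    rw [h5, norm_smul, Complex.norm_real, Real.norm_of_nonneg hsn.le]
    exact mul_le_mul_of_nonneg_left e4 hsn.le
  have e6 : s n * (max B 0 + 1) < ε / 2 := by
    have h6 : 0 < max B 0 + 1 := by positivity
    rw [lt_div_iff₀ (by positivity)] at hn3
    linarith
  have e7 : F₀ z - H n z = (F₀ z - F n z) - (H n z - F n z) := by abel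
  rw [e7]
  have := norm_sub_le (F₀ z - F n z) (H n z - F n z)
  linarith

/-- **No rescaled limit at a best shift.** -/
theorem rig_false [CompleteSpace V] {KK : Set (ℂ → V)} {M γ L r b₀ c₁ C₂ : ℝ} (h : Sys KK M γ) (hc : Cst KK M L r b₀ c₁ C₂) (hr : Rigid KK M L r γ)
    (𝒰 : Ultrafilter ℕ) (h𝒰 : (𝒰 : Filter ℕ) ≤ atTop)
    {F H : ℕ → ℂ → V} {z : ℕ → ℤ → ℂ} {s ε N : ℕ → ℝ} {A : ℝ} (hF : ∀ n, F n ∈ KK) (hH : ∀ n, H n ∈ KK) (hz : ∀ n, IsChain M L (F n) (z n))
    (hs : ∀ n, 0 < s n) (hs0 : Tendsto s 𝒰 (𝓝 0)) (hε : ∀ n, 0 ≤ ε n) (hN : ∀ n, 0 ≤ N n) (hεN : Tendsto (fun n => ε n * Real.log (2 + N n)) 𝒰 (𝓝 0))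
    (hb : ∀ (n : ℕ) (k : ℤ) (w : ℂ), ‖w‖ ≤ r →
      ‖H n (z n k + w) - F n (z n k + w)‖ ≤ s n * Real.exp (A * pw γ |(k : ℝ)| + ε n * min |(k : ℝ)| (N n)))
    (hmin : ∀ (n : ℕ) (b : ℂ), ‖b‖ ≤ b₀ → s n / 2 ≤ dev r (F n) (H n) 0 b) : False := by
  obtain ⟨F₀, hF₀, c, hlim, hV⟩ := hr 𝒰 h𝒰 F H z s ε N A hF hH hz hs hs0 hε hN hεN hb
  have hr0 : 0 ≤ r := by linarith [hc.rL, hc.L1]
  have hdF₀ : Differentiable ℂ F₀ := h.diff F₀ hF₀
  have hdc : Continuous (deriv F₀) := by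
    have h1 : ContDiff ℂ 2 F₀ := hdF₀.contDiff
    exact h1.continuous_deriv (by norm_num)
  have hHlim : TendstoLocallyUniformlyOn H F₀ 𝒰 Set.univ := Rig.lim_add hs hs0 (hdc.const_smul c) hlim hV
  have hH' : TendstoLocallyUniformlyOn (deriv ∘ H) (deriv F₀) 𝒰 Set.univ :=
    hHlim.deriv (Eventually.of_forall fun n => (h.diff _ (hH n)).differentiableOn) isOpen_univ
  set δ : ℝ := 1 / (4 * (1 + 2 * ‖c‖)) with hδ
  have hδ0 : 0 < δ := by positivity
  -- uniform continuity of `F₀'`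
  have hK : IsCompact (closedBall (0 : ℂ) (r + 1)) := isCompact_closedBall _ _
  have huc := hK.uniformContinuousOn_of_continuous hdc.continuousOn
  obtain ⟨η, hη, hη2⟩ := Metric.uniformContinuousOn_iff.1 huc δ hδ0
  have h1 := Metric.tendstoUniformlyOn_iff.1 ((tendstoLocallyUniformlyOn_iff_forall_isCompact isOpen_univ).1 hH' _ (Set.subset_univ _) hK) δ hδ0
  have h2 := Metric.tendstoUniformlyOn_iff.1 ((tendstoLocallyUniformlyOn_iff_forall_isCompact isOpen_univ).1 hV _ (Set.subset_univ _) hK) δ hδ0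
  have h3 : ∀ᶠ n in (𝒰 : Filter ℕ), ‖c‖ * s n < min (min b₀ η) 1 := by
    have h4 : Tendsto (fun n => ‖c‖ * s n) 𝒰 (𝓝 (‖c‖ * 0)) := hs0.const_mul _
    rw [mul_zero] at h4
    exact h4.eventually (gt_mem_nhds (lt_min (lt_min hc.b₀_pos hη) one_pos))
  obtain ⟨n, hn1, hn2, hn3⟩ := (h1.and (h2.and h3)).exists
  have hsn := hs n
  have hsn' : (s n : ℂ) ≠ 0 := by exact_mod_cast hsn.ne'
  have hnb : ‖c‖ * s n < b₀ := hn3.trans_le ((min_le_left _ _).trans (min_le_left _ _))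
  have hnη : ‖c‖ * s n < η := hn3.trans_le ((min_le_left _ _).trans (min_le_right _ _))
  have hn1' : ‖c‖ * s n < 1 := hn3.trans_le (min_le_right _ _)
  set b : ℂ := -(c * s n) with hbdef
  have hbn : ‖b‖ = ‖c‖ * s n := by
    rw [hbdef, norm_neg, norm_mul, Complex.norm_real, Real.norm_of_nonneg hsn.le]
  have key : ∀ w : ℂ, ‖w‖ ≤ r → ‖H n (w + b) - F n w‖ ≤ s n / 4 := by
    intro w hw
    have hwK : w ∈ closedBall (0 : ℂ) (r + 1) := by
      rw [mem_closedBall, dist_zero_right]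
      linarith
    -- the increment of `H n`
    have e1 : ‖H n (w + b) - H n w - b • deriv F₀ w‖ ≤ 2 * δ * ‖b‖ := by
      have hd : ∀ u ∈ closedBall w ‖b‖, HasDerivWithinAt (fun u => H n u - (u - w) • deriv F₀ w) (deriv (H n) u - deriv F₀ w) (closedBall w ‖b‖) u := by
        intro u _
        have g1 : HasDerivAt (H n) (deriv (H n) u) u := (h.diff _ (hH n) u).hasDerivAt
        have g2 : HasDerivAt (fun u : ℂ => (u - w) • deriv F₀ w) ((1 : ℂ) • deriv F₀ w) u := ((hasDerivAt_id u).sub_const w).smul_const _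
        rw [one_smul] at g2
        exact (g1.sub g2).hasDerivWithinAt
      have hbd : ∀ u ∈ closedBall w ‖b‖, ‖deriv (H n) u - deriv F₀ w‖ ≤ 2 * δ := by
        intro u hu
        rw [mem_closedBall] at hu
        have huK : u ∈ closedBall (0 : ℂ) (r + 1) := by
          rw [mem_closedBall, dist_zero_right]
          rw [dist_eq_norm] at hu
          have := norm_le_norm_add_norm_sub' u w
          linarith
        have g1 := hn1 u huK
        have g2 := hη2 u huK w hwK (by linarith)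
        rw [dist_eq_norm] at g1 g2
        have g3 : deriv (H n) u - deriv F₀ w = (deriv F₀ u - deriv F₀ w) - (deriv F₀ u - (deriv ∘ H) n u) := by
          show _ = (deriv F₀ u - deriv F₀ w) - (deriv F₀ u - deriv (H n) u)
          abel
        rw [g3]
        have := norm_sub_le (deriv F₀ u - deriv F₀ w) (deriv F₀ u - (deriv ∘ H) n u)
        linarith
      have := (convex_closedBall w ‖b‖).norm_image_sub_le_of_norm_hasDerivWithin_le hd hbd (mem_closedBall_self (norm_nonneg b))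
        (show w + b ∈ closedBall w ‖b‖ by rw [mem_closedBall, dist_eq_norm, add_sub_cancel_left])
      rw [sub_self, zero_smul, sub_zero, add_sub_cancel_left] at this
      have e : H n (w + b) - H n w - b • deriv F₀ w = H n (w + b) - b • deriv F₀ w - H n w := by abel
      rw [e]
      exact this
    have e2 : ‖H n w - F n w + b • deriv F₀ w‖ ≤ s n * δ := by
      have g1 := hn2 w hwK
      rw [dist_comm, dist_eq_norm] at g1
      have g2 : H n w - F n w + b • deriv F₀ w = (s n : ℂ) • (((s n : ℂ)⁻¹) • (H n w - F n w) - c • deriv F₀ w) := by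
        rw [smul_sub, smul_smul, mul_inv_cancel₀ hsn', one_smul, smul_smul, hbdef, neg_smul, mul_comm c]
        abel
      rw [g2, norm_smul, Complex.norm_real, Real.norm_of_nonneg hsn.le]
      exact mul_le_mul_of_nonneg_left g1.le hsn.le
    have e3 : H n (w + b) - F n w = (H n (w + b) - H n w - b • deriv F₀ w) + (H n w - F n w + b • deriv F₀ w) := by abel
    rw [e3]
    refine (norm_add_le _ _).trans ((add_le_add e1 e2).trans ?_)
    rw [hbn]
    have e4 : 2 * δ * (‖c‖ * s n) + s n * δ = s n * (δ * (1 + 2 * ‖c‖)) := by ring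
    rw [e4]
    have e5 : δ * (1 + 2 * ‖c‖) = 1 / 4 := by
      rw [hδ]
      field_simp
    rw [e5]
    linarith
  have h5 := hmin n b (by rw [hbn]; exact hnb.le)
  have h6 : dev r (F n) (H n) 0 b ≤ s n / 4 := by
    unfold dev
    apply Rig.dQ_le hr0
    intro w hw
    show ‖H n (w + (0 + b)) - F n (w + 0)‖ ≤ s n / 4
    rw [zero_add, add_zero]
    exact key w hw
  linarith

end Pool.Agent.SR2.G
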