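import Pool.Agent.SR2.G.Cpt

/-!
# SR2 G Min: the constants, uniqueness of good shifts, the best shift (helper59)
-/

set_option autoImplicit false

open Topology Filter Metric

noncomputable section

namespace Pool.Agent.SR2.G


variable {V : Type} [NormedAddCommGroup V] [NormedSpace ℂ V] [CompleteSpace V] {KK : Set (ℂ → V)} {M γ L r b₀ c₁ C₂ ε₀ : ℝ}

theorem exists_cst (h : Sys KK M γ) (hL : 1 ≤ L) (hrL : L + 1 ≤ r) (hch : ∀ F ∈ KK, ‖F 0‖ ≤ M → ∃ z, IsChain M L F z) :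
    ∃ b₀ c₁ C₂ : ℝ, Cst KK M L r b₀ c₁ C₂ := by
  obtain ⟨C₂, hC₂, hlip⟩ := exists_lip h r (M + 1)
  obtain ⟨b₀, c₁, hb, hb', hc, hc', hinj⟩ := exists_inj h (M + 1)
  exact ⟨b₀, c₁, C₂, ⟨hL, hrL, hb, hb', hc, hc', hC₂, hch, hlip, hinj⟩⟩

private theorem le_dev {F H : ℂ → V} (hF : Continuous F) (hH : Continuous H) (a b : ℂ) {w : ℂ} (hw : ‖w‖ ≤ r) :
    ‖H (w + (a + b)) - F (w + a)‖ ≤ dev r F H a b :=
  le_dQ (F := sh a F) (H := sh (a + b) H) (hF.comp (continuous_id.add continuous_const))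
    (hH.comp (continuous_id.add continuous_const)) hw

/-- two good shifts are close -/
theorem uniq (h : Sys KK M γ) (hc : Cst KK M L r b₀ c₁ C₂) {F H : ℂ → V} (hF : F ∈ KK) (hH : H ∈ KK) {a b b' : ℂ} (ha : ‖F a‖ ≤ M)
    (h1 : dev r F H a b ≤ 1) (h3 : ‖b' - b‖ ≤ 4 * b₀) : c₁ * ‖b' - b‖ ≤ dev r F H a b + dev r F H a b' := by
  have hFc := (h.diff F hF).continuous
  have hHc := (h.diff H hH).continuous
  have hr1 : 1 ≤ r := by linarith [hc.L1, hc.rL]
  have hK0 : ‖sh (a + b) H 0‖ ≤ M + 1 := by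
    have := le_dev (r := r) hFc hHc a b (w := 0) (by rw [norm_zero]; linarith)
    simp only [zero_add] at this
    have e : sh (a + b) H 0 = F a + (H (a + b) - F a) := by simp [sh]
    rw [e]
    exact (norm_add_le _ _).trans (by linarith)
  obtain ⟨w, hw, hw'⟩ := hc.inj _ (h.shift H hH (a + b)) hK0 (b' - b) h3
  have e : sh (a + b) H (w + (b' - b)) - sh (a + b) H w
      = (H (w + (a + b')) - F (w + a)) - (H (w + (a + b)) - F (w + a)) := by
    simp only [sh]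
    rw [show w + (b' - b) + (a + b) = w + (a + b') by ring]
    abel
  rw [e] at hw'
  refine hw'.trans ((norm_sub_le _ _).trans ?_)
  have e1 := le_dev hFc hHc a b' (hw.trans hr1)
  have e2 := le_dev hFc hHc a b (hw.trans hr1)
  linarith

/-- the shifts at neighbouring indices are close -/
theorem step (h : Sys KK M γ) (hc : Cst KK M L r b₀ c₁ C₂) {F H : ℂ → V} (hF : F ∈ KK) (hH : H ∈ KK) {a a' b b' : ℂ} (ha' : ‖F a'‖ ≤ M)
    (haa : ‖a' - a‖ ≤ L) (h2 : dev r F H a' b' ≤ 1) (h3 : ‖b' - b‖ ≤ 4 * b₀) : c₁ * ‖b' - b‖ ≤ dev r F H a b + dev r F H a' b' := by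
  have hFc := (h.diff F hF).continuous
  have hHc := (h.diff H hH).continuous
  have hr1 : 1 ≤ r := by linarith [hc.L1, hc.rL]
  have hK0 : ‖sh (a' + b') H 0‖ ≤ M + 1 := by
    have := le_dev (r := r) hFc hHc a' b' (w := 0) (by rw [norm_zero]; linarith)
    simp only [zero_add] at this
    have e : sh (a' + b') H 0 = F a' + (H (a' + b') - F a') := by simp [sh]
    rw [e]
    exact (norm_add_le _ _).trans (by linarith)
  obtain ⟨w, hw, hw'⟩ := hc.inj _ (h.shift H hH (a' + b')) hK0 (b - b') (by rw [norm_sub_rev]; exact h3)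
  have e : sh (a' + b') H (w + (b - b')) - sh (a' + b') H w
      = (H ((w + (a' - a)) + (a + b)) - F ((w + (a' - a)) + a)) - (H (w + (a' + b')) - F (w + a')) := by
    simp only [sh]
    rw [show w + (b - b') + (a' + b') = (w + (a' - a)) + (a + b) by ring,
      show (w + (a' - a)) + a = w + a' by ring]
    abel
  rw [e, norm_sub_rev b b'] at hw'
  refine hw'.trans ((norm_sub_le _ _).trans ?_)
  have hw2 : ‖w + (a' - a)‖ ≤ r := (norm_add_le _ _).trans (by linarith [hc.rL])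
  have e1 := le_dev hFc hHc a b hw2
  have e2 := le_dev hFc hHc a' b' (hw.trans hr1)
  linarith

/-- the best shift near a good one -/
theorem exists_min (h : Sys KK M γ) (hc : Cst KK M L r b₀ c₁ C₂) {F H : ℂ → V} (hF : F ∈ KK) (hH : H ∈ KK) {a b : ℂ} (ha : ‖F a‖ ≤ M)
    (h1 : dev r F H a b ≤ c₁ * b₀ / 4) :
    ∃ b' : ℂ, c₁ * ‖b' - b‖ ≤ 2 * dev r F H a b ∧ dev r F H a b' ≤ dev r F H a b ∧ ∀ b'' : ℂ, ‖b'' - b'‖ ≤ b₀ → dev r F H a b' ≤ dev r F H a b'' := by
  have hFc := (h.diff F hF).continuous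
  have hHc := (h.diff H hH).continuous
  have hr0 : 0 ≤ r := by linarith [hc.L1, hc.rL]
  have hb0 := hc.b₀_pos
  have hc1 := hc.c₁_pos
  obtain ⟨b', hb', hmin⟩ := (isCompact_closedBall b (2 * b₀)).exists_isMinOn
    ⟨b, mem_closedBall_self (by linarith)⟩ (continuous_dev hr0 hFc hHc a).continuousOn
  have hle : dev r F H a b' ≤ dev r F H a b := hmin (mem_closedBall_self (by linarith))
  have hd1 : dev r F H a b ≤ 1 := by
    have h3 := hc.b₀_le
    have h4 := hc.c₁_le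
    nlinarith [mul_le_mul h4 h3 hb0.le zero_le_one]
  have hn : ‖b' - b‖ ≤ 2 * b₀ := by
    rw [mem_closedBall, dist_eq_norm] at hb'; exact hb'
  have hu := uniq h hc hF hH ha hd1 (b' := b') (by linarith)
  have hhalf : ‖b' - b‖ ≤ b₀ / 2 := by
    have : c₁ * ‖b' - b‖ ≤ c₁ * (b₀ / 2) := by linarith
    exact le_of_mul_le_mul_left this hc1
  refine ⟨b', by linarith, hle, ?_⟩
  intro b'' hb''
  apply hmin
  rw [mem_closedBall, dist_eq_norm]
  calc ‖b'' - b‖ = ‖(b'' - b') + (b' - b)‖ := by congr 1; ring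
    _ ≤ ‖b'' - b'‖ + ‖b' - b‖ := norm_add_le _ _
    _ ≤ 2 * b₀ := by linarith

end Pool.Agent.SR2.G
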