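import Pool.Agent.SR2.G.Min
import Pool.Agent.SR2.G.Chain

/-!
# SR2 G Fol: the difference along the chain
-/

set_option autoImplicit false

open Topology Filter Metric

noncomputable section

namespace Pool.Agent.SR2.G


variable {V : Type} [NormedAddCommGroup V] [NormedSpace ℂ V] [CompleteSpace V] {KK : Set (ℂ → V)} {M γ L r b₀ c₁ C₂ ε₀ : ℝ}

/-- a linear function is smaller than `exp (A (2 + x) ^ γ)` -/
theorem exists_lin_le {γ : ℝ} (hγ : 0 < γ) {B : ℝ} (hB : 0 ≤ B) : ∃ A : ℝ, 0 ≤ A ∧ ∀ x : ℝ, 0 ≤ x → 1 + B * x ≤ Real.exp (A * pw γ x) := by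
  refine ⟨Real.log (1 + B) + 1 / γ, add_nonneg (Real.log_nonneg (by linarith)) (by positivity), fun x hx => ?_⟩
  have h2 : (0 : ℝ) < 2 + x := by linarith
  have hy1 : 1 ≤ pw γ x := Real.one_le_rpow (by linarith) hγ.le
  have hy0 : 0 < pw γ x := by linarith
  have h3 : 1 + B * x ≤ (1 + B) * (2 + x) := by nlinarith
  refine h3.trans ?_
  have h4 : (1 + B) * (2 + x) = Real.exp (Real.log (1 + B) + Real.log (2 + x)) := by
    rw [Real.exp_add, Real.exp_log (by linarith), Real.exp_log h2]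
  rw [h4]
  refine Real.exp_le_exp.2 ?_
  have h5 : Real.log (pw γ x) = γ * Real.log (2 + x) := Real.log_rpow h2 γ
  have h6 : Real.log (pw γ x) ≤ pw γ x := by linarith [Real.log_le_sub_one_of_pos hy0]
  have h7 : Real.log (2 + x) ≤ 1 / γ * pw γ x := by
    rw [h5] at h6
    rw [one_div, inv_mul_eq_div, le_div_iff₀ hγ]
    linarith
  have h8 : Real.log (1 + B) ≤ Real.log (1 + B) * pw γ x := le_mul_of_one_le_right (Real.log_nonneg (by linarith)) hy1
  nlinarith

/-- The difference along the chain, from the deviations `dev ≤ s * e k` and the shifts.  (`e k` is the bound of the deviations in units of `s`.) -/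
theorem follow_bound (h : Sys KK M γ) (hc : Cst KK M L r b₀ c₁ C₂) :
    ∃ A : ℝ, 0 ≤ A ∧ ∀ F ∈ KK, ∀ H ∈ KK, ∀ (z b : ℤ → ℂ) (I : Set ℤ) (s : ℝ) (e : ℤ → ℝ), IsChain M L F z → b 0 = 0 → (0 : ℤ) ∈ I → I.OrdConnected →
      0 < s → (∀ i j : ℤ, |i| ≤ |j| → e i ≤ e j) → Track r b₀ 1 F H z b I → (∀ k ∈ I, dev r F H (z k) (b k) ≤ s * Real.exp (e k)) → (∀ k ∉ I, 1 ≤ s * Real.exp (e k)) →
      ∀ (k : ℤ) (w : ℂ), ‖w‖ ≤ r → ‖H (z k + w) - F (z k + w)‖ ≤ s * Real.exp (A * pw γ |(k : ℝ)| + e k) := by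
  have hc₁ := hc.c₁_pos
  have hC₂ := hc.C₂_ge
  have hL1 := hc.L1
  have hrL := hc.rL
  obtain ⟨A₀, hA₀, hgrow⟩ := chain_grow h L r (M + 1)
  set B : ℝ := 2 * C₂ / c₁ + 4 / c₁ + 2 with hB
  have hB0 : 0 ≤ B := by positivity
  obtain ⟨A₁, hA₁, hlin⟩ := exists_lin_le h.γ_pos hB0
  refine ⟨A₀ + A₁, by positivity, ?_⟩
  intro F hF H hH z b I s e hz hb0 hI0 hI hs hmono htr hdev hout k w hw
  have hFc : Continuous F := (h.diff F hF).continuous
  have hHc : Continuous H := (h.diff H hH).continuous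
  have hr0 : 0 ≤ r := by linarith
  have hpw : 0 ≤ pw γ |(k : ℝ)| := Real.rpow_nonneg (by linarith [abs_nonneg (k : ℝ)]) _
  set E : ℝ := s * Real.exp (e k) with hE
  have hE0 : 0 < E := by positivity
  have hgoal : s * Real.exp ((A₀ + A₁) * pw γ |(k : ℝ)| + e k) = E * (Real.exp (A₀ * pw γ |(k : ℝ)|) * Real.exp (A₁ * pw γ |(k : ℝ)|)) := by
    rw [hE, Real.exp_add, add_mul, Real.exp_add]
    ring
  rw [hgoal]
  have hx1 : 1 ≤ Real.exp (A₀ * pw γ |(k : ℝ)|) := Real.one_le_exp (by positivity)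
  have hx2 := hlin |(k : ℝ)| (abs_nonneg _)
  have hk0 : 0 ≤ |(k : ℝ)| := abs_nonneg _
  -- the value of `dev`
  have hdv : ∀ j, ∀ v : ℂ, ‖v‖ ≤ r → ‖H (v + (z j + b j)) - F (v + z j)‖ ≤ dev r F H (z j) (b j) := by
    intro j v hv
    exact le_dQ (F := sh (z j) F) (H := sh (z j + b j) H) (hFc.comp (continuous_id.add continuous_const))
      (hHc.comp (continuous_id.add continuous_const)) hv
  -- the growth bound
  have hH0 : ‖H 0‖ ≤ M + 1 := by
    have h1 := hdv 0 0 (by rw [norm_zero]; exact hr0)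
    rw [hb0, hz.zero] at h1
    simp only [add_zero] at h1
    have h2 : dev r F H 0 0 ≤ 1 := by
      have := htr.le 0 hI0
      rwa [hb0, hz.zero] at this
    have h3 : ‖F 0‖ ≤ M := by
      have := hz.good 0
      rwa [hz.zero] at this
    calc ‖H 0‖ = ‖(H 0 - F 0) + F 0‖ := by rw [sub_add_cancel]
      _ ≤ ‖H 0 - F 0‖ + ‖F 0‖ := norm_add_le _ _
      _ ≤ M + 1 := by linarith
  have hF0 : ‖F 0‖ ≤ M + 1 := by
    have := hz.good 0
    rw [hz.zero] at this
    linarith
  have hbig : ‖H (z k + w) - F (z k + w)‖ ≤ 2 * Real.exp (A₀ * pw γ |(k : ℝ)|) := by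
    have h1 := hgrow F hF H hH z hz hH0 k w hw
    have h2 := hgrow F hF F hF z hz hF0 k w hw
    exact (norm_sub_le _ _).trans (by linarith)
  by_cases hk : k ∈ I
  · -- the shift
    have hst : ∀ j : ℤ, j ∈ I → j + 1 ∈ I → |j| ≤ |k| → |j + 1| ≤ |k| → ‖b (j + 1) - b j‖ ≤ 2 / c₁ * E := by
      intro j hj hj1 ha ha1
      have h1 := step h hc hF hH (a := z j) (a' := z (j + 1)) (b := b j) (b' := b (j + 1)) (hz.good _) (hz.norm j) (htr.le _ hj1)
        ((htr.near j hj hj1).trans (by linarith [hc.b₀_pos]))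
      have h2 : dev r F H (z j) (b j) ≤ E := (hdev j hj).trans (mul_le_mul_of_nonneg_left (Real.exp_le_exp.2 (hmono _ _ ha)) hs.le)
      have h3 : dev r F H (z (j + 1)) (b (j + 1)) ≤ E := (hdev _ hj1).trans (mul_le_mul_of_nonneg_left (Real.exp_le_exp.2 (hmono _ _ ha1)) hs.le)
      rw [div_mul_eq_mul_div, le_div_iff₀ hc₁]
      linarith
    have hbk : ‖b k‖ ≤ 2 / c₁ * |(k : ℝ)| * E := by
      have hq : 0 ≤ 2 / c₁ * E := by positivity
      rcases le_total 0 k with hk' | hk'
      · have hind : ∀ n : ℕ, (n : ℤ) ≤ k → ‖b n‖ ≤ 2 / c₁ * n * E := by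
          intro n
          induction n with
          | zero =>
            intro _
            simp [hb0]
          | succ n ih =>
            intro hn
            have hn' : (n : ℤ) ≤ k := by push_cast at hn; omega
            have m1 : (n : ℤ) ∈ I := hI.out hI0 hk ⟨by omega, hn'⟩
            have m2 : (n : ℤ) + 1 ∈ I := hI.out hI0 hk ⟨by omega, by push_cast at hn; omega⟩
            have h1 := hst n m1 m2 (by rw [abs_of_nonneg (by omega), abs_of_nonneg hk']; exact hn')
              (by rw [abs_of_nonneg (by omega), abs_of_nonneg hk']; push_cast at hn; omega)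
            have h2 := ih hn'
            have h3 : ‖b ((n : ℤ) + 1)‖ ≤ ‖b n‖ + ‖b ((n : ℤ) + 1) - b n‖ := by
              calc ‖b ((n : ℤ) + 1)‖ = ‖b n + (b ((n : ℤ) + 1) - b n)‖ := by rw [add_sub_cancel]
                _ ≤ _ := norm_add_le _ _
            push_cast
            calc ‖b ((n : ℤ) + 1)‖ ≤ 2 / c₁ * n * E + 2 / c₁ * E := h3.trans (add_le_add h2 h1)
              _ = 2 / c₁ * (n + 1) * E := by ring
        have h1 := hind k.toNat (by rw [Int.toNat_of_nonneg hk'])
        have h2 : ((k.toNat : ℤ)) = k := Int.toNat_of_nonneg hk'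
        have h3 : ((k.toNat : ℝ)) = |(k : ℝ)| := by
          rw [abs_of_nonneg (by exact_mod_cast hk')]
          exact_mod_cast h2
        rw [h2, h3] at h1
        exact h1
      · have hind : ∀ n : ℕ, k ≤ -(n : ℤ) → ‖b (-(n : ℤ))‖ ≤ 2 / c₁ * n * E := by
          intro n
          induction n with
          | zero =>
            intro _
            simp [hb0]
          | succ n ih =>
            intro hn
            have hn' : k ≤ -(n : ℤ) := by push_cast at hn; omega
            have m1 : -(n : ℤ) ∈ I := hI.out hk hI0 ⟨hn', by omega⟩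
            have m2 : -(n : ℤ) - 1 ∈ I := hI.out hk hI0 ⟨by push_cast at hn; omega, by omega⟩
            have h1 := hst (-(n : ℤ) - 1) m2 (by rw [sub_add_cancel]; exact m1)
              (by rw [abs_of_nonpos (by omega), abs_of_nonpos hk']; push_cast at hn; omega)
              (by rw [sub_add_cancel, abs_of_nonpos (by omega), abs_of_nonpos hk']; omega)
            rw [sub_add_cancel] at h1
            have h2 := ih hn'
            have h3 : ‖b (-(n : ℤ) - 1)‖ ≤ ‖b (-(n : ℤ))‖ + ‖b (-(n : ℤ)) - b (-(n : ℤ) - 1)‖ := by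
              calc ‖b (-(n : ℤ) - 1)‖ = ‖b (-(n : ℤ)) - (b (-(n : ℤ)) - b (-(n : ℤ) - 1))‖ := by rw [sub_sub_cancel]
                _ ≤ _ := norm_sub_le _ _
            have e1 : (-((n + 1 : ℕ) : ℤ)) = -(n : ℤ) - 1 := by push_cast; ring
            rw [e1]
            push_cast
            calc ‖b (-(n : ℤ) - 1)‖ ≤ 2 / c₁ * n * E + 2 / c₁ * E := h3.trans (add_le_add h2 h1)
              _ = 2 / c₁ * (n + 1) * E := by ring
        have h2 : (((-k).toNat : ℤ)) = -k := Int.toNat_of_nonneg (by omega)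
        have h1 := hind (-k).toNat (by rw [h2]; omega)
        have h3 : (((-k).toNat : ℝ)) = |(k : ℝ)| := by
          rw [abs_of_nonpos (by exact_mod_cast hk')]
          exact_mod_cast h2
        rw [h2, h3, neg_neg] at h1
        exact h1
    rcases le_or_gt ‖b k‖ 1 with hb1 | hb1
    · -- small shift
      have hG : sh (z k + b k) H ∈ KK := h.shift H hH _
      have hG0 : ‖sh (z k + b k) H 0‖ ≤ M + 1 := by
        have h1 := hdv k 0 (by rw [norm_zero]; exact hr0)
        have h2 := htr.le k hk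
        have h3 := hz.good k
        rw [zero_add] at h1
        calc ‖sh (z k + b k) H 0‖ = ‖(H (0 + (z k + b k)) - F (z k)) + F (z k)‖ := by rw [sub_add_cancel]; rfl
          _ ≤ ‖H (0 + (z k + b k)) - F (z k)‖ + ‖F (z k)‖ := norm_add_le _ _
          _ ≤ M + 1 := by rw [zero_add] at h1 ⊢; linarith
      have h1 := hc.lip _ hG hG0 w (-b k) hw (by rw [norm_neg]; linarith)
      have e1 : sh (z k + b k) H (w + -b k) = H (z k + w) := by
        show H (w + -b k + (z k + b k)) = H (z k + w)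
        congr 1
        ring
      have e2 : sh (z k + b k) H w = H (w + (z k + b k)) := rfl
      rw [e1, e2, norm_neg] at h1
      have h2 := (hdv k w hw).trans (hdev k hk)
      have e3 : H (z k + w) - F (z k + w) = (H (z k + w) - H (w + (z k + b k))) + (H (w + (z k + b k)) - F (w + z k)) := by
        rw [add_comm (z k) w]
        abel
      rw [e3]
      refine (norm_add_le _ _).trans ?_
      have h3 : C₂ * ‖b k‖ ≤ C₂ * (2 / c₁ * |(k : ℝ)| * E) := mul_le_mul_of_nonneg_left hbk (by linarith)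
      have h4 : C₂ * (2 / c₁ * |(k : ℝ)| * E) + E ≤ E * (1 + B * |(k : ℝ)|) := by
        have h5 : C₂ * (2 / c₁ * |(k : ℝ)| * E) + E = E * (1 + (2 * C₂ / c₁) * |(k : ℝ)|) := by ring
        rw [h5]
        refine mul_le_mul_of_nonneg_left ?_ hE0.le
        have h6 : (2 * C₂ / c₁) * |(k : ℝ)| ≤ B * |(k : ℝ)| := by
          refine mul_le_mul_of_nonneg_right ?_ hk0
          rw [hB]
          have : 0 ≤ 4 / c₁ := by positivity
          linarith
        linarith
      have h5 : E * (1 + B * |(k : ℝ)|) ≤ E * (Real.exp (A₀ * pw γ |(k : ℝ)|) * Real.exp (A₁ * pw γ |(k : ℝ)|)) := by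
        refine mul_le_mul_of_nonneg_left ?_ hE0.le
        exact hx2.trans (le_mul_of_one_le_left (Real.exp_pos _).le hx1)
      have h6 : dev r F H (z k) (b k) ≤ E := hdev k hk
      have h7 := hdv k w hw
      linarith
    · -- large shift
      have h1 : 1 ≤ 2 / c₁ * |(k : ℝ)| * E := hb1.le.trans hbk
      have h2 : 2 * Real.exp (A₀ * pw γ |(k : ℝ)|) ≤ 2 * Real.exp (A₀ * pw γ |(k : ℝ)|) * (2 / c₁ * |(k : ℝ)| * E) :=
        le_mul_of_one_le_right (by positivity) h1
      refine hbig.trans (h2.trans ?_)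
      have h3 : 2 * Real.exp (A₀ * pw γ |(k : ℝ)|) * (2 / c₁ * |(k : ℝ)| * E) = E * (Real.exp (A₀ * pw γ |(k : ℝ)|) * (4 / c₁ * |(k : ℝ)|)) := by ring
      rw [h3]
      refine mul_le_mul_of_nonneg_left (mul_le_mul_of_nonneg_left ?_ (Real.exp_pos _).le) hE0.le
      refine le_trans ?_ hx2
      have h6 : (4 / c₁) * |(k : ℝ)| ≤ B * |(k : ℝ)| := by
        refine mul_le_mul_of_nonneg_right ?_ hk0
        rw [hB]
        have : 0 ≤ 2 * C₂ / c₁ := by positivity
        linarith
      linarith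
  · -- outside `I`
    have h1 : 1 ≤ E := hout k hk
    have hk1 : 1 ≤ |(k : ℝ)| := by
      have h2 : k ≠ 0 := fun h0 => hk (h0 ▸ hI0)
      have h3 : 1 ≤ |k| := Int.one_le_abs h2
      exact_mod_cast h3
    have h2 : (2 : ℝ) ≤ Real.exp (A₁ * pw γ |(k : ℝ)|) := by
      refine le_trans ?_ hx2
      have h4 : 2 ≤ B := by
        rw [hB]
        have : 0 ≤ 2 * C₂ / c₁ := by positivity
        have : 0 ≤ 4 / c₁ := by positivity
        linarith
      nlinarith
    refine hbig.trans ?_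
    have h3 : 2 * Real.exp (A₀ * pw γ |(k : ℝ)|) ≤ Real.exp (A₀ * pw γ |(k : ℝ)|) * Real.exp (A₁ * pw γ |(k : ℝ)|) := by
      rw [mul_comm]
      exact mul_le_mul_of_nonneg_left h2 (Real.exp_pos _).le
    exact h3.trans (le_mul_of_one_le_left (by positivity) h1)

end Pool.Agent.SR2.G
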