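import Pool.Agent.SR2.G.Rig
import Pool.Agent.SR2.G.DQ
import Pool.Agent.SR2.G.Chain
import Pool.Agent.SR2.G.Fol

/-!
# SR2 G Slow: there are no good indices

Translate to the index `n j`: `F j = sh (z (n j)) F`, `H j = sh (z (n j) + b (n j)) H`, `s j` = the deviation at `n j`; `follow_bound` with
`e k = ε j * min |k| (n j)` on `Ici (- n j)`, then `rig_false`.
-/

set_option autoImplicit false

open Topology Filter Metric

noncomputable section

namespace Pool.Agent.SR2.G

variable {V : Type} [NormedAddCommGroup V] [NormedSpace ℂ V] [CompleteSpace V] {KK : Set (ℂ → V)} {M γ L r b₀ c₁ C₂ ε₀ : ℝ}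

/-- there are no good indices -/
theorem not_slow (h : Sys KK M γ) (hc : Cst KK M L r b₀ c₁ C₂) (hr : Rigid KK M L r γ) {F H : ℂ → V} {z b : ℤ → ℂ}
    (hp : Asym KK M L r b₀ ε₀ F H z b) (he : ε₀ ≤ c₁ * b₀ / 4) (h0 : Tendsto (fun k : ℕ => dev r F H (z k) (b k)) atTop (𝓝 0)) {n : ℕ → ℕ} {ε : ℕ → ℝ} (hn : StrictMono n) (hε : ∀ j, 0 < ε j)
    (hεn : Tendsto (fun j => ε j * Real.log (n j)) atTop (𝓝 0))
    (h1 : ∀ j, Real.exp (-(ε j * n j)) ≤ dev r F H (z (n j)) (b (n j)))
    (h2 : ∀ j, ∀ i : ℕ, dev r F H (z i) (b i) ≤ dev r F H (z (n j)) (b (n j)) * Real.exp (ε j * |(i : ℝ) - n j|)) : False := by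
  obtain ⟨A, -, hA⟩ := follow_bound h hc
  have he1 : ε₀ ≤ 1 := by
    have a1 := hc.b₀_le
    have a2 := hc.c₁_le
    have a3 := hc.b₀_pos
    have a4 := hc.c₁_pos
    nlinarith
  have hdev : ∀ (j : ℕ) (k : ℤ), dev r (sh (z (n j)) F) (sh (z (n j) + b (n j)) H) (z (k + n j) - z (n j)) (b (k + n j) - b (n j)) =
      dev r F H (z (k + n j)) (b (k + n j)) := by
    intro j k
    rw [dev_sh', sub_add_cancel, sub_add_cancel]
  have hs : ∀ j, 0 < dev r F H (z (n j)) (b (n j)) := fun j => hp.pos _ (Int.natCast_nonneg _)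
  -- `1 ≤ s exp (ε n)`
  have hs1 : ∀ j, 1 ≤ dev r F H (z (n j)) (b (n j)) * Real.exp (ε j * n j) := by
    intro j
    have a1 := mul_le_mul_of_nonneg_right (h1 j) (Real.exp_pos (ε j * n j)).le
    rwa [← Real.exp_add, neg_add_cancel, Real.exp_zero] at a1
  refine rig_false (F := fun j => sh (z (n j)) F) (H := fun j => sh (z (n j) + b (n j)) H) (z := fun j k => z (k + n j) - z (n j))
    (s := fun j => dev r F H (z (n j)) (b (n j))) (ε := ε) (N := fun j => (n j : ℝ)) (A := A) h hc hr (hyperfilter ℕ) Nat.hyperfilter_le_atTop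
    (fun j => h.shift F hp.memF _) (fun j => h.shift H hp.memH _) (fun j => hp.chain.shift _) hs ?_ (fun j => (hε j).le) (fun j => Nat.cast_nonneg _) ?_ ?_ ?_
  · exact (h0.comp hn.tendsto_atTop).mono_left Nat.hyperfilter_le_atTop
  · -- `ε log (2 + n) → 0`
    refine Tendsto.mono_left ?_ Nat.hyperfilter_le_atTop
    have a1 : Tendsto (fun j => 2 * (ε j * Real.log (n j))) atTop (𝓝 0) := by simpa using hεn.const_mul 2
    refine squeeze_zero' (Eventually.of_forall fun j => mul_nonneg (hε j).le (Real.log_nonneg (by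
      have : (0 : ℝ) ≤ (n j : ℝ) := Nat.cast_nonneg _
      linarith))) ?_ a1
    filter_upwards [hn.tendsto_atTop.eventually_ge_atTop 2] with j hj
    have a2 : (2 : ℝ) ≤ (n j : ℝ) := by exact_mod_cast hj
    have a3 : Real.log (2 + n j) ≤ 2 * Real.log (n j) := by
      have a4 : (2 : ℝ) * Real.log (n j) = Real.log ((n j : ℝ) ^ 2) := by
        rw [Real.log_pow]
        norm_num
      rw [a4]
      exact Real.log_le_log (by linarith) (by nlinarith)
    calc ε j * Real.log (2 + n j) ≤ ε j * (2 * Real.log (n j)) := mul_le_mul_of_nonneg_left a3 (hε j).le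
      _ = 2 * (ε j * Real.log (n j)) := by ring
  · -- the bound
    intro j
    have hT : Track r b₀ 1 (sh (z (n j)) F) (sh (z (n j) + b (n j)) H) (fun k => z (k + n j) - z (n j)) (fun k => b (k + n j) - b (n j))
        (Set.Ici (-(n j : ℤ))) := by
      constructor
      · intro k hk
        have hk' : k + n j ∈ Set.Ici (0 : ℤ) := by
          rw [Set.mem_Ici] at hk ⊢
          linarith
        change dev r _ _ (z (k + n j) - z (n j)) (b (k + n j) - b (n j)) ≤ 1
        rw [hdev]
        exact (hp.track.le _ hk').trans he1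
      · intro k hk b' hb'
        have hk' : k + n j ∈ Set.Ici (0 : ℤ) := by
          rw [Set.mem_Ici] at hk ⊢
          linarith
        change dev r _ _ (z (k + n j) - z (n j)) (b (k + n j) - b (n j)) ≤ dev r _ _ (z (k + n j) - z (n j)) b'
        rw [hdev, dev_sh', sub_add_cancel]
        refine hp.track.min _ hk' _ ?_
        have a1 : b' + b (n j) - b (k + n j) = b' - (b (k + n j) - b (n j)) := by ring
        rw [a1]
        exact hb'
      · intro k hk hk1
        have hk' : k + n j ∈ Set.Ici (0 : ℤ) := by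
          rw [Set.mem_Ici] at hk ⊢
          linarith
        have hk1' : k + n j + 1 ∈ Set.Ici (0 : ℤ) := by
          rw [Set.mem_Ici] at hk1 ⊢
          linarith
        have a1 : b (k + 1 + n j) - b (n j) - (b (k + n j) - b (n j)) = b (k + n j + 1) - b (k + n j) := by
          rw [show k + 1 + (n j : ℤ) = k + n j + 1 by ring]
          ring
        change ‖b (k + 1 + n j) - b (n j) - (b (k + n j) - b (n j))‖ ≤ b₀
        rw [a1]
        exact hp.track.near _ hk' hk1'
    have hmono : ∀ i i' : ℤ, |i| ≤ |i'| → ε j * min |(i : ℝ)| (n j) ≤ ε j * min |(i' : ℝ)| (n j) := by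
      intro i i' hii
      have a1 : |(i : ℝ)| ≤ |(i' : ℝ)| := by exact_mod_cast hii
      exact mul_le_mul_of_nonneg_left (min_le_min_right _ a1) (hε j).le
    refine hA _ (h.shift F hp.memF _) _ (h.shift H hp.memH _) (fun k => z (k + n j) - z (n j)) (fun k => b (k + n j) - b (n j))
      (Set.Ici (-(n j : ℤ))) (dev r F H (z (n j)) (b (n j))) (fun k => ε j * min |(k : ℝ)| (n j)) (hp.chain.shift _) (by simp)
      (by simp) Set.ordConnected_Ici (hs j) hmono hT ?_ ?_
    · intro k hk
      rw [hdev]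
      rcases le_total |(k : ℝ)| (n j) with hkn | hkn
      · rw [min_eq_left hkn]
        obtain ⟨i, hi⟩ := Int.eq_ofNat_of_zero_le (a := k + n j) (by
          rw [Set.mem_Ici] at hk
          linarith)
        have a1 := h2 j i
        have a2 : (i : ℝ) - n j = k := by
          have a3 : ((k + n j : ℤ) : ℝ) = ((i : ℤ) : ℝ) := by rw [hi]
          push_cast at a3
          linarith
        rw [a2] at a1
        rw [hi]
        exact a1
      · rw [min_eq_right hkn]
        refine le_trans ?_ (hs1 j)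
        have hk' : k + n j ∈ Set.Ici (0 : ℤ) := by
          rw [Set.mem_Ici] at hk ⊢
          linarith
        exact (hp.track.le _ hk').trans he1
    · intro k hk
      have a1 : (n j : ℝ) ≤ |(k : ℝ)| := by
        rw [Set.mem_Ici, not_le] at hk
        have a2 : (k : ℝ) < -(n j : ℝ) := by exact_mod_cast hk
        have a3 := neg_le_abs (k : ℝ)
        linarith
      change 1 ≤ _ * Real.exp (ε j * min |(k : ℝ)| (n j))
      rw [min_eq_right a1]
      exact hs1 j
  · -- the minimality
    intro j b' hb'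
    have a1 := hp.track.min (n j) (Int.natCast_nonneg _) (b' + b (n j)) (by rwa [add_sub_cancel_right])
    have a2 : dev r (sh (z (n j)) F) (sh (z (n j) + b (n j)) H) 0 b' = dev r F H (z (n j)) (b' + b (n j)) := by
      rw [dev_sh', zero_add]
    change dev r F H (z (n j)) (b (n j)) / 2 ≤ dev r (sh (z (n j)) F) (sh (z (n j) + b (n j)) H) 0 b'
    rw [a2]
    have a3 := hs j
    linarith

end Pool.Agent.SR2.G
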