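import Pool.Agent.SR2.G.Chain
import Pool.Agent.SR2.G.Lim

/-!
# SR2 G Zero: the deviations of an asymptotic pair tend to zero

PROOF.  If not, there are indices `k n → ∞` with `dev ≥ δ`.  Translate to `k n`; `exists_lim` with `J n = {k | - k n ≤ k}`, `I = univ` and the
expansivity give `dev = 0` at `0`.
-/

set_option autoImplicit false

open Topology Filter Metric

noncomputable section

namespace Pool.Agent.SR2.G

variable {V : Type} [NormedAddCommGroup V] [NormedSpace ℂ V] [CompleteSpace V] {KK : Set (ℂ → V)} {M γ L r b₀ c₁ C₂ ε₀ : ℝ}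

theorem tendsto_zero (h : Sys KK M γ) (hc : Cst KK M L r b₀ c₁ C₂) (he : Expa KK M L r b₀ c₁ ε₀) {F H : ℂ → V} {z b : ℤ → ℂ}
    (hp : Asym KK M L r b₀ ε₀ F H z b) : Tendsto (fun k : ℕ => dev r F H (z k) (b k)) atTop (𝓝 0) := by
  by_contra hcon
  rw [Metric.tendsto_atTop] at hcon
  push Not at hcon
  obtain ⟨δ, hδ, hk⟩ := hcon
  choose k hk hkδ using hk
  have hkδ' : ∀ n, δ ≤ dev r F H (z (k n)) (b (k n)) := by
    intro n
    have h1 := hkδ n
    have h2 : 0 ≤ dev r F H (z (k n)) (b (k n)) := dQ_nonneg _ _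
    rw [dist_zero_right, Real.norm_eq_abs, abs_of_nonneg h2] at h1
    exact h1
  have hε : ε₀ ≤ 1 := by
    have h1 := he.le
    have h2 : c₁ * b₀ ≤ 1 * 1 := mul_le_mul hc.c₁_le (hc.b₀_le.trans (by norm_num)) hc.b₀_pos.le zero_le_one
    linarith
  obtain ⟨F₀, H₀, z₀, b', hF₀, hH₀, hz₀, hb'0, hT, hlim⟩ := exists_lim h hc (hyperfilter ℕ) Nat.hyperfilter_le_atTop hε
    (F := fun n => sh (z (k n)) F) (H := fun n => sh (z (k n) + b (k n)) H) (z := fun n j => z (j + k n) - z (k n)) (b := fun n j => b (j + k n) - b (k n))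
    (J := fun n => {j : ℤ | 0 ≤ j + k n}) (I := Set.univ)
    (fun n => h.shift F hp.memF _) (fun n => h.shift H hp.memH _) (fun n => IsChain.shift hp.chain (k n))
    (fun n => by simp) (fun n => by
      have e : ∀ (j : ℤ) (b' : ℂ), dev r (sh (z (k n)) F) (sh (z (k n) + b (k n)) H) (z (j + k n) - z (k n)) (b' - b (k n)) = dev r F H (z (j + k n)) b' := by
        intro j b'
        rw [dev_sh', sub_add_cancel, sub_add_cancel]
      refine ⟨fun j hj => ?_, fun j hj b' hb' => ?_, fun j hj hj1 => ?_⟩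
      · rw [e]
        exact hp.track.le _ hj
      · rw [e]
        have h1 := hp.track.min (j + k n) hj (b' + b (k n)) (by
          rw [show b' + b (k n) - b (j + k n) = b' - (b (j + k n) - b (k n)) by ring]
          exact hb')
        rwa [← e j (b' + b (k n)), add_sub_cancel_right] at h1
      · rw [show b (j + 1 + k n) - b (k n) - (b (j + k n) - b (k n)) = b (j + k n + 1) - b (j + k n) by
          rw [show j + 1 + (k n : ℤ) = j + k n + 1 by ring]; ring]
        exact hp.track.near _ hj (by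
          rw [show j + (k n : ℤ) + 1 = j + 1 + k n by ring]
          exact hj1))
    (fun n => by
      show (0 : ℤ) ≤ 0 + (k n : ℤ)
      omega) (Set.mem_univ _) Set.ordConnected_univ (fun j _ => by
      have h1 : ∀ᶠ n : ℕ in atTop, 0 ≤ j + (k n : ℤ) := by
        filter_upwards [eventually_ge_atTop (j.natAbs)] with n hn
        have h2 := hk n
        omega
      exact Nat.hyperfilter_le_atTop h1)
  have h0 := he.exp F₀ hF₀ H₀ hH₀ z₀ b' hz₀ hT 0
  have h1 := hlim 0 (Set.mem_univ _)
  rw [h0] at h1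
  have h2 : δ ≤ 0 := ge_of_tendsto' h1 fun n => by
    rw [dev_sh', sub_add_cancel, sub_add_cancel, zero_add]
    exact hkδ' n
  exact absurd hδ (not_lt.2 h2)

end Pool.Agent.SR2.G
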