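import Pool.Agent.SR2.G.Fast
import Pool.Agent.SR2.G.Neg
import Pool.Agent.SR2.G.Zero
import Pool.Agent.SR2.G.Slow
import Pool.Agent.SR2.G.Exit
import Pool.Agent.SR2.G.Exp
import Pool.Agent.SR2.G.Min
import Pool.Agent.SDR.Good

/-!
# SR2 G Per: the main theorem of block G
-/

set_option autoImplicit false
set_option linter.unusedSectionVars false

open Topology Filter Metric

noncomputable section

namespace Pool.Agent.SR2.G

variable {V : Type} [NormedAddCommGroup V] [NormedSpace ℂ V] [CompleteSpace V] {KK : Set (ℂ → V)} {M γ L r b₀ c₁ C₂ ε₀ : ℝ}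

/-- there are no asymptotic pairs -/
theorem not_asym (h : Sys KK M γ) (hc : Cst KK M L r b₀ c₁ C₂) (hr : Rigid KK M L r γ) (hl : LogI KK M L r) (he : Expa KK M L r b₀ c₁ ε₀)
    {F H : ℂ → V} {z b : ℤ → ℂ} (hp : Asym KK M L r b₀ ε₀ F H z b) : False := by
  have h0 := tendsto_zero h hc he hp
  have h1 : ∀ k : ℕ, 0 < dev r F H (z k) (b k) := fun k => hp.pos k (Int.natCast_nonneg k)
  have h2 : ∀ k : ℕ, dev r F H (z k) (b k) ≤ ε₀ := fun k => hp.track.le k (Int.natCast_nonneg k)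
  rcases Pool.Agent.SDR.decay_or_good h1 h2 with ⟨c, hc0, h3⟩ | ⟨n, ε, hn, hε, -, hεn, h3⟩
  · exact not_fast h hc hl hp he.le hc0 h3
  · exact not_slow h hc hr hp he.le h0 hn hε hεn (fun j => (h3 j).1) fun j => (h3 j).2

/-- **Main theorem of block G.** -/
theorem exists_periodic (h : Sys KK M γ) (hr : ∀ L : ℝ, ∃ r₀ : ℝ, ∀ r ≥ r₀, Rigid KK M L r γ)
    (hl : ∀ L : ℝ, ∃ r₀ : ℝ, ∀ r ≥ r₀, LogI KK M L r ∧ LogI (ng '' KK) M L r) : ∃ F ∈ KK, ∃ ω : ℂ, ω ≠ 0 ∧ ∀ z, F (z + ω) = F z := by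
  by_contra hno
  have hp : NoPer KK := by
    intro F hF ω hω
    by_contra h0
    exact hno ⟨F, hF, ω, h0, hω⟩
  obtain ⟨L, hL, hch⟩ := exists_chain h
  obtain ⟨r₀, h1⟩ := hr L
  obtain ⟨r₁, h2⟩ := hl L
  set r : ℝ := max (max r₀ r₁) (L + 1) with hrd
  have hR := h1 r ((le_max_left _ _).trans (le_max_left _ _))
  obtain ⟨hl1, hl2⟩ := h2 r ((le_max_right _ _).trans (le_max_left _ _))
  obtain ⟨b₀, c₁, C₂, hc⟩ := exists_cst (r := r) h hL (le_max_right _ _) hch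
  obtain ⟨ε₀, he⟩ := exists_expa h hc hR
  rcases exists_asym h hc he hp with ⟨F, H, z, b, ha⟩ | ⟨F, H, z, b, ha⟩
  · exact not_asym h hc hR hl1 he ha
  · exact not_asym h.neg hc.neg hR.neg hl2 he.neg ha

end Pool.Agent.SR2.G
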