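import Pool.Agent.SR2.G.ODefs

/-!
# SR2 G MemT: translations, rotations and the mirror image of the curves of the class
-/

set_option autoImplicit false

open Topology Filter Metric

noncomputable section

namespace Pool.Agent.SR2.G

open Pool.Agent.H36.BP (EN)
open Pool.Agent.SR2 (Geo)
open Pool.Agent.SR2.Geo (Gd)
open Pool.Agent.H14.PP (Tan)

variable {N : ℕ} {G : Geo N} {T : Set (EN N)} {rho : EN N → ℝ} {δ γ A' B : ℝ} {β β' : G.ι → ℝ} {q : G.J → ℂ} {F : ℂ → EN N} {𝒬 : Set (EN N → ℂ)}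

theorem cl_tan (hG : G.Ok) (h : G.Cl T q F) (z : ℂ) : Tan G.X (F z) (deriv F z) := by
  refine ⟨fun w => F (w + z), ⟨?_, ?_⟩, by simp, ?_⟩
  · exact ((h.ent.diff.comp (differentiable_id.add_const z)).analyticAt 0)
  · exact Eventually.of_forall fun w => ((hG.aff.mem _).1 (h.ent.mem _)).1
  · rw [deriv_comp_add_const]; simp

theorem cl_sh (h : G.Cl T q F) (a : ℂ) : G.Cl T q (sh a F) := by
  refine ⟨⟨h.ent.diff.comp (differentiable_id.add_const a), fun z => h.ent.mem _, ?_⟩, fun z => h.nm _, fun j z => ?_, h.one⟩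
  · obtain ⟨z, hz⟩ := h.ent.out
    exact ⟨z - a, by simpa [sh] using hz⟩
  · have h1 : deriv (sh a F) z = deriv F (z + a) := deriv_comp_add_const ..
    rw [h1]
    exact h.val j _

theorem mem_Gd_sh {a b : ℂ} : b ∈ Gd rho δ (sh a F) ↔ b + a ∈ Gd rho δ F := Iff.rfl

theorem mem_sh (hm : Mem G T rho δ γ A' B β β' q F) (a : ℂ) : Mem G T rho δ γ A' B β β' q (sh a F) := by
  obtain ⟨a₀, ha₀, hu, hβ, hf⟩ := hm.fits
  refine ⟨cl_sh hm.cl a, hm.sum, hm.sum', a₀ - a, ?_, hu, hβ, fun z _ i => ?_⟩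
  · rw [mem_Gd_sh, sub_add_cancel]
    exact ha₀
  · have h1 := hf (z + a) (Set.mem_univ _) i
    have h2 : z + a - a₀ = z - (a₀ - a) := by ring
    simp only [Pool.Agent.SR2.lin, Pool.Agent.SR2.yy, sh] at h1 ⊢
    rw [h2] at h1
    exact h1

theorem nq_rot {v : ℂ} (hv : ‖v‖ = 1) (q : G.J → ℂ) : G.nq (fun j => v ^ G.m j * q j) = G.nq q := by
  simp [Geo.nq, hv]

theorem cl_rot (hG : G.Ok) (h : G.Cl T q F) {v : ℂ} (hv : ‖v‖ = 1) : G.Cl T (fun j => v ^ G.m j * q j) (fun z => F (v * z)) := by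
  have hv0 : v ≠ 0 := by
    rintro rfl
    simp at hv
  refine ⟨⟨h.ent.diff.comp (differentiable_id.const_mul v), fun z => h.ent.mem _, ?_⟩, fun z => h.nm _, fun j z => ?_, ?_⟩
  · obtain ⟨z, hz⟩ := h.ent.out
    exact ⟨v⁻¹ * z, by simpa [mul_inv_cancel_left₀ hv0] using hz⟩
  · have h1 : deriv (fun z => F (v * z)) z = v • deriv F (v * z) := deriv_comp_mul_left v F z
    rw [h1, hG.w_hom j _ (h.ent.mem _) _ (cl_tan hG h _) v, h.val]
  · rw [nq_rot hv]
    exact h.one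

/-- rotate the line to the horizontal one -/
theorem exists_mem (hG : G.Ok) (hs : Str G T rho δ γ A' B) (h : G.Cl T q F) {a : ℂ} (ha : a ∈ Gd rho δ F) :
    ∃ (v : ℂ) (β β' : G.ι → ℝ), ‖v‖ = 1 ∧ Mem G T rho δ γ A' B β β' (fun j => v ^ G.m j * q j) (fun z => F (v * z)) := by
  obtain ⟨u, β, β', ⟨hu, hβ, hf⟩, h1, h2⟩ := hs.fits q F h a ha
  have hv : ‖star Complex.I * u‖ = 1 := by simp [hu]
  have hv0 : star Complex.I * u ≠ 0 := by
    intro h0
    rw [h0] at hv
    simp at hv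
  have huu : star u * u = 1 := by
    have h3 := Complex.conj_mul' u
    rw [hu] at h3
    simpa using h3
  refine ⟨star Complex.I * u, β, β', hv, cl_rot hG h hv, h1, h2, (star Complex.I * u)⁻¹ * a, ?_, by simp, hβ, fun z _ i => ?_⟩
  · show δ ≤ rho (F (star Complex.I * u * ((star Complex.I * u)⁻¹ * a)))
    rw [mul_inv_cancel_left₀ hv0]
    exact ha
  · have h3 := hf (star Complex.I * u * z) (Set.mem_univ _) i
    have h4 : star Complex.I * u * z - a = star Complex.I * u * (z - (star Complex.I * u)⁻¹ * a) := by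
      rw [mul_sub, mul_inv_cancel_left₀ hv0]
    have h5 : star u * (star Complex.I * u * z - a) = star Complex.I * (z - (star Complex.I * u)⁻¹ * a) := by
      rw [h4]
      calc star u * (star Complex.I * u * (z - (star Complex.I * u)⁻¹ * a))
          = (star u * u) * (star Complex.I * (z - (star Complex.I * u)⁻¹ * a)) := by ring
        _ = _ := by rw [huu, one_mul]
    have h6 : ‖star Complex.I * u * z - a‖ = ‖z - (star Complex.I * u)⁻¹ * a‖ := by
      rw [h4, norm_mul, hv, one_mul]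
    simp only [Pool.Agent.SR2.lin, Pool.Agent.SR2.yy] at h3 ⊢
    rw [h5, h6] at h3
    exact h3

theorem mem_ng (hG : G.Ok) (hm : Mem G T rho δ γ A' B β β' q F) : Mem G T rho δ γ A' B β' β (fun j => (-1) ^ G.m j * q j) (ng F) := by
  obtain ⟨a, ha, hu, hβ, hf⟩ := hm.fits
  have h1 : (fun z => F (-1 * z)) = ng F := by
    funext z
    simp [ng]
  refine ⟨?_, hm.sum', hm.sum, -a, ?_, hu, fun i => ⟨(hβ i).2, (hβ i).1⟩, fun z _ i => ?_⟩
  · rw [← h1]
    exact cl_rot hG hm.cl (by simp)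
  · show δ ≤ rho (F (- -a))
    rw [neg_neg]
    exact ha
  · have h3 := hf (-z) (Set.mem_univ _) i
    have h4 : -z - a = -(z - -a) := by ring
    simp only [Pool.Agent.SR2.lin, Pool.Agent.SR2.yy, ng] at h3 ⊢
    rw [h4, norm_neg, mul_neg, Complex.neg_re, neg_neg, add_comm (β i * _)] at h3
    exact h3

theorem ng_ng (F : ℂ → EN N) : ng (ng F) = F := by
  funext z
  simp [ng]

theorem ng_KF (hG : G.Ok) : ng '' KF G T rho δ γ A' B β β' q 𝒬 = KF G T rho δ γ A' B β' β (fun j => (-1) ^ G.m j * q j) 𝒬 := by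
  ext H
  constructor
  · rintro ⟨F, ⟨hF, hQ⟩, rfl⟩
    refine ⟨mem_ng hG hF, fun Q hQ' => ?_⟩
    obtain ⟨z, hz⟩ := hQ Q hQ'
    exact ⟨-z, by simpa [ng] using hz⟩
  · rintro ⟨hH, hQ⟩
    refine ⟨ng H, ⟨?_, fun Q hQ' => ?_⟩, ng_ng H⟩
    · have h1 := mem_ng hG hH
      have h2 : (fun j => (-1 : ℂ) ^ G.m j * ((-1) ^ G.m j * q j)) = q := by
        funext j
        rw [← mul_assoc, ← mul_pow]
        simp
      rw [h2] at h1
      exact h1
    · obtain ⟨z, hz⟩ := hQ Q hQ'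
      exact ⟨-z, by simpa [ng] using hz⟩

theorem cl_deriv_ne (hG : G.Ok) (h : G.Cl T q F) (z : ℂ) : deriv F z ≠ 0 := by
  intro h0
  have h1 : ∀ j, q j = 0 := fun j => by
    have h2 := hG.w_hom j _ (h.ent.mem z) _ (cl_tan hG h z) 0
    rw [h0, smul_zero, zero_pow (by have := hG.one_m j; omega), zero_mul, ← h0, h.val] at h2
    exact h2
  have h2 := h.one
  have h3 : G.nq q = 0 := by
    refine Finset.sum_eq_zero fun j _ => ?_
    rw [h1 j, norm_zero, Real.zero_rpow]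
    have := hG.one_m j
    positivity
  rw [h3] at h2
  exact zero_ne_one h2

end Pool.Agent.SR2.G
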