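import Pool.Agent.SR2.G.ODefs
import Pool.Agent.SR2.G.FitU
import Pool.Agent.SR2.G.MemT
import Pool.Agent.SR2.G.MemG
import Pool.Agent.SR2.G.Lim

/-!
# SR2 G MemC: compactness of the families of curves of the class
-/

set_option autoImplicit false

open Topology Filter Metric

noncomputable section

namespace Pool.Agent.SR2.G

open Pool.Agent.H36.BP (EN)
open Pool.Agent.SR2 (Geo)
open Pool.Agent.SR2.Geo (Gd)

variable {N : ℕ}

/-- translations which converge -/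
theorem tlu_shift {V : Type} [NormedAddCommGroup V] {l : Filter ℕ} {F : ℕ → ℂ → V} {H : ℂ → V} (hH : Continuous H)
    (hF : TendstoLocallyUniformlyOn F H l Set.univ) {b : ℕ → ℂ} {b₀ : ℂ} (hb : Tendsto b l (𝓝 b₀)) :
    TendstoLocallyUniformlyOn (fun k z => F k (z + b k)) (fun z => H (z + b₀)) l Set.univ := by
  rw [Metric.tendstoLocallyUniformlyOn_iff] at hF ⊢
  intro ε hε x _
  obtain ⟨t, ht, ht'⟩ := hF (ε / 2) (by positivity) (x + b₀) (Set.mem_univ _)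
  rw [nhdsWithin_univ] at ht
  have h1 : ∀ᶠ y in 𝓝 (x + b₀), dist (H y) (H (x + b₀)) < ε / 4 := Metric.tendsto_nhds.1 hH.continuousAt (ε / 4) (by positivity)
  obtain ⟨ρ, hρ, hρt⟩ := Metric.mem_nhds_iff.1 (inter_mem ht h1)
  refine ⟨ball x (ρ / 2), ?_, ?_⟩
  · rw [nhdsWithin_univ]
    exact ball_mem_nhds x (by positivity)
  · filter_upwards [ht', Metric.tendsto_nhds.1 hb (ρ / 2) (by positivity)] with k hk hbk y hy
    have h2 : y + b k ∈ ball (x + b₀) ρ := by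
      rw [mem_ball, dist_eq_norm]
      have h3 : y + b k - (x + b₀) = (y - x) + (b k - b₀) := by ring
      rw [h3]
      refine (norm_add_le _ _).trans_lt ?_
      rw [mem_ball, dist_eq_norm] at hy
      rw [dist_eq_norm] at hbk
      linarith
    have h4 : y + b₀ ∈ ball (x + b₀) ρ := by
      rw [mem_ball, dist_eq_norm]
      have h3 : y + b₀ - (x + b₀) = y - x := by ring
      rw [h3]
      rw [mem_ball, dist_eq_norm] at hy
      linarith
    have h5 := (hρt h2).2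
    have h6 := (hρt h4).2
    have h7 := hk _ (hρt h2).1
    have h8 : dist (H (y + b₀)) (H (y + b k)) < ε / 2 := by
      refine (dist_triangle_right _ _ (H (x + b₀))).trans_lt ?_
      have h5' : dist (H (y + b k)) (H (x + b₀)) < ε / 4 := h5
      have h6' : dist (H (y + b₀)) (H (x + b₀)) < ε / 4 := h6
      linarith
    refine (dist_triangle _ (H (y + b k)) _).trans_lt ?_
    linarith

variable {G : Geo N} {T : Set (EN N)} {rho : EN N → ℝ} {δ γ A' B : ℝ} {β β' : G.ι → ℝ} {q : G.J → ℂ} {F : ℂ → EN N} {𝒬 : Set (EN N → ℂ)}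

private theorem memC_lam (hG : G.Ok) (i : G.ι) {x : EN N} (hx : x ∈ G.K) : ContinuousAt (G.lam i) x := by
  have h1 : x ≠ 0 := fun h => hG.cone.zero_notMem (h ▸ ((hG.aff.mem x).1 hx).1)
  have h2 : ContinuousAt (fun x : EN N => Real.log ‖x‖) x := (continuous_norm.continuousAt).log (norm_ne_zero_iff.2 h1)
  have h3 : ContinuousAt (fun x : EN N => Real.log ‖G.E i x‖) x :=
    ((hG.anE i x).continuousAt.norm).log (norm_ne_zero_iff.2 (hG.neE i x hx))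
  exact (continuousAt_const.mul h2).sub h3

theorem mem_cpt (hG : G.Ok) (hf : Facts G T rho δ γ A' B) {𝒰 : Ultrafilter ℕ} (h𝒰 : (𝒰 : Filter ℕ) ≤ atTop) {B₁ : ℝ} {F : ℕ → ℂ → EN N}
    (hF : ∀ k, Mem G T rho δ γ A' B β β' q (F k)) (h0 : ∀ k, ‖F k 0‖ ≤ B₁) :
    ∃ H, Mem G T rho δ γ A' B β β' q H ∧ TendstoLocallyUniformlyOn F H 𝒰 Set.univ := by
  obtain ⟨R, hR0, hR⟩ := exists_good_near hf B₁
  choose a ha haR using fun k => hR q (F k) (hF k).cl (h0 k)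
  obtain ⟨a₀, ha₀⟩ := lim_exists (𝒰 := 𝒰) (f := a) (R := R) (Eventually.of_forall haR)
  have h1 : ∀ k, δ ≤ rho (sh (a k) (F k) 0) := by
    intro k
    show δ ≤ rho (F k (0 + a k))
    rw [zero_add]
    exact ha k
  obtain ⟨q', H₀, hH₀, hq', hδ, hlim⟩ := hf.cpt 𝒰 h𝒰 (fun _ => q) (fun k => sh (a k) (F k)) (fun k => cl_sh (hF k).cl (a k)) h1
  have hqq : q' = q := (tendsto_nhds_unique hq' tendsto_const_nhds)
  subst hqq
  have hHc : Continuous H₀ := hH₀.ent.diff.continuous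
  have h2 : TendstoLocallyUniformlyOn F (sh (-a₀) H₀) 𝒰 Set.univ := by
    have h3 := tlu_shift hHc hlim (b := fun k => -a k) (b₀ := -a₀) ha₀.neg
    refine h3.congr fun k => ?_
    intro z _
    show F k (z + -a k + a k) = F k z
    rw [neg_add_cancel_right]
  have hHcl : G.Cl T q' (sh (-a₀) H₀) := cl_sh hH₀ (-a₀)
  have hHc' : Continuous (sh (-a₀) H₀) := hHcl.ent.diff.continuous
  refine ⟨sh (-a₀) H₀, ⟨hHcl, (hF 0).sum, (hF 0).sum', a₀, ?_, ?_⟩, h2⟩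
  · show δ ≤ rho (H₀ (a₀ + -a₀))
    rw [add_neg_cancel]
    exact hδ
  · have h4 : ∀ k, G.Fits (F k) (a k) Complex.I β β' (fun z => B * Pool.Agent.SR2.pw γ ‖z - a k‖) Set.univ := fun k => fits_all hf.str (hF k) (ha k)
    refine ⟨(h4 0).1, (h4 0).2.1, fun z _ i => ?_⟩
    have h5 : Tendsto (fun k => F k z) 𝒰 (𝓝 (sh (-a₀) H₀ z)) := h2.tendsto_at (Set.mem_univ z)
    have h6 : Tendsto (fun k => G.lam i (F k z)) 𝒰 (𝓝 (G.lam i (sh (-a₀) H₀ z))) := (memC_lam hG i (hHcl.ent.mem z)).tendsto.comp h5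
    have h7 : Continuous fun b : ℂ => lin Complex.I b (β i) (β' i) z := by
      unfold lin yy
      fun_prop
    have h8 : Tendsto (fun k => |G.lam i (F k z) - lin Complex.I (a k) (β i) (β' i) z|) 𝒰
        (𝓝 |G.lam i (sh (-a₀) H₀ z) - lin Complex.I a₀ (β i) (β' i) z|) := (h6.sub (h7.continuousAt.tendsto.comp ha₀)).abs
    have h9 : Continuous fun b : ℂ => B * Pool.Agent.SR2.pw γ ‖z - b‖ := by
      unfold Pool.Agent.SR2.pw
      refine continuous_const.mul (Continuous.rpow_const (by fun_prop) fun b => Or.inl ?_)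
      have := norm_nonneg (z - b)
      positivity
    exact le_of_tendsto_of_tendsto' h8 (h9.continuousAt.tendsto.comp ha₀) fun k => (h4 k).2.2 z (Set.mem_univ z) i

/-- also used in `Cov` -/
theorem cl_out (hf : Facts G T rho δ γ A' B) {T' : Set (EN N)} {rho' : EN N → ℝ} {δ' : ℝ} (h' : Facts' G T rho δ T' rho' δ') {𝒰 : Ultrafilter ℕ}
    (h𝒰 : (𝒰 : Filter ℕ) ≤ atTop) {B₁ : ℝ} {q : ℕ → G.J → ℂ} {F : ℕ → ℂ → EN N} {H : ℂ → EN N} (hF : ∀ k, G.Cl T (q k) (F k)) (hF' : ∀ k, ∃ z, F k z ∉ T')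
    (h0 : ∀ k, ‖F k 0‖ ≤ B₁) (hH : TendstoLocallyUniformlyOn F H 𝒰 Set.univ) : ∃ z, H z ∉ T' := by
  obtain ⟨R, hR0, hR⟩ := exists_good_near hf B₁
  choose a ha haR using fun k => hR (q k) (F k) (hF k) (h0 k)
  obtain ⟨R', hR'⟩ := h'.dense'
  have hcl : ∀ k, G.Cl T' (q k) (F k) := fun k => ⟨⟨(hF k).ent.diff, (hF k).ent.mem, hF' k⟩, (hF k).nm, (hF k).val, (hF k).one⟩
  choose b hb hab using fun k => hR' (q k) (F k) (hcl k) (a k) (ha k)
  have hbR : ∀ k, ‖b k‖ ≤ R + R' := by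
    intro k
    have h1 : b k = a k - (a k - b k) := by ring
    rw [h1]
    refine (norm_sub_le _ _).trans (add_le_add (haR k) ?_)
    rw [← dist_eq_norm]
    exact hab k
  obtain ⟨b₀, hb₀⟩ := lim_exists (𝒰 := 𝒰) (f := b) (R := R + R') (Eventually.of_forall hbR)
  have h1 : ∀ k, δ' ≤ rho' (sh (b k) (F k) 0) := by
    intro k
    show δ' ≤ rho' (F k (0 + b k))
    rw [zero_add]
    exact hb k
  obtain ⟨q', H₀, hH₀, -, -, hlim⟩ := h'.cpt 𝒰 h𝒰 q (fun k => sh (b k) (F k)) (fun k => cl_sh (hcl k) (b k)) h1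
  obtain ⟨z, hz⟩ := hH₀.ent.out
  have hHc : Continuous H := by
    rw [← continuousOn_univ]
    refine hH.continuousOn (Frequently.of_forall fun k => (hF k).ent.diff.continuous.continuousOn)
  have h2 : Tendsto (fun k => F k (z + b k)) 𝒰 (𝓝 (H (z + b₀))) := lim_apply hHc hH (tendsto_const_nhds.add hb₀)
  have h3 : Tendsto (fun k => F k (z + b k)) 𝒰 (𝓝 (H₀ z)) := hlim.tendsto_at (Set.mem_univ z)
  refine ⟨z + b₀, ?_⟩
  rw [tendsto_nhds_unique h2 h3]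
  exact hz

theorem KF_cpt (hG : G.Ok) (hf : Facts G T rho δ γ A' B) (hq : HFacts G T rho δ 𝒬) {𝒰 : Ultrafilter ℕ} (h𝒰 : (𝒰 : Filter ℕ) ≤ atTop) {B₁ : ℝ}
    {F : ℕ → ℂ → EN N} (hF : ∀ k, F k ∈ KF G T rho δ γ A' B β β' q 𝒬) (h0 : ∀ k, ‖F k 0‖ ≤ B₁) :
    ∃ H ∈ KF G T rho δ γ A' B β β' q 𝒬, TendstoLocallyUniformlyOn F H 𝒰 Set.univ := by
  obtain ⟨H, hH, hlim⟩ := mem_cpt hG hf h𝒰 (fun k => (hF k).1) h0
  refine ⟨H, ⟨hH, fun R hR => ?_⟩, hlim⟩
  obtain ⟨Q, hQ, hRQ, -, rho', δ', h'⟩ := hq R hR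
  obtain ⟨z, hz⟩ := cl_out hf h' h𝒰 (q := fun _ => q) (fun k => (hF k).1.cl) (fun k => by
    obtain ⟨z, hz⟩ := (hF k).2 Q hQ
    exact ⟨z, fun h => hz h.2⟩) h0 hlim
  refine ⟨z, fun h => hz ⟨((hG.aff.mem _).1 (hH.cl.ent.mem z)).1, hRQ _ h⟩⟩

end Pool.Agent.SR2.G
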