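import Pool.Agent.SR2.G.MemS
import Pool.Agent.SR2.G.Per
import Pool.Agent.SR2.G.LogF
import Pool.Agent.SR2.G.Cov
import Pool.Agent.SR2.G.RigF

/-!
# SR2 G OneF: one form kills the class
-/

set_option autoImplicit false
set_option linter.unusedSectionVars false

open Topology Filter Metric

noncomputable section

namespace Pool.Agent.SR2.G

open Pool.Agent.H36.BP (EN)
open Pool.Agent.SR2 (Geo)
open Pool.Agent.SR2.Geo (Gd)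

variable {N : ℕ} {G : Geo N} {T : Set (EN N)} {rho : EN N → ℝ} {δ γ A' B : ℝ} {𝒬 : Set (EN N → ℂ)}

/-- every member of the class is degenerate -/
theorem cover_of (hG : G.Ok) (hf : Facts G T rho δ γ A' B) (ht : TubeBd G T rho δ γ A' B) (hr : RigidF G T) (hp : FirstP G T rho δ γ A' B)
    (hq : HFacts G T rho δ 𝒬)
    (hper : ∀ (q : G.J → ℂ) (F : ℂ → EN N) (ω : ℂ), G.Cl T q F → ω ≠ 0 → (∀ z, F (z + ω) = F z) →
      (∃ B : ℝ, ∀ z, Real.log ‖F z‖ ≤ B * (1 + ‖z‖)) → ∃ Q ∈ 𝒬, ∀ z, Q (F z) = 0)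
    (q : G.J → ℂ) (F : ℂ → EN N) (hF : G.Cl T q F) : ∃ Q ∈ 𝒬, ∀ z, Q (F z) = 0 := by
  by_contra hno
  push Not at hno
  obtain ⟨a, ha⟩ := hf.good q F hF
  obtain ⟨v, β, β', hv, hm⟩ := exists_mem hG hf.str hF ha
  have hv0 : v ≠ 0 := by
    intro h0
    rw [h0, norm_zero] at hv
    exact zero_ne_one hv
  have hne : (KF G T rho δ γ A' B β β' (fun j => v ^ G.m j * q j) 𝒬).Nonempty := by
    refine ⟨_, hm, fun Q hQ => ?_⟩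
    obtain ⟨z, hz⟩ := hno Q hQ
    refine ⟨v⁻¹ * z, ?_⟩
    show Q (F (v * (v⁻¹ * z))) ≠ 0
    rwa [mul_inv_cancel_left₀ hv0]
  obtain ⟨M₀, hS⟩ := KF_sys hG hf hq hne
  obtain ⟨H, hH, ω, hω, h1⟩ := exists_periodic hS (fun L => KF_rigid hG hf hq ht hr M₀ L) fun L => by
    obtain ⟨r₀, h2⟩ := KF_logI (β := β) (β' := β') (q := fun j => v ^ G.m j * q j) (𝒬 := 𝒬) hG hf hp M₀ L
    obtain ⟨r₁, h3⟩ := KF_logI (β := β') (β' := β) (q := fun j => (-1) ^ G.m j * (v ^ G.m j * q j)) (𝒬 := 𝒬) hG hf hp M₀ L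
    refine ⟨max r₀ r₁, fun r hr => ⟨h2 r ((le_max_left _ _).trans hr), ?_⟩⟩
    rw [ng_KF hG]
    exact h3 r ((le_max_right _ _).trans hr)
  obtain ⟨B₁, hB1, h2⟩ := hf.growth
  obtain ⟨b, hb⟩ := hf.good _ H hH.1.cl
  obtain ⟨Q, hQ, h3⟩ := hper _ H ω hH.1.cl hω h1 ⟨B₁ * (1 + ‖b‖), fun z => by
    refine (h2 _ H hH.1.cl z).trans ?_
    have h4 : infDist z (Gd rho δ H) ≤ dist z b := infDist_le_dist_of_mem hb
    have h5 : dist z b ≤ ‖z‖ + ‖b‖ := by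
      rw [dist_eq_norm]
      exact norm_sub_le _ _
    have h6 : B₁ * (1 + infDist z (Gd rho δ H)) ≤ B₁ * (1 + (‖z‖ + ‖b‖)) := mul_le_mul_of_nonneg_left (by linarith) hB1
    refine h6.trans ?_
    rw [mul_assoc]
    refine mul_le_mul_of_nonneg_left ?_ hB1
    nlinarith [norm_nonneg z, norm_nonneg b]⟩
  obtain ⟨z, hz⟩ := hH.2 Q hQ
  exact hz (h3 z)

theorem one_form_of (hG : G.Ok) (hf : Facts G T rho δ γ A' B) (ht : TubeBd G T rho δ γ A' B) (hr : RigidF G T) (hp : FirstP G T rho δ γ A' B)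
    (hne : 𝒬.Nonempty) (hmul : ∀ Q ∈ 𝒬, ∀ Q' ∈ 𝒬, (fun x => Q x * Q' x) ∈ 𝒬) (hq : HFacts G T rho δ 𝒬)
    (hper : ∀ (q : G.J → ℂ) (F : ℂ → EN N) (ω : ℂ), G.Cl T q F → ω ≠ 0 → (∀ z, F (z + ω) = F z) →
      (∃ B : ℝ, ∀ z, Real.log ‖F z‖ ≤ B * (1 + ‖z‖)) → ∃ Q ∈ 𝒬, ∀ z, Q (F z) = 0) :
    ∃ Q ∈ 𝒬, ∀ (q : G.J → ℂ) (F : ℂ → EN N), G.Cl T q F → ∀ z, Q (F z) = 0 :=
  finite_cover hG hf hq hne hmul fun q F hF => cover_of hG hf ht hr hp hq hper q F hF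

end Pool.Agent.SR2.G
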