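import Pool.Agent.SR2.G.Min
import Pool.Agent.SR2.G.Chain

/-!
# SR2 G Ext: following a close pair of curves to the right
-/

set_option autoImplicit false

open Topology Filter Metric

noncomputable section

namespace Pool.Agent.SR2.G

variable {V : Type} [NormedAddCommGroup V] [NormedSpace ℂ V] [CompleteSpace V] {KK : Set (ℂ → V)} {M γ L r b₀ c₁ C₂ ε₀ : ℝ}

/-- Start with two close curves and follow them to the right: either for ever, or until an exit at an index `T > n`. -/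
theorem exists_fwd (h : Sys KK M γ) (hc : Cst KK M L r b₀ c₁ C₂) (he : 0 < ε₀) (he' : ε₀ ≤ c₁ * b₀ / 4) :
    ∃ ε₃ : ℝ, 0 < ε₃ ∧ ε₃ ≤ ε₀ ∧ ∀ n : ℕ, ∃ δ : ℝ, 0 < δ ∧ ∀ F ∈ KK, ∀ H ∈ KK, ∀ z, IsChain M L F z → dQ r F H ≤ δ → ∃ b : ℕ → ℂ,
      ‖b 0‖ ≤ b₀ ∧ dev r F H 0 (b 0) ≤ ε₃ ∧ (∀ b' : ℂ, ‖b' - b 0‖ ≤ b₀ → dev r F H 0 (b 0) ≤ dev r F H 0 b') ∧
      ((∀ k : ℕ, dev r F H (z k) (b k) ≤ ε₃ ∧ (∀ b' : ℂ, ‖b' - b k‖ ≤ b₀ → dev r F H (z k) (b k) ≤ dev r F H (z k) b') ∧ ‖b (k + 1) - b k‖ ≤ b₀) ∨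
      ∃ T : ℕ, n < T ∧ ε₃ < dev r F H (z T) (b T) ∧ ∀ k ≤ T, dev r F H (z k) (b k) ≤ ε₀ ∧
        (∀ b' : ℂ, ‖b' - b k‖ ≤ b₀ → dev r F H (z k) (b k) ≤ dev r F H (z k) b') ∧ (k < T → ‖b (k + 1) - b k‖ ≤ b₀)) := by
  have hL1 := hc.L1
  have hr : 0 < r := by linarith [hc.rL]
  have hb0 := hc.b₀_pos
  have hc1 := hc.c₁_pos
  have hcb : 0 < c₁ * b₀ / 4 := by positivity
  obtain ⟨ε₁, hε₁, hprop⟩ := exists_prop h hr M (r + L) he
  refine ⟨min ε₁ ε₀, lt_min hε₁ he, min_le_right _ _, fun n => ?_⟩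
  obtain ⟨ε₃, hε₃⟩ : ∃ ε₃ : ℝ, ε₃ = min ε₁ ε₀ := ⟨_, rfl⟩
  rw [← hε₃]
  have hε₃0 : 0 < ε₃ := hε₃ ▸ lt_min hε₁ he
  have hε₃1 : ε₃ ≤ ε₁ := hε₃ ▸ min_le_left _ _
  have hε₃2 : ε₃ ≤ ε₀ := hε₃ ▸ min_le_right _ _
  have hε₃3 : ε₃ ≤ c₁ * b₀ / 4 := hε₃2.trans he'
  obtain ⟨δ, hδ, hpropn⟩ := exists_prop h hr M (r + L * n) hε₃0
  refine ⟨δ, hδ, fun F hF H hH z hz hd => ?_⟩
  have hc1b : c₁ * b₀ / 4 ≤ 1 := by
    have h1 : c₁ * b₀ ≤ 1 * (1 / 8) := mul_le_mul hc.c₁_le hc.b₀_le hb0.le zero_le_one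
    linarith
  -- the deviations with the shift `0` are small at the indices `k ≤ n`
  have hF0 : ‖F 0‖ ≤ M := by
    have h1 := hz.good 0
    rwa [hz.zero] at h1
  have hzn : ∀ k : ℕ, ‖z k‖ ≤ L * k := fun k => by
    have h1 := hz.norm_le k
    rwa [Int.cast_natCast, abs_of_nonneg (Nat.cast_nonneg k)] at h1
  have hsmall : ∀ k : ℕ, k ≤ n → dev r F H (z k) 0 ≤ ε₃ := fun k hk => by
    refine dQ_le hr.le fun w hw => ?_
    have h1 : ‖w + z k‖ ≤ r + L * n := by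
      refine (norm_add_le _ _).trans (add_le_add hw ((hzn k).trans ?_))
      exact mul_le_mul_of_nonneg_left (Nat.cast_le.2 hk) (by linarith)
    have h2 := hpropn F hF H hH hF0 hd (w + z k) h1
    simpa only [sh, add_zero] using h2
  -- one step
  have hstep : ∀ (k : ℕ) (b : ℂ), dev r F H (z k) b ≤ ε₃ → ∃ b' : ℂ, c₁ * ‖b' - b‖ ≤ c₁ * b₀ / 2 ∧ dev r F H (z (k + 1 : ℕ)) b' ≤ ε₀ ∧
      ∀ b'' : ℂ, ‖b'' - b'‖ ≤ b₀ → dev r F H (z (k + 1 : ℕ)) b' ≤ dev r F H (z (k + 1 : ℕ)) b'' := by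
    intro k b hb
    have h1 : dev r F H (z (k + 1 : ℕ)) b ≤ ε₀ := by
      refine dQ_le hr.le fun w hw => ?_
      have h2 : ‖w + (z (k + 1 : ℕ) - z k)‖ ≤ r + L := by
        refine (norm_add_le _ _).trans (add_le_add hw ?_)
        have h3 := hz.norm k
        push_cast
        exact h3
      have h3 := hprop (sh (z k) F) (h.shift F hF _) (sh (z k + b) H) (h.shift H hH _) (by simpa only [sh, zero_add] using hz.good k) (hb.trans hε₃1)
        (w + (z (k + 1 : ℕ) - z k)) h2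
      simp only [sh] at h3 ⊢
      have e1 : w + (z (k + 1 : ℕ) - z k) + (z k + b) = w + (z (k + 1 : ℕ) + b) := by ring
      have e2 : w + (z (k + 1 : ℕ) - z k) + z k = w + z (k + 1 : ℕ) := by ring
      rw [e1, e2] at h3
      exact h3
    obtain ⟨b', hb1, hb2, hb3⟩ := exists_min h hc hF hH (hz.good (k + 1 : ℕ)) (h1.trans he')
    exact ⟨b', by linarith, hb2.trans h1, hb3⟩
  -- the first shift
  have hz0 : z ((0 : ℕ) : ℤ) = 0 := hz.zero
  have hd0 : dev r F H 0 0 ≤ ε₃ := by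
    have h1 := hsmall 0 (Nat.zero_le _)
    rwa [hz0] at h1
  obtain ⟨β₀, hβ1, hβ2, hβ3⟩ := exists_min h hc hF hH hF0 (hd0.trans hε₃3)
  rw [sub_zero] at hβ1
  -- the sequence of shifts
  classical
  obtain ⟨nx, hnx⟩ : ∃ nx : ℕ → ℂ → ℂ, ∀ (k : ℕ) (b : ℂ), dev r F H (z k) b ≤ ε₃ → c₁ * ‖nx k b - b‖ ≤ c₁ * b₀ / 2 ∧
      dev r F H (z (k + 1 : ℕ)) (nx k b) ≤ ε₀ ∧ ∀ b'' : ℂ, ‖b'' - nx k b‖ ≤ b₀ → dev r F H (z (k + 1 : ℕ)) (nx k b) ≤ dev r F H (z (k + 1 : ℕ)) b'' := by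
    refine ⟨fun k b => if hb : dev r F H (z k) b ≤ ε₃ then (hstep k b hb).choose else b, fun k b hb => ?_⟩
    simp only [dif_pos hb]
    exact (hstep k b hb).choose_spec
  obtain ⟨b, hb0', hbs⟩ : ∃ b : ℕ → ℂ, b 0 = β₀ ∧ ∀ k, b (k + 1) = nx k (b k) := ⟨fun k => Nat.rec β₀ (fun k x => nx k x) k, rfl, fun _ => rfl⟩
  have hle : ∀ {x : ℂ}, c₁ * ‖x‖ ≤ c₁ * b₀ / 2 → ‖x‖ ≤ b₀ / 2 := fun {x} hx => by
    have h1 : c₁ * ‖x‖ ≤ c₁ * (b₀ / 2) := by linarith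
    exact le_of_mul_le_mul_left h1 hc1
  have hβ4 : ‖β₀‖ ≤ b₀ / 2 := hle (by linarith)
  have hb00 : dev r F H 0 (b 0) ≤ ε₃ := by
    rw [hb0']
    exact hβ2.trans hd0
  -- the minimality propagates
  have hmin : ∀ k : ℕ, (∀ j < k, dev r F H (z j) (b j) ≤ ε₃) → ∀ b' : ℂ, ‖b' - b k‖ ≤ b₀ → dev r F H (z k) (b k) ≤ dev r F H (z k) b' := by
    intro k hk
    cases k with
    | zero =>
      rw [hz0, hb0']
      exact hβ3
    | succ k =>
      rw [hbs k]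
      exact (hnx k (b k) (hk k (Nat.lt_succ_self k))).2.2
  -- no exit before `n`
  have hno : ∀ k : ℕ, k ≤ n → dev r F H (z k) (b k) ≤ ε₃ ∧ ‖b k‖ ≤ b₀ / 2 := by
    intro k
    induction k using Nat.strong_induction_on with
    | _ k ih =>
      intro hk
      have h1 : ‖b k‖ ≤ b₀ := by
        cases k with
        | zero =>
          rw [hb0']
          linarith
        | succ k =>
          have h2 := ih k (Nat.lt_succ_self k) (by omega)
          have h3 := hle (hnx k (b k) h2.1).1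
          rw [hbs k]
          have h4 : nx k (b k) = (nx k (b k) - b k) + b k := by ring
          rw [h4]
          refine (norm_add_le _ _).trans ?_
          linarith [h2.2]
      have h2 : dev r F H (z k) (b k) ≤ dev r F H (z k) 0 :=
        hmin k (fun j hj => (ih j hj (by omega)).1) 0 (by rwa [zero_sub, norm_neg])
      have h3 := hsmall k hk
      refine ⟨h2.trans h3, hle ?_⟩
      have h4 := uniq h hc hF hH (a := z k) (b := 0) (b' := b k) (hz.good k) (h3.trans (hε₃3.trans hc1b)) (by rw [sub_zero]; linarith)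
      rw [sub_zero] at h4
      linarith [h2.trans h3]
  refine ⟨b, ?_, hb00, ?_, ?_⟩
  · rw [hb0']
    linarith
  · rw [hb0']
    exact hβ3
  by_cases hall : ∀ k : ℕ, dev r F H (z k) (b k) ≤ ε₃
  · left
    intro k
    refine ⟨hall k, hmin k fun j _ => hall j, ?_⟩
    rw [hbs k]
    have := hle (hnx k (b k) (hall k)).1
    linarith
  · right
    push Not at hall
    have hT := Nat.find_spec hall
    have hT' : ∀ j < Nat.find hall, dev r F H (z j) (b j) ≤ ε₃ := fun j hj => not_lt.1 (Nat.find_min hall hj)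
    refine ⟨Nat.find hall, ?_, hT, fun k hk => ⟨?_, hmin k fun j hj => hT' j (lt_of_lt_of_le hj hk), fun hk' => ?_⟩⟩
    · by_contra hcon
      push Not at hcon
      exact absurd (hno _ hcon).1 (not_le.2 hT)
    · rcases lt_or_eq_of_le hk with hk' | hk'
      · exact (hT' k hk').trans hε₃2
      · cases k with
        | zero =>
          have h1 := (hno 0 (Nat.zero_le _)).1
          exact h1.trans hε₃2
        | succ k =>
          rw [hbs k]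
          exact (hnx k (b k) (hT' k (by omega))).2.1
    · rw [hbs k]
      have := hle (hnx k (b k) (hT' k hk')).1
      linarith

end Pool.Agent.SR2.G
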