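import Pool.Agent.SR2.G.MemD
import Pool.Agent.SR2.G.MemG
import Pool.Agent.SR2.G.MemC
import Pool.Agent.SR2.G.MemT

/-!
# SR2 G MemS: the family is a compact family of entire curves in the direction of the real axis
-/

set_option autoImplicit false
set_option linter.unusedSectionVars false

open Topology Filter Metric

noncomputable section

namespace Pool.Agent.SR2.G

open Pool.Agent.H36.BP (EN)
open Pool.Agent.SR2 (Geo)
open Pool.Agent.SR2.Geo (Gd)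

variable {N : ℕ} {G : Geo N} {T : Set (EN N)} {rho : EN N → ℝ} {δ γ A' B : ℝ} {β β' : G.ι → ℝ} {q : G.J → ℂ} {𝒬 : Set (EN N → ℂ)}

theorem one_le_pw {γ r : ℝ} (hγ : 0 ≤ γ) (hr : 0 ≤ r) : 1 ≤ pw γ r := Real.one_le_rpow (by linarith) hγ

theorem KF_shift {F : ℂ → EN N} (hF : F ∈ KF G T rho δ γ A' B β β' q 𝒬) (a : ℂ) : sh a F ∈ KF G T rho δ γ A' B β β' q 𝒬 := by
  refine ⟨mem_sh hF.1 a, fun Q hQ => ?_⟩
  obtain ⟨z, hz⟩ := hF.2 Q hQ
  refine ⟨z - a, ?_⟩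
  show Q (F (z - a + a)) ≠ 0
  rwa [sub_add_cancel]

theorem KF_sys (hG : G.Ok) (hf : Facts G T rho δ γ A' B) (hq : HFacts G T rho δ 𝒬) (hne : (KF G T rho δ γ A' B β β' q 𝒬).Nonempty) :
    ∃ M₀ : ℝ, Sys (KF G T rho δ γ A' B β β' q 𝒬) M₀ γ := by
  obtain ⟨M₀, hM0, hgood, hdense⟩ := mem_dense hG hf
  refine ⟨M₀, ⟨hf.str.γ_pos, hf.str.γ_lt, ?_, fun F hF => hF.1.cl.ent.diff, fun F hF z => cl_deriv_ne hG hF.1.cl z, fun F hF a => KF_shift hF a, ?_, ?_, ?_,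
    ?_⟩⟩
  · obtain ⟨F, hF⟩ := hne
    obtain ⟨a, ha⟩ := hf.good q F hF.1.cl
    refine ⟨sh a F, KF_shift hF a, ?_⟩
    show ‖F (0 + a)‖ ≤ M₀
    rw [zero_add]
    exact hgood q F hF.1.cl a ha
  · intro 𝒰 h𝒰 B₁ F hF h0
    exact KF_cpt hG hf hq h𝒰 hF h0
  · intro B₁
    obtain ⟨c, C, hc, hC, h1⟩ := mem_log hG hf β β' B₁
    refine ⟨C, fun F hF h0 z => ?_⟩
    have h2 := (h1 q F hF.1 h0 z).2
    rcases (norm_nonneg (F z)).eq_or_lt with h3 | h3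
    · rw [← h3]
      exact (Real.exp_pos _).le
    · rw [← Real.log_le_iff_le_exp h3]
      exact h2
  · intro B₁
    obtain ⟨c, C, hc, hC, h1⟩ := mem_log hG hf β β' B₁
    refine ⟨(C + |Real.log B₁|) / c, fun F hF h0 z hz => ?_⟩
    have h2 := (h1 q F hF.1 h0 z).1
    have h3 : Real.log ‖F z‖ ≤ |Real.log B₁| := by
      rcases (norm_nonneg (F z)).eq_or_lt with h4 | h4
      · rw [← h4, Real.log_zero]
        exact abs_nonneg _
      · exact (Real.log_le_log h4 hz).trans (le_abs_self _)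
    have h4 := one_le_pw (γ := γ) hf.str.γ_pos.le (norm_nonneg z)
    have h5 : |Real.log B₁| ≤ |Real.log B₁| * pw γ ‖z‖ := le_mul_of_one_le_right (abs_nonneg _) h4
    rw [div_mul_eq_mul_div, le_div_iff₀ hc]
    nlinarith
  · obtain ⟨l, hl⟩ := hdense β β'
    exact ⟨l, fun F hF h0 x => hl q F hF.1 h0 x⟩

end Pool.Agent.SR2.G
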