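import Pool.Agent.SR2.G.Defs

/-!
# SR2 G Stub: the statements of block G (never import this file in a hand-in)

One module = one file `Pool/Agent/SR2/G/<Module>.lean`, namespace `Pool.Agent.SR2.G`, statements verbatim.
-/

set_option autoImplicit false

open Topology Filter Metric

noncomputable section

namespace Pool.Agent.SR2.G.Stub

open Pool.Agent.SR2.G

variable {V : Type} [NormedAddCommGroup V] [NormedSpace ℂ V] [CompleteSpace V] {KK : Set (ℂ → V)} {M γ L r b₀ c₁ C₂ ε₀ : ℝ}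

/-! ## module DQ -/

theorem le_dQ {F H : ℂ → V} (hF : Continuous F) (hH : Continuous H) {w : ℂ} (hw : ‖w‖ ≤ r) : ‖H w - F w‖ ≤ dQ r F H := by
  sorry

theorem dQ_le {F H : ℂ → V} (hr : 0 ≤ r) {δ : ℝ} (h : ∀ w : ℂ, ‖w‖ ≤ r → ‖H w - F w‖ ≤ δ) : dQ r F H ≤ δ := by
  sorry

theorem dQ_nonneg (F H : ℂ → V) : 0 ≤ dQ r F H := by
  sorry

theorem dQ_tri {F G H : ℂ → V} (hr : 0 ≤ r) (hF : Continuous F) (hG : Continuous G) (hH : Continuous H) : dQ r F H ≤ dQ r F G + dQ r G H := by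
  sorry

theorem dQ_comm (F H : ℂ → V) : dQ r F H = dQ r H F := by
  sorry

/-- the distance converges if the functions do -/
theorem tendsto_dQ {l : Filter ℕ} {F H : ℕ → ℂ → V} {F₀ H₀ : ℂ → V} (hr : 0 ≤ r) (hFc : ∀ n, Continuous (F n)) (hHc : ∀ n, Continuous (H n))
    (hF₀ : Continuous F₀) (hH₀ : Continuous H₀) (hF : TendstoLocallyUniformlyOn F F₀ l Set.univ) (hH : TendstoLocallyUniformlyOn H H₀ l Set.univ) :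
    Tendsto (fun n => dQ r (F n) (H n)) l (𝓝 (dQ r F₀ H₀)) := by
  sorry

theorem continuous_dev {F H : ℂ → V} (hr : 0 ≤ r) (hF : Continuous F) (hH : Continuous H) (a : ℂ) : Continuous fun b => dev r F H a b := by
  sorry

/-- translates with converging shifts -/
theorem tlu_sh {l : Filter ℕ} [l.NeBot] {F : ℕ → ℂ → V} {F₀ : ℂ → V} (hF₀ : Continuous F₀) (hF : TendstoLocallyUniformlyOn F F₀ l Set.univ) {a : ℕ → ℂ}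
    {a₀ : ℂ} (ha : Tendsto a l (𝓝 a₀)) : TendstoLocallyUniformlyOn (fun n => sh (a n) (F n)) (sh a₀ F₀) l Set.univ := by
  sorry

theorem eq_of_dQ {F H : ℂ → V} (hF : Differentiable ℂ F) (hH : Differentiable ℂ H) (hr : 0 < r) (h : dQ r F H ≤ 0) : H = F := by
  sorry

theorem dev_sh (F H : ℂ → V) (a b a' : ℂ) : dev r (sh a' F) (sh a' H) a b = dev r F H (a + a') b := by
  sorry

/-- change of the base point, with a shift of `H` -/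
theorem dev_sh' (F H : ℂ → V) (a b a' b' : ℂ) : dev r (sh a' F) (sh (a' + b') H) a b = dev r F H (a + a') (b + b') := by
  sorry

/-! ## module Cpt -/

theorem exists_lip (h : Sys KK M γ) (r B : ℝ) :
    ∃ C₂ : ℝ, 1 ≤ C₂ ∧ ∀ F ∈ KK, ‖F 0‖ ≤ B → ∀ w b : ℂ, ‖w‖ ≤ r → ‖b‖ ≤ 2 → ‖F (w + b) - F w‖ ≤ C₂ * ‖b‖ := by
  sorry

theorem exists_inj (h : Sys KK M γ) (B : ℝ) :
    ∃ b₀ c₁ : ℝ, 0 < b₀ ∧ b₀ ≤ 1 / 8 ∧ 0 < c₁ ∧ c₁ ≤ 1 ∧ ∀ F ∈ KK, ‖F 0‖ ≤ B → ∀ b : ℂ, ‖b‖ ≤ 4 * b₀ → ∃ w : ℂ, ‖w‖ ≤ 1 ∧ c₁ * ‖b‖ ≤ ‖F (w + b) - F w‖ := by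
  sorry

/-- closeness on the disc of radius `r` implies closeness on the disc of radius `R` -/
theorem exists_prop (h : Sys KK M γ) (hr : 0 < r) (B R : ℝ) {δ : ℝ} (hδ : 0 < δ) :
    ∃ ε : ℝ, 0 < ε ∧ ∀ F ∈ KK, ∀ H ∈ KK, ‖F 0‖ ≤ B → dQ r F H ≤ ε → ∀ w : ℂ, ‖w‖ ≤ R → ‖H w - F w‖ ≤ δ := by
  sorry

/-! ## module Chain -/

theorem exists_chain (h : Sys KK M γ) : ∃ L : ℝ, 1 ≤ L ∧ ∀ F ∈ KK, ‖F 0‖ ≤ M → ∃ z, IsChain M L F z := by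
  sorry

theorem IsChain.shift {F : ℂ → V} {z : ℤ → ℂ} (h : IsChain M L F z) (n : ℤ) : IsChain M L (sh (z n) F) fun k => z (k + n) - z n := by
  sorry

theorem IsChain.le_norm {F : ℂ → V} {z : ℤ → ℂ} (h : IsChain M L F z) (k : ℤ) : |(k : ℝ)| ≤ ‖z k‖ := by
  sorry

theorem IsChain.norm_le {F : ℂ → V} {z : ℤ → ℂ} (h : IsChain M L F z) (k : ℤ) : ‖z k‖ ≤ L * |(k : ℝ)| := by
  sorry

/-- the growth of another member of the family along the chain -/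
theorem chain_grow (h : Sys KK M γ) (L r B : ℝ) :
    ∃ A : ℝ, 0 ≤ A ∧ ∀ F ∈ KK, ∀ H ∈ KK, ∀ z, IsChain M L F z → ‖H 0‖ ≤ B → ∀ (k : ℤ) (w : ℂ), ‖w‖ ≤ r → ‖H (z k + w)‖ ≤ Real.exp (A * pw γ |(k : ℝ)|) := by
  sorry

/-! ## module Min -/

theorem exists_cst (h : Sys KK M γ) (hL : 1 ≤ L) (hrL : L + 1 ≤ r) (hch : ∀ F ∈ KK, ‖F 0‖ ≤ M → ∃ z, IsChain M L F z) :
    ∃ b₀ c₁ C₂ : ℝ, Cst KK M L r b₀ c₁ C₂ := by
  sorry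

/-- two good shifts are close -/
theorem uniq (h : Sys KK M γ) (hc : Cst KK M L r b₀ c₁ C₂) {F H : ℂ → V} (hF : F ∈ KK) (hH : H ∈ KK) {a b b' : ℂ} (ha : ‖F a‖ ≤ M)
    (h1 : dev r F H a b ≤ 1) (h3 : ‖b' - b‖ ≤ 4 * b₀) : c₁ * ‖b' - b‖ ≤ dev r F H a b + dev r F H a b' := by
  sorry

/-- the shifts at neighbouring indices are close -/
theorem step (h : Sys KK M γ) (hc : Cst KK M L r b₀ c₁ C₂) {F H : ℂ → V} (hF : F ∈ KK) (hH : H ∈ KK) {a a' b b' : ℂ} (ha' : ‖F a'‖ ≤ M)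
    (haa : ‖a' - a‖ ≤ L) (h2 : dev r F H a' b' ≤ 1) (h3 : ‖b' - b‖ ≤ 4 * b₀) : c₁ * ‖b' - b‖ ≤ dev r F H a b + dev r F H a' b' := by
  sorry

/-- the best shift near a good one -/
theorem exists_min (h : Sys KK M γ) (hc : Cst KK M L r b₀ c₁ C₂) {F H : ℂ → V} (hF : F ∈ KK) (hH : H ∈ KK) {a b : ℂ} (ha : ‖F a‖ ≤ M)
    (h1 : dev r F H a b ≤ c₁ * b₀ / 4) :
    ∃ b' : ℂ, c₁ * ‖b' - b‖ ≤ 2 * dev r F H a b ∧ dev r F H a b' ≤ dev r F H a b ∧ ∀ b'' : ℂ, ‖b'' - b'‖ ≤ b₀ → dev r F H a b' ≤ dev r F H a b'' := by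
  sorry

/-! ## module Rig -/

/-- **No rescaled limit at a best shift.** -/
theorem rig_false (h : Sys KK M γ) (hc : Cst KK M L r b₀ c₁ C₂) (hr : Rigid KK M L r γ) (𝒰 : Ultrafilter ℕ) (h𝒰 : (𝒰 : Filter ℕ) ≤ atTop)
    {F H : ℕ → ℂ → V} {z : ℕ → ℤ → ℂ} {s ε N : ℕ → ℝ} {A : ℝ} (hF : ∀ n, F n ∈ KK) (hH : ∀ n, H n ∈ KK) (hz : ∀ n, IsChain M L (F n) (z n))
    (hs : ∀ n, 0 < s n) (hs0 : Tendsto s 𝒰 (𝓝 0)) (hε : ∀ n, 0 ≤ ε n) (hN : ∀ n, 0 ≤ N n) (hεN : Tendsto (fun n => ε n * Real.log (2 + N n)) 𝒰 (𝓝 0))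
    (hb : ∀ (n : ℕ) (k : ℤ) (w : ℂ), ‖w‖ ≤ r →
      ‖H n (z n k + w) - F n (z n k + w)‖ ≤ s n * Real.exp (A * pw γ |(k : ℝ)| + ε n * min |(k : ℝ)| (N n)))
    (hmin : ∀ (n : ℕ) (b : ℂ), ‖b‖ ≤ b₀ → s n / 2 ≤ dev r (F n) (H n) 0 b) : False := by
  sorry

/-! ## module Fol -/

/-- The difference along the chain, from the deviations `dev ≤ s * e k` and the shifts.  (`e k` is the bound of the deviations in units of `s`.) -/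
theorem follow_bound (h : Sys KK M γ) (hc : Cst KK M L r b₀ c₁ C₂) :
    ∃ A : ℝ, 0 ≤ A ∧ ∀ F ∈ KK, ∀ H ∈ KK, ∀ (z b : ℤ → ℂ) (I : Set ℤ) (s : ℝ) (e : ℤ → ℝ), IsChain M L F z → b 0 = 0 → (0 : ℤ) ∈ I → I.OrdConnected →
      0 < s → (∀ i j : ℤ, |i| ≤ |j| → e i ≤ e j) → Track r b₀ 1 F H z b I → (∀ k ∈ I, dev r F H (z k) (b k) ≤ s * Real.exp (e k)) → (∀ k ∉ I, 1 ≤ s * Real.exp (e k)) →
      ∀ (k : ℤ) (w : ℂ), ‖w‖ ≤ r → ‖H (z k + w) - F (z k + w)‖ ≤ s * Real.exp (A * pw γ |(k : ℝ)| + e k) := by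
  sorry

/-! ## module Exp -/

/-- **Expansivity.** -/
theorem exists_expa (h : Sys KK M γ) (hc : Cst KK M L r b₀ c₁ C₂) (hr : Rigid KK M L r γ) : ∃ ε₀ : ℝ, Expa KK M L r b₀ c₁ ε₀ := by
  sorry

/-! ## module Lim -/

/-- limits of followed pairs -/
theorem exists_lim (h : Sys KK M γ) (hc : Cst KK M L r b₀ c₁ C₂) (𝒰 : Ultrafilter ℕ) (h𝒰 : (𝒰 : Filter ℕ) ≤ atTop) {ε : ℝ} (hε : ε ≤ 1)
    {F H : ℕ → ℂ → V} {z b : ℕ → ℤ → ℂ} {J : ℕ → Set ℤ} {I : Set ℤ} (hF : ∀ n, F n ∈ KK) (hH : ∀ n, H n ∈ KK) (hz : ∀ n, IsChain M L (F n) (z n))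
    (hb : ∀ n, b n 0 = 0) (hJ : ∀ n, Track r b₀ ε (F n) (H n) (z n) (b n) (J n)) (hJ0 : ∀ n, (0 : ℤ) ∈ J n) (hI0 : (0 : ℤ) ∈ I) (hI : I.OrdConnected)
    (hIJ : ∀ k ∈ I, ∀ᶠ n in (𝒰 : Filter ℕ), k ∈ J n) :
    ∃ (F₀ H₀ : ℂ → V) (z₀ b' : ℤ → ℂ), F₀ ∈ KK ∧ H₀ ∈ KK ∧ IsChain M L F₀ z₀ ∧ b' 0 = 0 ∧ Track r b₀ ε F₀ H₀ z₀ b' I ∧
      ∀ k ∈ I, Tendsto (fun n => dev r (F n) (H n) (z n k) (b n k)) 𝒰 (𝓝 (dev r F₀ H₀ (z₀ k) (b' k))) := by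
  sorry

/-! ## module Zero -/

theorem tendsto_zero (h : Sys KK M γ) (hc : Cst KK M L r b₀ c₁ C₂) (he : Expa KK M L r b₀ c₁ ε₀) {F H : ℂ → V} {z b : ℤ → ℂ}
    (hp : Asym KK M L r b₀ ε₀ F H z b) : Tendsto (fun k : ℕ => dev r F H (z k) (b k)) atTop (𝓝 0) := by
  sorry

/-! ## module Ext -/

/-- Start with two close curves and follow them to the right: either for ever, or until an exit at an index `T > n`. -/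
theorem exists_fwd (h : Sys KK M γ) (hc : Cst KK M L r b₀ c₁ C₂) (he : 0 < ε₀) (he' : ε₀ ≤ c₁ * b₀ / 4) :
    ∃ ε₃ : ℝ, 0 < ε₃ ∧ ε₃ ≤ ε₀ ∧ ∀ n : ℕ, ∃ δ : ℝ, 0 < δ ∧ ∀ F ∈ KK, ∀ H ∈ KK, ∀ z, IsChain M L F z → dQ r F H ≤ δ → ∃ b : ℕ → ℂ,
      ‖b 0‖ ≤ b₀ ∧ dev r F H 0 (b 0) ≤ ε₃ ∧ (∀ b' : ℂ, ‖b' - b 0‖ ≤ b₀ → dev r F H 0 (b 0) ≤ dev r F H 0 b') ∧
      ((∀ k : ℕ, dev r F H (z k) (b k) ≤ ε₃ ∧ (∀ b' : ℂ, ‖b' - b k‖ ≤ b₀ → dev r F H (z k) (b k) ≤ dev r F H (z k) b') ∧ ‖b (k + 1) - b k‖ ≤ b₀) ∨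
      ∃ T : ℕ, n < T ∧ ε₃ < dev r F H (z T) (b T) ∧ ∀ k ≤ T, dev r F H (z k) (b k) ≤ ε₀ ∧
        (∀ b' : ℂ, ‖b' - b k‖ ≤ b₀ → dev r F H (z k) (b k) ≤ dev r F H (z k) b') ∧ (k < T → ‖b (k + 1) - b k‖ ≤ b₀)) := by
  sorry

/-! ## module Neg -/

theorem Sys.neg (h : Sys KK M γ) : Sys (ng '' KK) M γ := by
  sorry

theorem Cst.neg (hc : Cst KK M L r b₀ c₁ C₂) : Cst (ng '' KK) M L r b₀ c₁ C₂ := by
  sorry

theorem Rigid.neg (h : Sys KK M γ) (hr : Rigid KK M L r γ) : Rigid (ng '' KK) M L r γ := by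
  sorry

theorem NoPer.neg (h : NoPer KK) : NoPer (ng '' KK) := by
  sorry

theorem IsChain.neg {F : ℂ → V} {z : ℤ → ℂ} (h : IsChain M L F z) : IsChain M L (ng F) fun k => -z (-k) := by
  sorry

theorem dev_neg (F H : ℂ → V) (a b : ℂ) : dev r (ng F) (ng H) (-a) (-b) = dev r F H a b := by
  sorry

theorem Track.neg {ε : ℝ} {F H : ℂ → V} {z b : ℤ → ℂ} {I : Set ℤ} (h : Track r b₀ ε F H z b I) :
    Track r b₀ ε (ng F) (ng H) (fun k => -z (-k)) (fun k => -b (-k)) (Neg.neg ⁻¹' I) := by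
  sorry

theorem Expa.neg (he : Expa KK M L r b₀ c₁ ε₀) : Expa (ng '' KK) M L r b₀ c₁ ε₀ := by
  sorry

/-! ## module Ret -/

/-- two close translates of one curve, at points which are far apart -/
theorem exists_return (h : Sys KK M γ) (hc : Cst KK M L r b₀ c₁ C₂) {δ : ℝ} (hδ : 0 < δ) :
    ∃ (F : ℂ → V) (z : ℤ → ℂ) (ζ : ℂ), F ∈ KK ∧ IsChain M L F z ∧ 1 ≤ ζ.re ∧ ‖F ζ‖ ≤ M ∧ dQ r F (sh ζ F) ≤ δ := by
  sorry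

/-! ## module Exit -/

/-- an asymptotic pair exists, in one of the two directions -/
theorem exists_asym (h : Sys KK M γ) (hc : Cst KK M L r b₀ c₁ C₂) (he : Expa KK M L r b₀ c₁ ε₀) (hp : NoPer KK) :
    (∃ (F H : ℂ → V) (z b : ℤ → ℂ), Asym KK M L r b₀ ε₀ F H z b) ∨ ∃ (F H : ℂ → V) (z b : ℤ → ℂ), Asym (ng '' KK) M L r b₀ ε₀ F H z b := by
  sorry

/-! ## module Fast -/

/-- the deviations do not decay fast -/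
theorem not_fast (h : Sys KK M γ) (hc : Cst KK M L r b₀ c₁ C₂) (hl : LogI KK M L r) {F H : ℂ → V} {z b : ℤ → ℂ}
    (hp : Asym KK M L r b₀ ε₀ F H z b) (he : ε₀ ≤ c₁ * b₀ / 4) {c : ℝ} (hc0 : 0 < c) :
    ¬ ∀ᶠ k : ℕ in atTop, dev r F H (z k) (b k) ≤ Real.exp (-(c * k / Real.log k)) := by
  sorry

/-! ## module Slow -/

/-- there are no good indices -/
theorem not_slow (h : Sys KK M γ) (hc : Cst KK M L r b₀ c₁ C₂) (hr : Rigid KK M L r γ) {F H : ℂ → V} {z b : ℤ → ℂ}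
    (hp : Asym KK M L r b₀ ε₀ F H z b) (he : ε₀ ≤ c₁ * b₀ / 4) (h0 : Tendsto (fun k : ℕ => dev r F H (z k) (b k)) atTop (𝓝 0)) {n : ℕ → ℕ} {ε : ℕ → ℝ} (hn : StrictMono n) (hε : ∀ j, 0 < ε j)
    (hεn : Tendsto (fun j => ε j * Real.log (n j)) atTop (𝓝 0))
    (h1 : ∀ j, Real.exp (-(ε j * n j)) ≤ dev r F H (z (n j)) (b (n j)))
    (h2 : ∀ j, ∀ i : ℕ, dev r F H (z i) (b i) ≤ dev r F H (z (n j)) (b (n j)) * Real.exp (ε j * |(i : ℝ) - n j|)) : False := by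
  sorry

/-! ## module Per -/

/-- **Main theorem of block G.** -/
theorem exists_periodic (h : Sys KK M γ) (hr : ∀ L : ℝ, ∃ r₀ : ℝ, ∀ r ≥ r₀, Rigid KK M L r γ)
    (hl : ∀ L : ℝ, ∃ r₀ : ℝ, ∀ r ≥ r₀, LogI KK M L r ∧ LogI (ng '' KK) M L r) : ∃ F ∈ KK, ∃ ω : ℂ, ω ≠ 0 ∧ ∀ z, F (z + ω) = F z := by
  sorry

/-! ## module HalfI (classical; log integral in the half plane) -/

/-- a bounded type function which is very small on the positive half axis -/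
theorem log_integral {D : ℂ → ℂ} (hD : Differentiable ℂ D) {β A γ c C : ℝ} (hγ : 0 < γ) (hγ1 : γ < 1) (hc : 0 < c)
    (hup : ∀ z : ℂ, 0 ≤ z.im → ‖D z‖ ≤ Real.exp (β * z.im + A * pw γ ‖z‖))
    (hre : ∀ x : ℝ, 0 ≤ x → ‖D x‖ ≤ Real.exp (C - c * (x / Real.log (2 + x)))) : D = 0 := by
  sorry

end Pool.Agent.SR2.G.Stub
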