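import Pool.Agent.SR2.G.ODefs
import Pool.Agent.SR2.G.Stub

/-!
# SR2 G OStub: second half of block G, statements (never import this file in a hand-in)

One module = one file `Pool/Agent/SR2/G/<Module>.lean`, namespace `Pool.Agent.SR2.G`, statements verbatim.
-/

set_option autoImplicit false

open Topology Filter Metric

noncomputable section

namespace Pool.Agent.SR2.G.Stub

open Pool.Agent.H36.BP (EN)
open Pool.Agent.SR2 (Geo)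
open Pool.Agent.SR2.Geo (Gd)

variable {N : ℕ} {G : Geo N} {T : Set (EN N)} {rho : EN N → ℝ} {δ γ A' B : ℝ} {β β' : G.ι → ℝ} {q : G.J → ℂ} {F : ℂ → EN N} {𝒬 : Set (EN N → ℂ)}

/-! ## module FitU -/

/-- The direction and the rates are the same at all good points: compare the two asymptotics at `a + t v`, `t → ∞`, `v = ± 1`, `v = ± I`. -/
theorem fits_all (hs : Str G T rho δ γ A' B) (hm : Mem G T rho δ γ A' B β β' q F) {a : ℂ} (ha : a ∈ Gd rho δ F) :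
    G.Fits F a Complex.I β β' (fun z => B * Pool.Agent.SR2.pw γ ‖z - a‖) Set.univ := by
  sorry

/-! ## module MemT -/

theorem cl_sh (h : G.Cl T q F) (a : ℂ) : G.Cl T q (sh a F) := by
  sorry

theorem mem_Gd_sh {a b : ℂ} : b ∈ Gd rho δ (sh a F) ↔ b + a ∈ Gd rho δ F := by
  sorry

theorem mem_sh (hm : Mem G T rho δ γ A' B β β' q F) (a : ℂ) : Mem G T rho δ γ A' B β β' q (sh a F) := by
  sorry

theorem cl_rot (hG : G.Ok) (h : G.Cl T q F) {v : ℂ} (hv : ‖v‖ = 1) : G.Cl T (fun j => v ^ G.m j * q j) (fun z => F (v * z)) := by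
  sorry

/-- rotate the line to the horizontal one -/
theorem exists_mem (hG : G.Ok) (hs : Str G T rho δ γ A' B) (h : G.Cl T q F) {a : ℂ} (ha : a ∈ Gd rho δ F) :
    ∃ (v : ℂ) (β β' : G.ι → ℝ), ‖v‖ = 1 ∧ Mem G T rho δ γ A' B β β' (fun j => v ^ G.m j * q j) (fun z => F (v * z)) := by
  sorry

theorem mem_ng (hG : G.Ok) (hm : Mem G T rho δ γ A' B β β' q F) : Mem G T rho δ γ A' B β' β (fun j => (-1) ^ G.m j * q j) (ng F) := by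
  sorry

theorem ng_KF (hG : G.Ok) : ng '' KF G T rho δ γ A' B β β' q 𝒬 = KF G T rho δ γ A' B β' β (fun j => (-1) ^ G.m j * q j) 𝒬 := by
  sorry

theorem cl_deriv_ne (hG : G.Ok) (h : G.Cl T q F) (z : ℂ) : deriv F z ≠ 0 := by
  sorry

/-! ## module MemG -/

/-- from `gapD` -/
theorem exists_good_near (hf : Facts G T rho δ γ A' B) (B₁ : ℝ) :
    ∃ R : ℝ, 0 ≤ R ∧ ∀ (q : G.J → ℂ) (F : ℂ → EN N), G.Cl T q F → ‖F 0‖ ≤ B₁ → ∃ a ∈ Gd rho δ F, ‖a‖ ≤ R := by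
  sorry

/-- from `fits_all`, `exists_good_near` and `G.Ok.cmp` (`p (F z) = 1`): `h log ‖F‖ = ∑ b i lam i + O(1)` -/
theorem mem_log (hG : G.Ok) (hf : Facts G T rho δ γ A' B) (β β' : G.ι → ℝ) (B₁ : ℝ) :
    ∃ c C : ℝ, 0 < c ∧ 0 ≤ C ∧ ∀ (q : G.J → ℂ) (F : ℂ → EN N), Mem G T rho δ γ A' B β β' q F → ‖F 0‖ ≤ B₁ → ∀ z : ℂ,
      c * |z.im| - C * pw γ ‖z‖ ≤ Real.log ‖F z‖ ∧ Real.log ‖F z‖ ≤ C * (|z.im| + pw γ ‖z‖) := by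
  sorry

/-! ## module MemD -/

/-- `M₀` bounds `‖F‖` at the good points; on the horizontal line through a good point `a`, `log ‖F (a + t)‖ ≤ C pw γ t`, so (`lower`) there is a good
point `a₁` with `t / 2 ≤ Re (a₁ - a) ≤ 3 t / 2` for a large fixed `t`; iterate in both directions. -/
theorem mem_dense (hG : G.Ok) (hf : Facts G T rho δ γ A' B) :
    ∃ M₀ : ℝ, 0 ≤ M₀ ∧ (∀ (q : G.J → ℂ) (F : ℂ → EN N), G.Cl T q F → ∀ a ∈ Gd rho δ F, ‖F a‖ ≤ M₀) ∧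
      ∀ β β' : G.ι → ℝ, ∃ l : ℝ, ∀ (q : G.J → ℂ) (F : ℂ → EN N), Mem G T rho δ γ A' B β β' q F → ‖F 0‖ ≤ M₀ → ∀ x : ℝ, ∃ z : ℂ, |z.re - x| ≤ l ∧ ‖F z‖ ≤ M₀ := by
  sorry

/-! ## module MemC -/

theorem mem_cpt (hG : G.Ok) (hf : Facts G T rho δ γ A' B) {𝒰 : Ultrafilter ℕ} (h𝒰 : (𝒰 : Filter ℕ) ≤ atTop) {B₁ : ℝ} {F : ℕ → ℂ → EN N}
    (hF : ∀ k, Mem G T rho δ γ A' B β β' q (F k)) (h0 : ∀ k, ‖F k 0‖ ≤ B₁) :
    ∃ H, Mem G T rho δ γ A' B β β' q H ∧ TendstoLocallyUniformlyOn F H 𝒰 Set.univ := by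
  sorry

/-- also used in `Cov` -/
theorem cl_out (hf : Facts G T rho δ γ A' B) {T' : Set (EN N)} {rho' : EN N → ℝ} {δ' : ℝ} (h' : Facts' G T rho δ T' rho' δ') {𝒰 : Ultrafilter ℕ}
    (h𝒰 : (𝒰 : Filter ℕ) ≤ atTop) {B₁ : ℝ} {q : ℕ → G.J → ℂ} {F : ℕ → ℂ → EN N} {H : ℂ → EN N} (hF : ∀ k, G.Cl T (q k) (F k)) (hF' : ∀ k, ∃ z, F k z ∉ T')
    (h0 : ∀ k, ‖F k 0‖ ≤ B₁) (hH : TendstoLocallyUniformlyOn F H 𝒰 Set.univ) : ∃ z, H z ∉ T' := by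
  sorry

theorem KF_cpt (hG : G.Ok) (hf : Facts G T rho δ γ A' B) (hq : HFacts G T rho δ 𝒬) {𝒰 : Ultrafilter ℕ} (h𝒰 : (𝒰 : Filter ℕ) ≤ atTop) {B₁ : ℝ}
    {F : ℕ → ℂ → EN N} (hF : ∀ k, F k ∈ KF G T rho δ γ A' B β β' q 𝒬) (h0 : ∀ k, ‖F k 0‖ ≤ B₁) :
    ∃ H ∈ KF G T rho δ γ A' B β β' q 𝒬, TendstoLocallyUniformlyOn F H 𝒰 Set.univ := by
  sorry

/-! ## module MemS -/

theorem KF_sys (hG : G.Ok) (hf : Facts G T rho δ γ A' B) (hq : HFacts G T rho δ 𝒬) (hne : (KF G T rho δ γ A' B β β' q 𝒬).Nonempty) :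
    ∃ M₀ : ℝ, Sys (KF G T rho δ γ A' B β β' q 𝒬) M₀ γ := by
  sorry

/-! ## module RigF -/

theorem KF_rigid (hG : G.Ok) (hf : Facts G T rho δ γ A' B) (hq : HFacts G T rho δ 𝒬) (ht : TubeBd G T rho δ γ A' B) (hr : RigidF G T) (M₀ L : ℝ) :
    ∃ r₀ : ℝ, ∀ r ≥ r₀, Rigid (KF G T rho δ γ A' B β β' q 𝒬) M₀ L r γ := by
  sorry

/-! ## module LogF -/

theorem KF_logI (hG : G.Ok) (hf : Facts G T rho δ γ A' B) (hp : FirstP G T rho δ γ A' B) (M₀ L : ℝ) :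
    ∃ r₀ : ℝ, ∀ r ≥ r₀, LogI (KF G T rho δ γ A' B β β' q 𝒬) M₀ L r := by
  sorry

/-! ## module TubC (for block F) -/

/-- the neighbourhood of the good set is in the tube around a chain -/
theorem tube_cover (hG : G.Ok) (hf : Facts G T rho δ γ A' B) (β β' : G.ι → ℝ) (M₀ L κ : ℝ) :
    ∃ r₀ C : ℝ, 0 ≤ C ∧ ∀ (q : G.J → ℂ) (F : ℂ → EN N) (z : ℤ → ℂ), Mem G T rho δ γ A' B β β' q F → IsChain M₀ L F z → ∀ y : ℂ,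
      infDist y (Gd rho δ F) ≤ κ → ∃ (k : ℤ) (w : ℂ), ‖w‖ ≤ r₀ ∧ y = z k + w ∧ |(k : ℝ)| ≤ ‖y‖ + C ∧ ‖y‖ ≤ C * (1 + |(k : ℝ)|) := by
  sorry

/-! ## module Cov -/

theorem finite_cover (hG : G.Ok) (hf : Facts G T rho δ γ A' B) (hq : HFacts G T rho δ 𝒬) (hne : 𝒬.Nonempty)
    (hmul : ∀ Q ∈ 𝒬, ∀ Q' ∈ 𝒬, (fun x => Q x * Q' x) ∈ 𝒬)
    (hcov : ∀ (q : G.J → ℂ) (F : ℂ → EN N), G.Cl T q F → ∃ Q ∈ 𝒬, ∀ z, Q (F z) = 0) :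
    ∃ Q ∈ 𝒬, ∀ (q : G.J → ℂ) (F : ℂ → EN N), G.Cl T q F → ∀ z, Q (F z) = 0 := by
  sorry

/-! ## module OneF -/

theorem one_form_of (hG : G.Ok) (hf : Facts G T rho δ γ A' B) (ht : TubeBd G T rho δ γ A' B) (hr : RigidF G T) (hp : FirstP G T rho δ γ A' B)
    (hne : 𝒬.Nonempty) (hmul : ∀ Q ∈ 𝒬, ∀ Q' ∈ 𝒬, (fun x => Q x * Q' x) ∈ 𝒬) (hq : HFacts G T rho δ 𝒬)
    (hper : ∀ (q : G.J → ℂ) (F : ℂ → EN N) (ω : ℂ), G.Cl T q F → ω ≠ 0 → (∀ z, F (z + ω) = F z) →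
      (∃ B : ℝ, ∀ z, Real.log ‖F z‖ ≤ B * (1 + ‖z‖)) → ∃ Q ∈ 𝒬, ∀ z, Q (F z) = 0) :
    ∃ Q ∈ 𝒬, ∀ (q : G.J → ℂ) (F : ℂ → EN N), G.Cl T q F → ∀ z, Q (F z) = 0 := by
  sorry

end Pool.Agent.SR2.G.Stub
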